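import Mathlib

set_option autoImplicit false

/-!
# Expectations over random subsets

`ex p A f` is the expectation of `f W` where `W` is the random subset of the finite set `A` which
contains every element independently with probability `p`.
-/

set_option linter.unusedSectionVars false

namespace Pool.Agent.Helper17.HC

open Finset

variable {α : Type*} [DecidableEq α]

/-- Expectation of `f` over the `p`-random subset of `A`. -/
noncomputable def ex (p : ℝ) (A : Finset α) (f : Finset α → ℝ) : ℝ :=
  ∑ W ∈ A.powerset, p ^ #W * (1 - p) ^ (#A - #W) * f W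

lemma ex_empty (p : ℝ) (f : Finset α → ℝ) : ex p ∅ f = f ∅ := by
  simp [ex]

lemma ex_insert (p : ℝ) {a : α} {A : Finset α} (ha : a ∉ A) (f : Finset α → ℝ) :
    ex p (insert a A) f = (1 - p) * ex p A f + p * ex p A (fun W => f (insert a W)) := by
  unfold ex
  rw [Finset.sum_powerset_insert ha, Finset.mul_sum, Finset.mul_sum]
  congr 1
  · refine Finset.sum_congr rfl fun W hW => ?_
    have hWA : #W ≤ #A := Finset.card_le_card (Finset.mem_powerset.1 hW)
    rw [Finset.card_insert_of_notMem ha, Nat.succ_sub hWA, pow_succ]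
    ring
  · refine Finset.sum_congr rfl fun W hW => ?_
    have hWA : W ⊆ A := Finset.mem_powerset.1 hW
    have haW : a ∉ W := fun h => ha (hWA h)
    rw [Finset.card_insert_of_notMem ha, Finset.card_insert_of_notMem haW, Nat.add_sub_add_right,
      pow_succ]
    ring

lemma ex_congr {p : ℝ} {A : Finset α} {f g : Finset α → ℝ} (h : ∀ W, W ⊆ A → f W = g W) :
    ex p A f = ex p A g := by
  unfold ex
  exact Finset.sum_congr rfl fun W hW => by rw [h W (Finset.mem_powerset.1 hW)]

lemma ex_mono {p : ℝ} (hp0 : 0 ≤ p) (hp1 : p ≤ 1) {A : Finset α} {f g : Finset α → ℝ}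
    (h : ∀ W, W ⊆ A → f W ≤ g W) : ex p A f ≤ ex p A g := by
  unfold ex
  refine Finset.sum_le_sum fun W hW => ?_
  have h1 : 0 ≤ 1 - p := by linarith
  exact mul_le_mul_of_nonneg_left (h W (Finset.mem_powerset.1 hW)) (by positivity)

lemma ex_add (p : ℝ) (A : Finset α) (f g : Finset α → ℝ) :
    ex p A (fun W => f W + g W) = ex p A f + ex p A g := by
  unfold ex
  rw [← Finset.sum_add_distrib]
  exact Finset.sum_congr rfl fun W _ => by ring

lemma ex_sub (p : ℝ) (A : Finset α) (f g : Finset α → ℝ) :
    ex p A (fun W => f W - g W) = ex p A f - ex p A g := by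
  unfold ex
  rw [← Finset.sum_sub_distrib]
  exact Finset.sum_congr rfl fun W _ => by ring

lemma ex_mul_left (p : ℝ) (A : Finset α) (c : ℝ) (f : Finset α → ℝ) :
    ex p A (fun W => c * f W) = c * ex p A f := by
  unfold ex
  rw [Finset.mul_sum]
  exact Finset.sum_congr rfl fun W _ => by ring

lemma ex_sum {ι : Type*} (s : Finset ι) (p : ℝ) (A : Finset α) (f : ι → Finset α → ℝ) :
    ex p A (fun W => ∑ i ∈ s, f i W) = ∑ i ∈ s, ex p A (f i) := by
  unfold ex
  rw [Finset.sum_comm]
  exact Finset.sum_congr rfl fun W _ => by rw [Finset.mul_sum]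

lemma ex_one (p : ℝ) (A : Finset α) : ex p A (fun _ => 1) = 1 := by
  induction A using Finset.induction_on with
  | empty => exact ex_empty _ _
  | insert a A ha ih => rw [ex_insert p ha, ih]; ring

lemma ex_const (p : ℝ) (A : Finset α) (c : ℝ) : ex p A (fun _ => c) = c := by
  have := ex_mul_left p A c (fun _ => 1)
  simpa [ex_one] using this

lemma ex_nonneg {p : ℝ} (hp0 : 0 ≤ p) (hp1 : p ≤ 1) {A : Finset α} {f : Finset α → ℝ}
    (h : ∀ W, W ⊆ A → 0 ≤ f W) : 0 ≤ ex p A f := by
  have := ex_mono hp0 hp1 (A := A) (f := fun _ => 0) (g := f) h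
  rwa [ex_const] at this

lemma ex_comm (p q : ℝ) (A B : Finset α) (f : Finset α → Finset α → ℝ) :
    ex p A (fun W => ex q B (fun W' => f W W')) = ex q B (fun W' => ex p A (fun W => f W W')) := by
  unfold ex
  simp_rw [Finset.mul_sum]
  rw [Finset.sum_comm]
  exact Finset.sum_congr rfl fun W _ => Finset.sum_congr rfl fun W' _ => by ring

/-- The union of two independent random subsets is a random subset. -/
lemma ex_union (p q : ℝ) (A : Finset α) (f : Finset α → ℝ) :
    ex p A (fun W => ex q A (fun W' => f (W ∪ W'))) = ex (1 - (1 - p) * (1 - q)) A f := by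
  induction A using Finset.induction_on generalizing f with
  | empty => simp [ex_empty]
  | insert a A ha ih =>
    rw [ex_insert p ha, ex_insert _ ha]
    have h1 : ex p A (fun W => ex q (insert a A) (fun W' => f (W ∪ W'))) =
        (1 - q) * ex (1 - (1 - p) * (1 - q)) A f +
          q * ex (1 - (1 - p) * (1 - q)) A (fun W => f (insert a W)) := by
      have : ∀ W, W ⊆ A → ex q (insert a A) (fun W' => f (W ∪ W')) =
          (1 - q) * ex q A (fun W' => f (W ∪ W')) +
            q * ex q A (fun W' => f (insert a (W ∪ W'))) := by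
        intro W _
        rw [ex_insert q ha]
        congr 2
        exact ex_congr fun W' _ => by rw [Finset.union_insert]
      have e := ih (fun V => f (insert a V))
      rw [ex_congr this, ex_add, ex_mul_left, ex_mul_left, ih f, ← e]
    have h2 : ex p A (fun W => ex q (insert a A) (fun W' => f (insert a W ∪ W'))) =
        ex (1 - (1 - p) * (1 - q)) A (fun W => f (insert a W)) := by
      have : ∀ W, W ⊆ A → ex q (insert a A) (fun W' => f (insert a W ∪ W')) =
          ex q A (fun W' => f (insert a (W ∪ W'))) := by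
        intro W _
        rw [ex_insert q ha]
        have e1 : ex q A (fun W' => f (insert a W ∪ W')) =
            ex q A (fun W' => f (insert a (W ∪ W'))) :=
          ex_congr fun W' _ => by rw [Finset.insert_union]
        have e2 : ex q A (fun W' => f (insert a W ∪ insert a W')) =
            ex q A (fun W' => f (insert a (W ∪ W'))) :=
          ex_congr fun W' _ => by
            rw [Finset.insert_union, Finset.union_insert, Finset.insert_idem]
        rw [e1, e2]
        ring
      have e := ih (fun V => f (insert a V))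
      rw [ex_congr this, ← e]
    rw [h1, h2]
    ring

/-- Moment generating function of the number of elements in a given set. -/
lemma ex_pow_card (p t : ℝ) (A S : Finset α) :
    ex p A (fun W => t ^ #(W ∩ S)) = (1 - p + p * t) ^ #(A ∩ S) := by
  induction A using Finset.induction_on with
  | empty => simp [ex_empty]
  | insert a A ha ih =>
    rw [ex_insert p ha, ih]
    by_cases haS : a ∈ S
    · have h1 : ex p A (fun W => t ^ #(insert a W ∩ S)) = t * ex p A (fun W => t ^ #(W ∩ S)) := by
        rw [← ex_mul_left]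
        refine ex_congr fun W hW => ?_
        have : a ∉ W ∩ S := fun h => ha (hW (Finset.mem_inter.1 h).1)
        rw [Finset.insert_inter_of_mem haS, Finset.card_insert_of_notMem this, pow_succ]
        ring
      have h2 : a ∉ A ∩ S := fun h => ha (Finset.mem_inter.1 h).1
      rw [h1, ih, Finset.insert_inter_of_mem haS, Finset.card_insert_of_notMem h2, pow_succ]
      ring
    · have h1 : ex p A (fun W => t ^ #(insert a W ∩ S)) = ex p A (fun W => t ^ #(W ∩ S)) :=
        ex_congr fun W hW => by rw [Finset.insert_inter_of_notMem haS]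
      rw [h1, ih, Finset.insert_inter_of_notMem haS]
      ring

open Classical in
/-- Probability of the event `E` for the `p`-random subset of `A`. -/
noncomputable def pr (p : ℝ) (A : Finset α) (E : Finset α → Prop) : ℝ :=
  ex p A (fun W => if E W then 1 else 0)

lemma pr_mono {p : ℝ} (hp0 : 0 ≤ p) (hp1 : p ≤ 1) {A : Finset α} {E F : Finset α → Prop}
    (h : ∀ W, W ⊆ A → E W → F W) : pr p A E ≤ pr p A F := by
  classical
  refine ex_mono hp0 hp1 fun W hW => ?_
  by_cases hE : E W
  · simp [hE, h W hW hE]
  · simp only [hE, if_false]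
    split_ifs <;> norm_num

lemma pr_nonneg {p : ℝ} (hp0 : 0 ≤ p) (hp1 : p ≤ 1) {A : Finset α} (E : Finset α → Prop) :
    0 ≤ pr p A E := by
  classical
  refine ex_nonneg hp0 hp1 fun W hW => ?_
  split_ifs <;> norm_num

lemma pr_le_one {p : ℝ} (hp0 : 0 ≤ p) (hp1 : p ≤ 1) {A : Finset α} (E : Finset α → Prop) :
    pr p A E ≤ 1 := by
  classical
  have : pr p A E ≤ ex p A (fun _ => 1) := by
    refine ex_mono hp0 hp1 fun W hW => ?_
    split_ifs <;> norm_num
  rwa [ex_one] at this

lemma pr_compl (p : ℝ) (A : Finset α) (E : Finset α → Prop) :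
    pr p A (fun W => ¬ E W) = 1 - pr p A E := by
  classical
  have h : ex p A (fun W => (1 : ℝ) - (if E W then 1 else 0)) = 1 - pr p A E := by
    rw [ex_sub, ex_one]; rfl
  rw [← h]
  refine ex_congr fun W _ => ?_
  by_cases hE : E W <;> simp [hE]

/-- Union bound. -/
lemma pr_exists_le {ι : Type*} {p : ℝ} (hp0 : 0 ≤ p) (hp1 : p ≤ 1) {A : Finset α}
    (s : Finset ι) (E : ι → Finset α → Prop) :
    pr p A (fun W => ∃ i ∈ s, E i W) ≤ ∑ i ∈ s, pr p A (E i) := by
  classical
  unfold pr
  rw [← ex_sum]
  refine ex_mono hp0 hp1 fun W hW => ?_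
  split_ifs with h
  · obtain ⟨i, hi, hE⟩ := h
    calc (1 : ℝ) = if E i W then 1 else 0 := by simp [hE]
      _ ≤ ∑ i ∈ s, if E i W then (1 : ℝ) else 0 :=
        Finset.single_le_sum (f := fun i => if E i W then (1 : ℝ) else 0)
          (fun j _ => by split_ifs <;> norm_num) hi
  · exact Finset.sum_nonneg fun j _ => by split_ifs <;> norm_num

lemma pr_or_le {p : ℝ} (hp0 : 0 ≤ p) (hp1 : p ≤ 1) {A : Finset α} (E F : Finset α → Prop) :
    pr p A (fun W => E W ∨ F W) ≤ pr p A E + pr p A F := by
  classical
  unfold pr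
  rw [← ex_add]
  refine ex_mono hp0 hp1 fun W hW => ?_
  by_cases h1 : E W <;> by_cases h2 : F W <;> simp [h1, h2]

/-- Monotonicity in `p` for events closed under subsets. -/
lemma pr_anti {p q : ℝ} (hp0 : 0 ≤ p) (hpq : p ≤ q) (hq1 : q ≤ 1) {A : Finset α}
    {E : Finset α → Prop} (hE : ∀ W W', W ⊆ W' → E W' → E W) : pr q A E ≤ pr p A E := by
  classical
  rcases eq_or_lt_of_le (le_trans hpq hq1) with h1 | h1
  · have : q = p := by linarith
    rw [this]
  · set r : ℝ := 1 - (1 - q) / (1 - p) with hr
    have hp' : 0 < 1 - p := by linarith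
    have hr0 : 0 ≤ r := by
      rw [hr, sub_nonneg, div_le_one hp']; linarith
    have hr1 : r ≤ 1 := by
      rw [hr]
      have : 0 ≤ (1 - q) / (1 - p) := div_nonneg (by linarith) hp'.le
      linarith
    have hq : q = 1 - (1 - p) * (1 - r) := by
      rw [hr]; field_simp; ring
    unfold pr
    rw [hq, ← ex_union]
    refine ex_mono hp0 h1.le fun W hW => ?_
    have : ex r A (fun W' => if E (W ∪ W') then (1 : ℝ) else 0) ≤
        ex r A (fun _ => if E W then (1 : ℝ) else 0) := by
      refine ex_mono hr0 hr1 fun W' _ => ?_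
      by_cases h : E (W ∪ W')
      · simp [h, hE W (W ∪ W') Finset.subset_union_left h]
      · simp only [h, if_false]
        split_ifs <;> norm_num
    rwa [ex_const] at this

/-- Upper Chernoff bound. -/
lemma pr_card_gt {p η : ℝ} (hp0 : 0 ≤ p) (hp1 : p ≤ 1) (hη : 0 < η) (A S : Finset α) {s : ℝ}
    (hs : (#S : ℝ) ≤ s) (k : ℕ) (hk : (1 + η) * (p * s) ≤ k + 1) :
    pr p A (fun W => k < #(W ∩ S)) ≤
      Real.exp (-((1 + η) * Real.log (1 + η) - η) * (p * s)) := by
  classical
  have h1η : (0 : ℝ) < 1 + η := by linarith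
  have hlog : 0 ≤ Real.log (1 + η) := Real.log_nonneg (by linarith)
  have key : pr p A (fun W => k < #(W ∩ S)) ≤
      ex p A (fun W => (1 / (1 + η) ^ (k + 1)) * (1 + η) ^ #(W ∩ S)) := by
    refine ex_mono hp0 hp1 fun W hW => ?_
    split_ifs with h
    · rw [one_div, ← div_eq_inv_mul, le_div_iff₀ (by positivity), one_mul]
      exact pow_le_pow_right₀ (by linarith) h
    · positivity
  refine key.trans ?_
  rw [ex_mul_left, ex_pow_card]
  have h2 : (1 - p + p * (1 + η)) ^ #(A ∩ S) ≤ Real.exp (p * η * s) := by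
    have h3 : 1 - p + p * (1 + η) = 1 + p * η := by ring
    have h4 : 1 + p * η ≤ Real.exp (p * η) := by
      have := Real.add_one_le_exp (p * η); linarith
    have hpη : 0 ≤ p * η := by positivity
    calc (1 - p + p * (1 + η)) ^ #(A ∩ S) = (1 + p * η) ^ #(A ∩ S) := by rw [h3]
      _ ≤ Real.exp (p * η) ^ #(A ∩ S) := pow_le_pow_left₀ (by positivity) h4 _
      _ = Real.exp (p * η * #(A ∩ S)) := by rw [← Real.exp_nat_mul]; ring_nf
      _ ≤ Real.exp (p * η * s) := by
        apply Real.exp_le_exp.2
        refine mul_le_mul_of_nonneg_left ?_ hpη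
        refine le_trans ?_ hs
        exact_mod_cast Finset.card_le_card Finset.inter_subset_right
  have h5 : 1 / (1 + η) ^ (k + 1) ≤ Real.exp (-(Real.log (1 + η) * ((1 + η) * (p * s)))) := by
    rw [Real.exp_neg, one_div]
    apply inv_anti₀ (Real.exp_pos _)
    calc Real.exp (Real.log (1 + η) * ((1 + η) * (p * s)))
        ≤ Real.exp (Real.log (1 + η) * ((k + 1 : ℕ) : ℝ)) := by
          apply Real.exp_le_exp.2
          refine mul_le_mul_of_nonneg_left ?_ hlog
          push_cast; exact hk
      _ = (1 + η) ^ (k + 1) := by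
          rw [mul_comm, Real.exp_nat_mul, Real.exp_log h1η]
  calc 1 / (1 + η) ^ (k + 1) * (1 - p + p * (1 + η)) ^ #(A ∩ S)
      ≤ Real.exp (-(Real.log (1 + η) * ((1 + η) * (p * s)))) * Real.exp (p * η * s) := by
        refine mul_le_mul h5 h2 ?_ (Real.exp_pos _).le
        have : 0 ≤ 1 - p + p * (1 + η) := by nlinarith
        positivity
    _ = Real.exp (-((1 + η) * Real.log (1 + η) - η) * (p * s)) := by
        rw [← Real.exp_add]; congr 1; ring

end Pool.Agent.Helper17.HC
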