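import Mathlib
import Pool.Agent.Helper17.HCProb

set_option autoImplicit false

/-!
# A short proof of the spread lemma

If `(F h)` is an indexed family of finite sets with `#{h | S ⊆ F h} ≤ r ^ (-#S) * #ι` for all `S`,
then the union of `N` independent `γ`-random sets, `4 ≤ r * γ`, contains one of the `F h` except
with probability at most `2 ^ (-N)` times the average size of the sets `F h`.
-/

set_option linter.unusedSectionVars false

namespace Pool.Agent.Helper17.HC

open Finset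

variable {α : Type*} [DecidableEq α] {ι : Type*} [Fintype ι]

open Classical in
/-- The family `F` is `r`-spread. -/
def Spread (F : ι → Finset α) (r : ℝ) : Prop :=
  ∀ S : Finset α, (#(univ.filter fun h => S ⊆ F h) : ℝ) * r ^ #S ≤ Fintype.card ι

open Classical in
/-- Admissible indices. -/
noncomputable def adm (F : ι → Finset α) (h : ι) (W : Finset α) : Finset ι :=
  univ.filter fun h' => F h' ⊆ F h ∪ W ∧ #(F h') ≤ #(F h)

lemma self_mem_adm (F : ι → Finset α) (h : ι) (W : Finset α) : h ∈ adm F h W := by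
  classical
  simp [adm]

/-- An admissible index with the smallest part outside `W`. -/
noncomputable def phi (F : ι → Finset α) (h : ι) (W : Finset α) : ι :=
  Classical.choose (Finset.exists_min_image (adm F h W) (fun h' => #(F h' \ W))
    ⟨h, self_mem_adm F h W⟩)

lemma phi_mem (F : ι → Finset α) (h : ι) (W : Finset α) : phi F h W ∈ adm F h W :=
  (Classical.choose_spec (Finset.exists_min_image (adm F h W) (fun h' => #(F h' \ W))
    ⟨h, self_mem_adm F h W⟩)).1

lemma phi_min (F : ι → Finset α) (h : ι) (W : Finset α) {h' : ι} (hh : h' ∈ adm F h W) :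
    #(F (phi F h W) \ W) ≤ #(F h' \ W) :=
  (Classical.choose_spec (Finset.exists_min_image (adm F h W) (fun h' => #(F h' \ W))
    ⟨h, self_mem_adm F h W⟩)).2 h' hh

/-- The minimal fragment. -/
noncomputable def frag (F : ι → Finset α) (h : ι) (W : Finset α) : Finset α :=
  F (phi F h W) \ W

lemma frag_subset (F : ι → Finset α) (h : ι) (W : Finset α) : frag F h W ⊆ F h := by
  classical
  have h1 := (Finset.mem_filter.1 (phi_mem F h W)).2.1
  intro x hx
  obtain ⟨h2, h3⟩ := Finset.mem_sdiff.1 hx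
  rcases Finset.mem_union.1 (h1 h2) with h4 | h4
  · exact h4
  · exact absurd h4 h3

lemma frag_disjoint (F : ι → Finset α) (h : ι) (W : Finset α) : Disjoint W (frag F h W) :=
  Finset.disjoint_sdiff

lemma phi_subset (F : ι → Finset α) (h : ι) (W : Finset α) :
    F (phi F h W) ⊆ W ∪ frag F h W := by
  intro x hx
  by_cases hxW : x ∈ W
  · exact Finset.mem_union_left _ hxW
  · exact Finset.mem_union_right _ (Finset.mem_sdiff.2 ⟨hx, hxW⟩)

lemma frag_subset_of (F : ι → Finset α) (h : ι) (W : Finset α) {h' : ι}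
    (h1 : F h' ⊆ W ∪ frag F h W) (h2 : #(F h') ≤ #(F (phi F h W))) : frag F h W ⊆ F h' := by
  classical
  have h3 : h' ∈ adm F h W := by
    refine Finset.mem_filter.2 ⟨Finset.mem_univ _, ?_, ?_⟩
    · refine h1.trans ?_
      rw [Finset.union_comm]
      exact Finset.union_subset_union (frag_subset F h W) (Finset.Subset.refl W)
    · exact h2.trans (Finset.mem_filter.1 (phi_mem F h W)).2.2
  have h4 := phi_min F h W h3
  have h5 : F h' \ W ⊆ frag F h W := by
    intro x hx
    obtain ⟨h6, h7⟩ := Finset.mem_sdiff.1 hx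
    rcases Finset.mem_union.1 (h1 h6) with h8 | h8
    · exact absurd h8 h7
    · exact h8
  have h6 : F h' \ W = frag F h W := Finset.eq_of_subset_of_card_le h5 h4
  rw [← h6]
  exact Finset.sdiff_subset

open Classical in
/-- A smallest member contained in `Z`. -/
noncomputable def low (F : ι → Finset α) (Z : Finset α) : Finset α :=
  if hne : (univ.filter fun h => F h ⊆ Z).Nonempty then
    F (Classical.choose (Finset.exists_min_image (univ.filter fun h => F h ⊆ Z)
      (fun h => #(F h)) hne))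
  else ∅

lemma low_spec (F : ι → Finset α) {Z : Finset α} {h : ι} (hh : F h ⊆ Z) :
    ∃ h', low F Z = F h' ∧ F h' ⊆ Z ∧ #(F h') ≤ #(F h) := by
  classical
  have hne : (univ.filter fun h => F h ⊆ Z).Nonempty := ⟨h, by simp [hh]⟩
  have hs := Classical.choose_spec (Finset.exists_min_image (univ.filter fun h => F h ⊆ Z)
      (fun h => #(F h)) hne)
  refine ⟨_, by rw [low, dif_pos hne], (Finset.mem_filter.1 hs.1).2, hs.2 h (by simp [hh])⟩

lemma frag_subset_low (F : ι → Finset α) (h : ι) (W : Finset α) :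
    frag F h W ⊆ low F (W ∪ frag F h W) := by
  obtain ⟨h', h1, h2, h3⟩ := low_spec F (phi_subset F h W)
  rw [h1]
  exact frag_subset_of F h W h2 h3

lemma card_low_le (F : ι → Finset α) (h : ι) (W : Finset α) :
    #(low F (W ∪ frag F h W)) ≤ #(F h) := by
  classical
  obtain ⟨h', h1, h2, h3⟩ := low_spec F (phi_subset F h W)
  rw [h1]
  exact h3.trans (Finset.mem_filter.1 (phi_mem F h W)).2.2

lemma spread_frag {F : ι → Finset α} {r : ℝ} (hr : 0 ≤ r) (hF : Spread F r) (W : Finset α) :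
    Spread (fun h => frag F h W) r := by
  classical
  intro S
  refine le_trans ?_ (hF S)
  refine mul_le_mul_of_nonneg_right ?_ (by positivity)
  norm_cast
  refine Finset.card_le_card fun h hh => ?_
  rw [Finset.mem_filter] at hh ⊢
  exact ⟨Finset.mem_univ _, hh.2.trans (frag_subset F h W)⟩

/-- The exponential moment bound behind the spread lemma. -/
lemma exp_moment {F : ι → Finset α} {r γ : ℝ} (hr : 0 ≤ r) (hγ0 : 0 ≤ γ) (hγ1 : γ ≤ 1)
    {A : Finset α} (hA : ∀ h, F h ⊆ A) (hF : Spread F r) :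
    ex γ A (fun W => ∑ h, (r * γ) ^ #(frag F h W) * (1 / 2 : ℝ) ^ #(F h)) ≤ Fintype.card ι := by
  classical
  set w : Finset α → ℝ := fun Z => γ ^ #Z * (1 - γ) ^ (#A - #Z) with hw
  have h1γ : 0 ≤ 1 - γ := by linarith
  have hw0 : ∀ Z, 0 ≤ w Z := fun Z => by positivity
  set P : Finset (Finset α × ι) := A.powerset ×ˢ univ with hP
  set Q : Finset (Σ _ : Finset α, Σ _ : Finset α, ι) :=
    A.powerset.sigma fun Z => (low F Z).powerset.sigma fun T => univ.filter fun h => T ⊆ F h
    with hQ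
  set g : Finset α × ι → (Σ _ : Finset α, Σ _ : Finset α, ι) :=
    fun x => ⟨x.1 ∪ frag F x.2 x.1, ⟨frag F x.2 x.1, x.2⟩⟩ with hg
  set G : (Σ _ : Finset α, Σ _ : Finset α, ι) → ℝ :=
    fun y => w y.1 * (r ^ #y.2.1 * (1 / 2 : ℝ) ^ #(low F y.1)) with hG
  have hG0 : ∀ y, 0 ≤ G y := fun y => by
    have := hw0 y.1
    positivity
  have e1 : ex γ A (fun W => ∑ h, (r * γ) ^ #(frag F h W) * (1 / 2 : ℝ) ^ #(F h)) =
      ∑ x ∈ P, w x.1 * ((r * γ) ^ #(frag F x.2 x.1) * (1 / 2 : ℝ) ^ #(F x.2)) := by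
    unfold ex
    rw [hP, Finset.sum_product]
    exact Finset.sum_congr rfl fun W _ => by rw [Finset.mul_sum]
  have e2 : ∀ x ∈ P, w x.1 * ((r * γ) ^ #(frag F x.2 x.1) * (1 / 2 : ℝ) ^ #(F x.2)) ≤ G (g x) := by
    rintro ⟨W, h⟩ hx
    simp only [hG, hg, hw]
    have hcard : #(W ∪ frag F h W) = #W + #(frag F h W) :=
      Finset.card_union_of_disjoint (frag_disjoint F h W)
    have h2 : (1 - γ) ^ (#A - #W) ≤ (1 - γ) ^ (#A - #(W ∪ frag F h W)) := by
      refine pow_le_pow_of_le_one h1γ (by linarith) ?_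
      omega
    have h3 : (1 / 2 : ℝ) ^ #(F h) ≤ (1 / 2 : ℝ) ^ #(low F (W ∪ frag F h W)) :=
      pow_le_pow_of_le_one (by norm_num) (by norm_num) (card_low_le F h W)
    calc γ ^ #W * (1 - γ) ^ (#A - #W) * ((r * γ) ^ #(frag F h W) * (1 / 2 : ℝ) ^ #(F h))
        = (γ ^ #W * γ ^ #(frag F h W)) * r ^ #(frag F h W) *
            ((1 - γ) ^ (#A - #W) * (1 / 2 : ℝ) ^ #(F h)) := by rw [mul_pow]; ring
      _ ≤ (γ ^ #W * γ ^ #(frag F h W)) * r ^ #(frag F h W) *
            ((1 - γ) ^ (#A - #(W ∪ frag F h W)) * (1 / 2 : ℝ) ^ #(low F (W ∪ frag F h W))) := by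
          refine mul_le_mul_of_nonneg_left ?_ (by positivity)
          exact mul_le_mul h2 h3 (by positivity) (by positivity)
      _ = _ := by rw [hcard, pow_add]; ring
  have e3 : ∑ x ∈ P, G (g x) = ∑ y ∈ P.image g, G y := by
    rw [Finset.sum_image]
    rintro ⟨W, h⟩ _ ⟨W', h'⟩ _ heq
    simp only [hg, Sigma.mk.injEq, heq_eq_eq] at heq
    obtain ⟨q1, q2, q3⟩ := heq
    have : W = W' := by
      have a1 : W = (W ∪ frag F h W) \ frag F h W := by
        rw [Finset.union_sdiff_cancel_right (frag_disjoint F h W)]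
      have a2 : W' = (W' ∪ frag F h' W') \ frag F h' W' := by
        rw [Finset.union_sdiff_cancel_right (frag_disjoint F h' W')]
      rw [a1, a2, q1, q2]
    rw [this, q3]
  have e4 : ∑ y ∈ P.image g, G y ≤ ∑ y ∈ Q, G y := by
    refine Finset.sum_le_sum_of_subset_of_nonneg ?_ fun y _ _ => hG0 y
    intro y hy
    obtain ⟨⟨W, h⟩, hx, rfl⟩ := Finset.mem_image.1 hy
    have hWA : W ⊆ A := Finset.mem_powerset.1 (Finset.mem_product.1 hx).1
    simp only [hQ, hg, Finset.mem_sigma, Finset.mem_powerset, Finset.mem_filter,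
      Finset.mem_univ, true_and]
    exact ⟨Finset.union_subset hWA ((frag_subset F h W).trans (hA h)), frag_subset_low F h W,
      frag_subset F h W⟩
  have e5 : ∑ y ∈ Q, G y ≤ ∑ Z ∈ A.powerset, w Z * Fintype.card ι := by
    rw [hQ, Finset.sum_sigma]
    refine Finset.sum_le_sum fun Z hZ => ?_
    rw [Finset.sum_sigma]
    simp only [hG]
    have h6 : ∀ T ∈ (low F Z).powerset,
        ∑ h ∈ univ.filter (fun h => T ⊆ F h), w Z * (r ^ #T * (1 / 2 : ℝ) ^ #(low F Z)) ≤
          w Z * (Fintype.card ι * (1 / 2 : ℝ) ^ #(low F Z)) := by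
      intro T _
      rw [Finset.sum_const, nsmul_eq_mul]
      have h7 := hF T
      have h8 : (0 : ℝ) ≤ w Z * (1 / 2 : ℝ) ^ #(low F Z) := by
        have := hw0 Z; positivity
      calc (#(univ.filter fun h => T ⊆ F h) : ℝ) * (w Z * (r ^ #T * (1 / 2 : ℝ) ^ #(low F Z)))
          = (w Z * (1 / 2 : ℝ) ^ #(low F Z)) *
              ((#(univ.filter fun h => T ⊆ F h) : ℝ) * r ^ #T) := by ring
        _ ≤ (w Z * (1 / 2 : ℝ) ^ #(low F Z)) * Fintype.card ι :=
            mul_le_mul_of_nonneg_left h7 h8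
        _ = _ := by ring
    refine (Finset.sum_le_sum h6).trans ?_
    rw [Finset.sum_const, Finset.card_powerset, nsmul_eq_mul]
    apply le_of_eq
    have : ((2 ^ #(low F Z) : ℕ) : ℝ) * (1 / 2 : ℝ) ^ #(low F Z) = 1 := by
      push_cast
      rw [← mul_pow]; norm_num
    calc ((2 ^ #(low F Z) : ℕ) : ℝ) * (w Z * (Fintype.card ι * (1 / 2 : ℝ) ^ #(low F Z)))
        = (((2 ^ #(low F Z) : ℕ) : ℝ) * (1 / 2 : ℝ) ^ #(low F Z)) * (w Z * Fintype.card ι) := by
          ring
      _ = w Z * Fintype.card ι := by rw [this, one_mul]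
  have e6 : ∑ Z ∈ A.powerset, w Z * Fintype.card ι = Fintype.card ι := by
    rw [← Finset.sum_mul]
    have := ex_one γ A
    simp only [ex, mul_one] at this
    rw [hw]
    simp only
    rw [this, one_mul]
  rw [e1]
  exact ((Finset.sum_le_sum e2).trans (e3.le.trans e4)).trans (e5.trans e6.le)

/-- The sizes halve in expectation. -/
lemma ex_card_frag {F : ι → Finset α} {r γ : ℝ} (hr : 0 ≤ r) (hγ0 : 0 ≤ γ) (hγ1 : γ ≤ 1)
    (h4 : 4 ≤ r * γ) {A : Finset α} (hA : ∀ h, F h ⊆ A) (hF : Spread F r) :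
    ex γ A (fun W => ∑ h, (#(frag F h W) : ℝ)) ≤ (1 / 2) * ∑ h, (#(F h) : ℝ) := by
  have h1 := exp_moment hr hγ0 hγ1 hA hF
  have hlog2 : 0 < Real.log 2 := Real.log_pos (by norm_num)
  have h2 : ex γ A (fun W => ∑ h, (1 + (2 * Real.log 2) * (#(frag F h W) : ℝ) -
      Real.log 2 * (#(F h) : ℝ))) ≤
      ex γ A (fun W => ∑ h, (r * γ) ^ #(frag F h W) * (1 / 2 : ℝ) ^ #(F h)) := by
    refine ex_mono hγ0 hγ1 fun W _ => Finset.sum_le_sum fun h _ => ?_
    have h3 : (4 : ℝ) ^ #(frag F h W) ≤ (r * γ) ^ #(frag F h W) :=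
      pow_le_pow_left₀ (by norm_num) h4 _
    have h5 : (4 : ℝ) ^ #(frag F h W) * (1 / 2 : ℝ) ^ #(F h) =
        Real.exp ((2 * Real.log 2) * (#(frag F h W) : ℝ) - Real.log 2 * (#(F h) : ℝ)) := by
      have e1 : (4 : ℝ) = Real.exp (2 * Real.log 2) := by
        rw [two_mul, Real.exp_add, Real.exp_log (by norm_num)]; norm_num
      have e2 : (1 / 2 : ℝ) = Real.exp (-Real.log 2) := by
        rw [Real.exp_neg, Real.exp_log (by norm_num)]; norm_num
      rw [e1, e2, ← Real.exp_nat_mul, ← Real.exp_nat_mul, ← Real.exp_add]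
      congr 1
      ring
    calc 1 + (2 * Real.log 2) * (#(frag F h W) : ℝ) - Real.log 2 * (#(F h) : ℝ)
        ≤ Real.exp ((2 * Real.log 2) * (#(frag F h W) : ℝ) - Real.log 2 * (#(F h) : ℝ)) := by
          have := Real.add_one_le_exp
            ((2 * Real.log 2) * (#(frag F h W) : ℝ) - Real.log 2 * (#(F h) : ℝ))
          linarith
      _ = (4 : ℝ) ^ #(frag F h W) * (1 / 2 : ℝ) ^ #(F h) := h5.symm
      _ ≤ _ := mul_le_mul_of_nonneg_right h3 (by positivity)
  have h3 : ex γ A (fun W => ∑ h, (1 + (2 * Real.log 2) * (#(frag F h W) : ℝ) -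
      Real.log 2 * (#(F h) : ℝ))) =
      Fintype.card ι + (2 * Real.log 2) * ex γ A (fun W => ∑ h, (#(frag F h W) : ℝ)) -
        Real.log 2 * ∑ h, (#(F h) : ℝ) := by
    have : ∀ W, W ⊆ A → ∑ h, (1 + (2 * Real.log 2) * (#(frag F h W) : ℝ) -
      Real.log 2 * (#(F h) : ℝ)) = (Fintype.card ι + (2 * Real.log 2) *
        ∑ h, (#(frag F h W) : ℝ)) - Real.log 2 * ∑ h, (#(F h) : ℝ) := by
      intro W _
      rw [Finset.sum_sub_distrib, Finset.sum_add_distrib, Finset.mul_sum, Finset.mul_sum]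
      simp
    rw [ex_congr this, ex_sub, ex_add, ex_mul_left, ex_const, ex_const]
  rw [h3] at h2
  have h6 := h2.trans h1
  nlinarith

lemma ex_zero (A : Finset α) (f : Finset α → ℝ) : ex 0 A f = f ∅ := by
  induction A using Finset.induction_on generalizing f with
  | empty => exact ex_empty _ _
  | insert a A ha ih => rw [ex_insert _ ha, ih]; ring

/-- **Spread lemma.** -/
theorem spread_fail {r γ : ℝ} (hr : 0 ≤ r) (hγ0 : 0 ≤ γ) (hγ1 : γ ≤ 1)
    (h4 : 4 ≤ r * γ) {A : Finset α} (N : ℕ) : ∀ (F : ι → Finset α), (∀ h, F h ⊆ A) →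
    Spread F r → pr (1 - (1 - γ) ^ N) A (fun W => ¬ ∃ h, F h ⊆ W) * Fintype.card ι ≤
      (1 / 2) ^ N * ∑ h, (#(F h) : ℝ) := by
  classical
  induction N with
  | zero =>
    intro F hA hF
    simp only [pow_zero, sub_self, one_mul]
    unfold pr
    rw [ex_zero]
    split_ifs with h
    · rw [one_mul]
      have h1 : ∀ h, (1 : ℝ) ≤ #(F h) := by
        intro h'
        have : F h' ≠ ∅ := fun h'' => h ⟨h', by rw [h'']⟩
        exact_mod_cast Finset.card_pos.2 (Finset.nonempty_iff_ne_empty.2 this)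
      calc (Fintype.card ι : ℝ) = ∑ _h : ι, (1 : ℝ) := by simp
        _ ≤ _ := Finset.sum_le_sum fun h _ => h1 h
    · rw [zero_mul]
      exact Finset.sum_nonneg fun _ _ => Nat.cast_nonneg _
  | succ N ih =>
    intro F hA hF
    set q : ℝ := 1 - (1 - γ) ^ N with hq
    have h1γ : 0 ≤ 1 - γ := by linarith
    have hq0 : 0 ≤ q := by
      have : (1 - γ) ^ N ≤ 1 := pow_le_one₀ h1γ (by linarith)
      linarith
    have hq1 : q ≤ 1 := by
      have : 0 ≤ (1 - γ) ^ N := by positivity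
      linarith
    have e1 : (1 - (1 - γ) ^ (N + 1) : ℝ) = 1 - (1 - γ) * (1 - q) := by
      rw [hq, pow_succ]; ring
    have e2 : pr (1 - (1 - γ) ^ (N + 1)) A (fun W => ¬ ∃ h, F h ⊆ W) ≤
        ex γ A (fun W => pr q A (fun W' => ¬ ∃ h, frag F h W ⊆ W')) := by
      unfold pr
      rw [e1, ← ex_union]
      refine ex_mono hγ0 hγ1 fun W _ => ex_mono hq0 hq1 fun W' _ => ?_
      by_cases h : ∃ h, frag F h W ⊆ W'
      · have h' : ∃ h, F h ⊆ W ∪ W' := by
          obtain ⟨h0, hh⟩ := h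
          exact ⟨phi F h0 W, (phi_subset F h0 W).trans
            (Finset.union_subset_union (Finset.Subset.refl W) hh)⟩
        simp [h, h']
      · simp only [h, not_false_eq_true, if_true]
        split_ifs <;> norm_num
    have hcard : (0 : ℝ) ≤ Fintype.card ι := Nat.cast_nonneg _
    calc pr (1 - (1 - γ) ^ (N + 1)) A (fun W => ¬ ∃ h, F h ⊆ W) * Fintype.card ι
        ≤ ex γ A (fun W => pr q A (fun W' => ¬ ∃ h, frag F h W ⊆ W')) * Fintype.card ι :=
          mul_le_mul_of_nonneg_right e2 hcard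
      _ = ex γ A (fun W => Fintype.card ι * pr q A (fun W' => ¬ ∃ h, frag F h W ⊆ W')) := by
          rw [ex_mul_left, mul_comm]
      _ ≤ ex γ A (fun W => (1 / 2) ^ N * ∑ h, (#(frag F h W) : ℝ)) := by
          refine ex_mono hγ0 hγ1 fun W _ => ?_
          rw [mul_comm]
          exact ih (fun h => frag F h W) (fun h => (frag_subset F h W).trans (hA h))
            (spread_frag hr hF W)
      _ = (1 / 2) ^ N * ex γ A (fun W => ∑ h, (#(frag F h W) : ℝ)) := by rw [ex_mul_left]
      _ ≤ (1 / 2) ^ N * ((1 / 2) * ∑ h, (#(F h) : ℝ)) :=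
          mul_le_mul_of_nonneg_left (ex_card_frag hr hγ0 hγ1 h4 hA hF) (by positivity)
      _ = (1 / 2) ^ (N + 1) * ∑ h, (#(F h) : ℝ) := by rw [pow_succ]; ring

end Pool.Agent.Helper17.HC
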