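import Mathlib
import Pool.Agent.Helper17.Spread

set_option autoImplicit false

/-!
# The family of cyclic orders is spread
-/

set_option linter.unusedSectionVars false

namespace Pool.Agent.Helper17.HC

open Finset Equiv

/-- `m ^ t * (m - t)! ≤ e ^ t * m!`. -/
lemma pow_mul_factorial_le {m t : ℕ} (ht : t ≤ m) :
    (m : ℝ) ^ t * ((m - t).factorial : ℝ) ≤ Real.exp t * (m.factorial : ℝ) := by
  have h1 : m ^ t * t.factorial ≤ t ^ t * m.descFactorial t := by
    have e1 : t.factorial = ∏ i ∈ range t, (t - i) := by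
      rw [← Nat.descFactorial_self, Nat.descFactorial_eq_prod_range]
    have e2 : m ^ t * t.factorial = ∏ i ∈ range t, (m * (t - i)) := by
      rw [e1, Finset.prod_mul_distrib]; simp
    have e3 : t ^ t * m.descFactorial t = ∏ i ∈ range t, (t * (m - i)) := by
      rw [Nat.descFactorial_eq_prod_range, Finset.prod_mul_distrib]; simp
    rw [e2, e3]
    refine Finset.prod_le_prod' fun i hi => ?_
    have hi' : i < t := Finset.mem_range.1 hi
    rw [Nat.mul_sub, Nat.mul_sub]
    have : t * i ≤ m * i := Nat.mul_le_mul_right i ht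
    have h2 : m * t = t * m := Nat.mul_comm m t
    omega
  have h2 : (t : ℝ) ^ t / t.factorial ≤ Real.exp t :=
    Real.pow_div_factorial_le_exp (t : ℝ) (Nat.cast_nonneg t) t
  have hf : (0 : ℝ) < t.factorial := by exact_mod_cast Nat.factorial_pos t
  rw [div_le_iff₀ hf] at h2
  have h3 : (m : ℝ) ^ t * t.factorial ≤ (t : ℝ) ^ t * m.descFactorial t := by
    exact_mod_cast h1
  have h4 : (m : ℝ) ^ t ≤ Real.exp t * m.descFactorial t := by
    have h5 : (m : ℝ) ^ t * t.factorial ≤ (Real.exp t * m.descFactorial t) * t.factorial := by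
      calc (m : ℝ) ^ t * t.factorial ≤ (t : ℝ) ^ t * m.descFactorial t := h3
        _ ≤ (Real.exp t * t.factorial) * m.descFactorial t :=
            mul_le_mul_of_nonneg_right h2 (Nat.cast_nonneg _)
        _ = _ := by ring
    exact le_of_mul_le_mul_right h5 hf
  have h6 : ((m - t).factorial : ℝ) * m.descFactorial t = m.factorial := by
    exact_mod_cast Nat.factorial_mul_descFactorial ht
  calc (m : ℝ) ^ t * ((m - t).factorial : ℝ)
      ≤ (Real.exp t * m.descFactorial t) * ((m - t).factorial : ℝ) :=
        mul_le_mul_of_nonneg_right h4 (Nat.cast_nonneg _)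
    _ = Real.exp t * (((m - t).factorial : ℝ) * m.descFactorial t) := by ring
    _ = _ := by rw [h6]

variable {C : Type*} [Fintype C] [DecidableEq C]

/-- Number of permutations which are the identity on `U`. -/
lemma card_perm_fix (U : Finset C) :
    Fintype.card {f : Perm C // ∀ a, ¬ a ∉ U → f a = a} = (Fintype.card C - #U).factorial := by
  classical
  rw [← Fintype.card_congr (Equiv.Perm.subtypeEquivSubtypePerm (fun a : C => a ∉ U)),
    Fintype.card_perm]
  congr 1
  rw [Fintype.card_subtype_compl]
  simp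

/-- Number of cyclic orders in which certain elements are followed by given ones. -/
lemma card_orders {m : ℕ} [NeZero m] (hm : Fintype.card C = m) (ρ0 : C ≃ ZMod m)
    (T : Finset C) :
    (#(univ.filter fun ρ : C ≃ ZMod m =>
      ∀ c ∈ T, ρ (ρ0.symm (ρ0 c + 1)) = ρ c + 1) : ℝ) * ((m : ℝ) / 8) ^ #T ≤
        (m.factorial : ℝ) := by
  classical
  have hm0 : 0 < m := NeZero.pos m
  have hmR : (0 : ℝ) < m := by exact_mod_cast hm0
  have he2 : Real.exp 2 ≤ 8 := by
    have h1 := Real.exp_one_lt_d9
    have h2 : Real.exp 2 = Real.exp 1 * Real.exp 1 := by rw [← Real.exp_add]; norm_num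
    rw [h2]
    have h3 := Real.exp_pos 1
    nlinarith
  have he1 : Real.exp 1 ≤ 4 := by
    have h1 := Real.exp_one_lt_d9
    linarith
  set R : Finset (C ≃ ZMod m) := univ.filter fun ρ : C ≃ ZMod m =>
      ∀ c ∈ T, ρ (ρ0.symm (ρ0 c + 1)) = ρ c + 1 with hR
  by_cases hT : T = univ
  · -- all successors are given
    have hne : Nonempty C := by
      rw [← Fintype.card_pos_iff, hm]; exact hm0
    obtain ⟨c0⟩ := hne
    have hRc : #R ≤ m := by
      have : #R ≤ #(univ : Finset (ZMod m)) := by
        refine Finset.card_le_card_of_injOn (fun ρ => ρ c0) (fun _ _ => Finset.mem_univ _) ?_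
        intro ρ hρ ρ' hρ' h
        have key : ∀ ρ ∈ R, ∀ i : ℕ, ρ (ρ0.symm (ρ0 c0 + i)) = ρ c0 + i := by
          intro ρ hρ i
          induction i with
          | zero => simp
          | succ i ih =>
            have h1 := (Finset.mem_filter.1 hρ).2 (ρ0.symm (ρ0 c0 + i)) (by rw [hT]; simp)
            rw [Equiv.apply_symm_apply, ih] at h1
            push_cast
            rw [← add_assoc, ← add_assoc, h1]
        apply Equiv.ext
        intro c
        have h2 := key ρ (Finset.mem_coe.1 hρ) (ρ0 c - ρ0 c0).val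
        have h3 := key ρ' (Finset.mem_coe.1 hρ') (ρ0 c - ρ0 c0).val
        rw [ZMod.natCast_zmod_val, add_sub_cancel, Equiv.symm_apply_apply] at h2 h3
        simp only at h
        rw [h2, h3, h]
      rwa [Finset.card_univ, ZMod.card] at this
    have h1 := pow_mul_factorial_le (le_refl m)
    rw [Nat.sub_self, Nat.factorial_zero, Nat.cast_one, mul_one] at h1
    have hTm : #T = m := by rw [hT, Finset.card_univ, hm]
    have h2 : Real.exp m ≤ (4 : ℝ) ^ m := by
      have : Real.exp m = Real.exp 1 ^ m := by rw [← Real.exp_nat_mul, mul_one]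
      rw [this]
      exact pow_le_pow_left₀ (Real.exp_pos 1).le he1 m
    have h3 : (m : ℝ) ≤ 2 ^ m := by exact_mod_cast (Nat.lt_two_pow_self (n := m)).le
    have hfac : (0 : ℝ) < m.factorial := by exact_mod_cast Nat.factorial_pos m
    calc (#R : ℝ) * ((m : ℝ) / 8) ^ #T ≤ m * ((m : ℝ) / 8) ^ m := by
          rw [hTm]
          exact mul_le_mul_of_nonneg_right (by exact_mod_cast hRc) (by positivity)
      _ = (m / 8 ^ m) * (m : ℝ) ^ m := by rw [div_pow]; ring
      _ ≤ (m / 8 ^ m) * (Real.exp m * m.factorial) :=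
          mul_le_mul_of_nonneg_left h1 (by positivity)
      _ ≤ (2 ^ m / 8 ^ m) * (4 ^ m * m.factorial) := by
          refine mul_le_mul ?_ (mul_le_mul_of_nonneg_right h2 hfac.le) (by positivity)
            (by positivity)
          exact div_le_div_of_nonneg_right h3 (by positivity)
      _ = m.factorial := by
          have : (8 : ℝ) ^ m = 2 ^ m * 4 ^ m := by rw [← mul_pow]; norm_num
          rw [this]
          field_simp
  · set f : C → C := fun c => ρ0.symm (ρ0 c + 1) with hf
    have hfinj : Function.Injective f := fun c c' h => by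
      have := ρ0.symm.injective h
      exact ρ0.injective (add_right_cancel this)
    set U : Finset C := T ∪ T.image f with hU
    set B : Finset C := T \ T.image f with hB
    have hUcard : #U = #T + #B := by
      have h1 : U = T.image f ∪ B := by
        rw [hU, hB, Finset.union_comm]
        simp
      have h2 : Disjoint (T.image f) B := Finset.disjoint_sdiff
      rw [h1, Finset.card_union_of_disjoint h2, Finset.card_image_of_injective T hfinj]
    have hBT : #B ≤ #T := Finset.card_le_card Finset.sdiff_subset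
    have hUm : #U ≤ m := by rw [← hm]; exact Finset.card_le_univ U
    -- agreement on `B` forces agreement on `U`
    have agree : ∀ ρ ∈ R, ∀ ρ' ∈ R, (∀ b ∈ B, ρ b = ρ' b) → ∀ u ∈ U, ρ u = ρ' u := by
      intro ρ hρ ρ' hρ' hb u hu
      by_contra hne
      have step : ∀ x ∈ U, ρ x ≠ ρ' x → ρ0.symm (ρ0 x - 1) ∈ T ∧
          ρ (ρ0.symm (ρ0 x - 1)) ≠ ρ' (ρ0.symm (ρ0 x - 1)) := by
        intro x hx hxne
        have hxB : x ∉ B := fun h => hxne (hb x h)
        have hxf : x ∈ T.image f := by
          by_contra h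
          rcases Finset.mem_union.1 hx with h1 | h1
          · exact hxB (Finset.mem_sdiff.2 ⟨h1, h⟩)
          · exact h h1
        obtain ⟨c, hc, hcx⟩ := Finset.mem_image.1 hxf
        have h1 : ρ0.symm (ρ0 x - 1) = c := by
          rw [← hcx, hf]; simp
        rw [h1]
        refine ⟨hc, fun h => hxne ?_⟩
        have h2 := (Finset.mem_filter.1 hρ).2 c hc
        have h3 := (Finset.mem_filter.1 hρ').2 c hc
        rw [← hcx]
        simp only [hf]
        rw [h2, h3, h]
      have iter : ∀ i : ℕ, ρ0.symm (ρ0 u - (i + 1)) ∈ T ∧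
          ρ (ρ0.symm (ρ0 u - (i + 1))) ≠ ρ' (ρ0.symm (ρ0 u - (i + 1))) := by
        intro i
        induction i with
        | zero => simpa using step u hu hne
        | succ i ih =>
          have := step _ (Finset.mem_union_left _ ih.1) ih.2
          rw [Equiv.apply_symm_apply] at this
          push_cast
          have e : ρ0 u - ((i : ZMod m) + 1) - 1 = ρ0 u - ((i : ZMod m) + 1 + 1) := by ring
          rw [e] at this
          exact this
      apply hT
      rw [Finset.eq_univ_iff_forall]
      intro c
      have h1 := (iter (ρ0 u - ρ0 c - 1).val).1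
      rw [ZMod.natCast_zmod_val] at h1
      have e : ρ0 u - (ρ0 u - ρ0 c - 1 + 1) = ρ0 c := by ring
      rw [e, Equiv.symm_apply_apply] at h1
      exact h1
    have hcount : #R ≤ (m - #U).factorial * m ^ #B := by
      have h1 : #R ≤ (m - #U).factorial * #(R.image fun ρ => fun b : B => ρ b) := by
        refine Finset.card_le_mul_card_image (f := fun ρ : C ≃ ZMod m => fun b : B => ρ b)
          R _ ?_
        intro φ hφ
        obtain ⟨ρ1, hρ1, rfl⟩ := Finset.mem_image.1 hφ
        have h2 : #(R.filter fun ρ => (fun b : B => ρ b) = fun b : B => ρ1 b) ≤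
            #(univ : Finset {f : Perm C // ∀ a, ¬ a ∉ U → f a = a}) := by
          refine Finset.card_le_card_of_injOn (fun ρ => if h : ∀ a, ¬ a ∉ U →
            (ρ.trans ρ1.symm) a = a then ⟨ρ.trans ρ1.symm, h⟩ else ⟨1, fun _ _ => rfl⟩)
            (fun _ _ => Finset.mem_univ _) ?_
          have hcond : ∀ ρ ∈ R.filter (fun ρ => (fun b : B => ρ b) = fun b : B => ρ1 b),
              ∀ a, ¬ a ∉ U → (ρ.trans ρ1.symm) a = a := by
            intro ρ hρ a ha
            obtain ⟨h3, h4⟩ := Finset.mem_filter.1 hρ
            have h5 : ∀ b ∈ B, ρ b = ρ1 b := fun b hb => congrFun h4 ⟨b, hb⟩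
            have h6 := agree ρ h3 ρ1 hρ1 h5 a (by simpa using ha)
            rw [Equiv.trans_apply, h6, Equiv.symm_apply_apply]
          intro ρ hρ ρ' hρ' h
          simp only [dif_pos (hcond ρ (Finset.mem_coe.1 hρ)),
            dif_pos (hcond ρ' (Finset.mem_coe.1 hρ')), Subtype.mk.injEq] at h
          apply Equiv.ext
          intro c
          have h7 := Equiv.congr_fun h c
          simp only [Equiv.trans_apply] at h7
          exact ρ1.symm.injective h7
        rwa [Finset.card_univ, card_perm_fix, hm] at h2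
      refine h1.trans (Nat.mul_le_mul_left _ ?_)
      refine (Finset.card_le_univ _).trans ?_
      rw [Fintype.card_fun, ZMod.card, Fintype.card_coe]
    have h1 := pow_mul_factorial_le hUm
    have hfac : (0 : ℝ) < m.factorial := by exact_mod_cast Nat.factorial_pos m
    have h2 : Real.exp (#U : ℝ) ≤ 8 ^ #T := by
      calc Real.exp (#U : ℝ) ≤ Real.exp ((#T : ℝ) * 2) := by
            apply Real.exp_le_exp.2
            have : #U ≤ #T * 2 := by omega
            exact_mod_cast this
        _ = Real.exp 2 ^ #T := by rw [← Real.exp_nat_mul]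
        _ ≤ 8 ^ #T := pow_le_pow_left₀ (Real.exp_pos 2).le he2 _
    calc (#R : ℝ) * ((m : ℝ) / 8) ^ #T
        ≤ ((m - #U).factorial * m ^ #B : ℝ) * ((m : ℝ) / 8) ^ #T :=
          mul_le_mul_of_nonneg_right (by exact_mod_cast hcount) (by positivity)
      _ = (1 / 8 ^ #T) * ((m : ℝ) ^ #U * (m - #U).factorial) := by
          rw [hUcard, pow_add, div_pow]; ring
      _ ≤ (1 / 8 ^ #T) * (Real.exp (#U : ℝ) * m.factorial) :=
          mul_le_mul_of_nonneg_left h1 (by positivity)
      _ ≤ (1 / 8 ^ #T) * (8 ^ #T * m.factorial) :=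
          mul_le_mul_of_nonneg_left (mul_le_mul_of_nonneg_right h2 hfac.le) (by positivity)
      _ = m.factorial := by field_simp

/-- The cyclic shift corresponding to an order. -/
def shift {m : ℕ} (ρ : C ≃ ZMod m) : Perm C := (ρ.trans (Equiv.addRight 1)).trans ρ.symm

lemma shift_apply {m : ℕ} (ρ : C ≃ ZMod m) (c : C) : shift ρ c = ρ.symm (ρ c + 1) := rfl

lemma sameCycle_shift {m : ℕ} [NeZero m] (ρ : C ≃ ZMod m) (c c' : C) :
    (shift ρ).SameCycle c c' := by
  refine ⟨((ρ c' - ρ c).val : ℤ), ?_⟩
  have key : ∀ i : ℕ, ((shift ρ) ^ i) c = ρ.symm (ρ c + i) := by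
    intro i
    induction i with
    | zero => simp
    | succ i ih =>
      rw [pow_succ', Perm.mul_apply, ih, shift_apply, Equiv.apply_symm_apply]
      push_cast
      rw [add_assoc]
  rw [zpow_natCast, key, ZMod.natCast_zmod_val, add_sub_cancel, Equiv.symm_apply_apply]

/-- The arcs used by a cyclic order of the components. -/
def cyc {V : Type*} [DecidableEq V] {m : ℕ} (e s : C → V) (ρ : C ≃ ZMod m) : Finset (V × V) :=
  univ.image fun c => (e c, s (shift ρ c))

/-- The family of cyclic orders is `m / 8`-spread. -/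
theorem spread_cyc {V : Type*} [DecidableEq V] {m : ℕ} [NeZero m] (hm : Fintype.card C = m)
    {e s : C → V} (he : Function.Injective e) (hs : Function.Injective s) :
    Spread (fun ρ : C ≃ ZMod m => cyc e s ρ) ((m : ℝ) / 8) := by
  classical
  intro S
  have hcardι : Fintype.card (C ≃ ZMod m) = m.factorial := by
    have h : Fintype.card C = Fintype.card (ZMod m) := by rw [hm, ZMod.card]
    rw [Fintype.card_equiv (Fintype.equivOfCardEq h), hm]
  rw [hcardι]
  by_cases hex : ∃ ρ0 : C ≃ ZMod m, S ⊆ cyc e s ρ0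
  · obtain ⟨ρ0, hρ0⟩ := hex
    set T : Finset C := univ.filter fun c => (e c, s (shift ρ0 c)) ∈ S with hT
    have hST : #S = #T := by
      symm
      refine Finset.card_bij (fun c _ => (e c, s (shift ρ0 c))) ?_ ?_ ?_
      · intro c hc
        exact (Finset.mem_filter.1 hc).2
      · intro c _ c' _ h
        exact he (Prod.ext_iff.1 h).1
      · intro a ha
        obtain ⟨c, _, hc⟩ := Finset.mem_image.1 (hρ0 ha)
        exact ⟨c, Finset.mem_filter.2 ⟨Finset.mem_univ _, by rw [hc]; exact ha⟩, hc⟩
    rw [hST]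
    refine le_trans ?_ (card_orders hm ρ0 T)
    refine mul_le_mul_of_nonneg_right ?_ (by positivity)
    norm_cast
    refine Finset.card_le_card fun ρ hρ => ?_
    have hSρ := (Finset.mem_filter.1 hρ).2
    refine Finset.mem_filter.2 ⟨Finset.mem_univ _, fun c hc => ?_⟩
    have h1 := hSρ (Finset.mem_filter.1 hc).2
    obtain ⟨c', _, hc'⟩ := Finset.mem_image.1 h1
    obtain ⟨h2, h3⟩ := Prod.ext_iff.1 hc'
    simp only at h2 h3
    have h4 := he h2
    subst h4
    have h5 := hs h3
    rw [shift_apply, shift_apply] at h5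
    rw [← h5, Equiv.apply_symm_apply]
  · have : (univ.filter fun ρ : C ≃ ZMod m => S ⊆ cyc e s ρ) = ∅ := by
      rw [Finset.filter_eq_empty_iff]
      intro ρ _ h
      exact hex ⟨ρ, h⟩
    rw [this]
    simp

end Pool.Agent.Helper17.HC
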