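import Mathlib

set_option autoImplicit false

/-!
# Definitions: the random digraph `D_{n,p}` and covers by Hamilton cycles
-/

namespace Pool.Agent.Helper17.HC

open Finset

/-- The arcs of the complete digraph on `[n] = Fin n`: the ordered pairs of distinct vertices. -/
def arcs (n : ℕ) : Finset (Fin n × Fin n) := univ.filter fun a => a.1 ≠ a.2

open Classical in
/-- The probability that the random digraph `D_{n,p}` (every arc of the complete digraph is kept
independently with probability `p`; a digraph is identified with its set of arcs) has the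
property `E`: the sum of `p ^ |D| * (1 - p) ^ (n (n - 1) - |D|)` over all digraphs `D` on `[n]`
with the property `E`. -/
noncomputable def prob (n : ℕ) (p : ℝ) (E : Finset (Fin n × Fin n) → Prop) : ℝ :=
  ∑ D ∈ (arcs n).powerset, if E D then p ^ #D * (1 - p) ^ (#(arcs n) - #D) else 0

/-- `H` is the arc set `{(v_1, v_2), …, (v_{n-1}, v_n), (v_n, v_1)}` of a directed Hamilton cycle
on `[n]`, for some ordering `v` of `[n]` (`finRotate n` is the cyclic successor on `Fin n`). -/
def IsHamCycle {n : ℕ} (H : Finset (Fin n × Fin n)) : Prop :=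
  ∃ v : Equiv.Perm (Fin n), H = univ.image fun i => (v i, v (finRotate n i))

/-- The digraph `D` is covered by a family of at most `x` Hamilton cycles of `D`. -/
def CoveredBy {n : ℕ} (D : Finset (Fin n × Fin n)) (x : ℝ) : Prop :=
  ∃ 𝓗 : Finset (Finset (Fin n × Fin n)), (#𝓗 : ℝ) ≤ x ∧
    (∀ H ∈ 𝓗, IsHamCycle H ∧ H ⊆ D) ∧ ∀ a ∈ D, ∃ H ∈ 𝓗, a ∈ H

end Pool.Agent.Helper17.HC
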