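import Mathlib

set_option autoImplicit false

/-!
# König's edge colouring theorem

Every digraph with all in- and out-degrees at most `k` is covered by `k` partial injections.
-/

namespace Pool.Agent.Helper17.HC

open Finset

/-- An integer version of Birkhoff's theorem. -/
theorem birkhoff_nat {ι : Type*} [Fintype ι] [DecidableEq ι] (k : ℕ) :
    ∀ (M : ι → ι → ℕ), (∀ i, ∑ j, M i j = k) → (∀ j, ∑ i, M i j = k) →
    ∃ σ : Fin k → Equiv.Perm ι, (∀ c i, 0 < M i (σ c i)) ∧ ∀ i j, 0 < M i j → ∃ c, σ c i = j := by
  classical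
  induction k with
  | zero =>
    intro M hr hc
    refine ⟨Fin.elim0, fun c => c.elim0, fun i j hij => ?_⟩
    have := (Finset.sum_eq_zero_iff.1 (hr i)) j (Finset.mem_univ j)
    omega
  | succ k ih =>
    intro M hr hc
    have hall : ∀ S : Finset ι, #S ≤ #(S.biUnion fun i => univ.filter fun j => 0 < M i j) := by
      intro S
      set U := S.biUnion fun i => univ.filter fun j => 0 < M i j with hU
      have h1 : (k + 1) * #S ≤ (k + 1) * #U := by
        calc (k + 1) * #S = ∑ i ∈ S, ∑ j, M i j := by
              rw [Finset.sum_congr rfl fun i _ => hr i]; simp [mul_comm]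
          _ = ∑ i ∈ S, ∑ j ∈ U, M i j := by
              refine Finset.sum_congr rfl fun i hi => ?_
              symm
              refine Finset.sum_subset (Finset.subset_univ U) fun j _ hj => ?_
              by_contra hne
              exact hj (Finset.mem_biUnion.2 ⟨i, hi, by simp; omega⟩)
          _ = ∑ j ∈ U, ∑ i ∈ S, M i j := Finset.sum_comm
          _ ≤ ∑ j ∈ U, ∑ i, M i j :=
              Finset.sum_le_sum fun j _ =>
                Finset.sum_le_sum_of_subset_of_nonneg (Finset.subset_univ S)
                  fun _ _ _ => Nat.zero_le _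
          _ = (k + 1) * #U := by
              rw [Finset.sum_congr rfl fun j _ => hc j]; simp [mul_comm]
      exact Nat.le_of_mul_le_mul_left h1 (Nat.succ_pos k)
    obtain ⟨f, hf, hfm⟩ := (Finset.all_card_le_biUnion_card_iff_exists_injective
      (fun i => univ.filter fun j => 0 < M i j)).1 hall
    have hfm' : ∀ i, 0 < M i (f i) := fun i => (Finset.mem_filter.1 (hfm i)).2
    set σ0 : Equiv.Perm ι := Equiv.ofBijective f (Finite.injective_iff_bijective.1 hf) with hσ0
    have hσf : ∀ i, σ0 i = f i := fun i => rfl
    set M' : ι → ι → ℕ := fun i j => M i j - if σ0 i = j then 1 else 0 with hM'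
    have hM'' : ∀ i j, M' i j + (if σ0 i = j then 1 else 0) = M i j := by
      intro i j
      simp only [hM']
      split_ifs with h
      · have := hfm' i
        rw [← hσf, h] at this
        omega
      · simp
    have hr' : ∀ i, ∑ j, M' i j = k := by
      intro i
      have h1 : ∑ j, M' i j + ∑ j, (if σ0 i = j then 1 else 0) = k + 1 := by
        rw [← Finset.sum_add_distrib, Finset.sum_congr rfl fun j _ => hM'' i j, hr i]
      have h2 : ∑ j, (if σ0 i = j then 1 else 0) = 1 := by simp
      omega
    have hc' : ∀ j, ∑ i, M' i j = k := by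
      intro j
      have h1 : ∑ i, M' i j + ∑ i, (if σ0 i = j then 1 else 0) = k + 1 := by
        rw [← Finset.sum_add_distrib, Finset.sum_congr rfl fun i _ => hM'' i j, hc j]
      have h2 : ∑ i, (if σ0 i = j then 1 else 0) = 1 := by
        rw [Finset.sum_eq_single (σ0.symm j)]
        · simp
        · intro b _ hb
          rw [if_neg]
          intro h
          exact hb (by rw [← h]; simp)
        · simp
      omega
    obtain ⟨σ', h1, h2⟩ := ih M' hr' hc'
    refine ⟨Fin.cons σ0 σ', ?_, ?_⟩
    · intro c i
      refine Fin.cases ?_ (fun c => ?_) c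
      · exact hfm' i
      · have := h1 c i
        have h3 := hM'' i (σ' c i)
        simp only [Fin.cons_succ]
        omega
    · intro i j hij
      by_cases h : σ0 i = j
      · exact ⟨0, h⟩
      · have h3 := hM'' i j
        rw [if_neg h] at h3
        obtain ⟨c, hc⟩ := h2 i j (by omega)
        exact ⟨c.succ, hc⟩

variable {V : Type*} [Fintype V] [DecidableEq V]

/-- The set of arcs `M` is a partial injection. -/
def PInj (M : Finset (V × V)) : Prop :=
  (∀ u v v', (u, v) ∈ M → (u, v') ∈ M → v = v') ∧ ∀ u u' v, (u, v) ∈ M → (u', v) ∈ M → u = u'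

lemma PInj.mono {M M' : Finset (V × V)} (h : PInj M) (hM : M' ⊆ M) : PInj M' :=
  ⟨fun u v v' h1 h2 => h.1 u v v' (hM h1) (hM h2),
    fun u u' v h1 h2 => h.2 u u' v (hM h1) (hM h2)⟩

/-- **König's edge colouring theorem** for digraphs. -/
theorem koenig (B : Finset (V × V)) (k : ℕ) (hout : ∀ u, #(B.filter fun a => a.1 = u) ≤ k)
    (hin : ∀ v, #(B.filter fun a => a.2 = v) ≤ k) :
    ∃ M : Fin k → Finset (V × V), (∀ c, M c ⊆ B) ∧ (∀ a ∈ B, ∃ c, a ∈ M c) ∧
      ∀ c, PInj (M c) := by
  classical
  have hout' : ∀ u, ∑ v, (if (u, v) ∈ B then 1 else 0) = #(B.filter fun a => a.1 = u) := by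
    intro u
    rw [← Finset.sum_filter, ← Finset.card_eq_sum_ones]
    refine Finset.card_bij (fun v _ => (u, v)) ?_ ?_ ?_
    · intro v hv
      simpa using hv
    · intro v _ v' _ h
      simpa using h
    · rintro ⟨a, b⟩ hab
      obtain ⟨h1, h2⟩ := Finset.mem_filter.1 hab
      simp only at h2
      subst h2
      exact ⟨b, by simpa using h1, rfl⟩
  have hin' : ∀ v, ∑ u, (if (u, v) ∈ B then 1 else 0) = #(B.filter fun a => a.2 = v) := by
    intro v
    rw [← Finset.sum_filter, ← Finset.card_eq_sum_ones]
    refine Finset.card_bij (fun u _ => (u, v)) ?_ ?_ ?_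
    · intro u hu
      simpa using hu
    · intro v _ v' _ h
      simpa using h
    · rintro ⟨a, b⟩ hab
      obtain ⟨h1, h2⟩ := Finset.mem_filter.1 hab
      simp only at h2
      subst h2
      exact ⟨a, by simpa using h1, rfl⟩
  set N : V ⊕ V → V ⊕ V → ℕ := fun x y =>
    match x, y with
    | Sum.inl u, Sum.inl v => if (u, v) ∈ B then 1 else 0
    | Sum.inl u, Sum.inr u' => if u = u' then k - #(B.filter fun a => a.1 = u) else 0
    | Sum.inr v, Sum.inl v' => if v = v' then k - #(B.filter fun a => a.2 = v) else 0
    | Sum.inr v, Sum.inr u => if (u, v) ∈ B then 1 else 0 with hN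
  have hr : ∀ x, ∑ y, N x y = k := by
    rintro (u | v)
    · rw [Fintype.sum_sum_type]
      simp only [hN]
      rw [hout' u]
      have := hout u
      simp
      omega
    · rw [Fintype.sum_sum_type]
      simp only [hN]
      rw [hin' v]
      have := hin v
      simp
      omega
  have hc : ∀ y, ∑ x, N x y = k := by
    rintro (v | u)
    · rw [Fintype.sum_sum_type]
      simp only [hN]
      rw [hin' v]
      have := hin v
      simp
      omega
    · rw [Fintype.sum_sum_type]
      simp only [hN]
      rw [hout' u]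
      have := hout u
      simp
      omega
  obtain ⟨σ, h1, h2⟩ := birkhoff_nat k N hr hc
  refine ⟨fun c => univ.filter fun a => σ c (Sum.inl a.1) = Sum.inl a.2, ?_, ?_, ?_⟩
  · rintro c ⟨u, v⟩ ha
    have h3 := (Finset.mem_filter.1 ha).2
    simp only at h3
    have h4 := h1 c (Sum.inl u)
    rw [h3] at h4
    simp only [hN] at h4
    by_contra hne
    rw [if_neg hne] at h4
    exact lt_irrefl _ h4
  · rintro ⟨u, v⟩ ha
    obtain ⟨c, hc⟩ := h2 (Sum.inl u) (Sum.inl v) (by simp only [hN]; rw [if_pos ha]; exact one_pos)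
    exact ⟨c, by simp [hc]⟩
  · intro c
    refine ⟨fun u v v' h3 h4 => ?_, fun u u' v h3 h4 => ?_⟩
    · have h3 := (Finset.mem_filter.1 h3).2
      have h4 := (Finset.mem_filter.1 h4).2
      simp only at h3 h4
      rw [h3] at h4
      exact Sum.inl_injective h4
    · have h3 := (Finset.mem_filter.1 h3).2
      have h4 := (Finset.mem_filter.1 h4).2
      simp only at h3 h4
      rw [← h4] at h3
      exact Sum.inl_injective ((σ c).injective h3)

end Pool.Agent.Helper17.HC
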