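import Mathlib
import Pool.Agent.Helper17.HCKonig

set_option autoImplicit false

/-!
# Decomposition of a digraph into linear forests with many components
-/

set_option linter.unusedSectionVars false

namespace Pool.Agent.Helper17.HC

open Finset

variable {V : Type*} [Fintype V]

/-- There is no infinite walk using only arcs of `M`. -/
def NoWalk (M : Finset (V × V)) : Prop := ∀ x : ℕ → V, ¬ ∀ i, (x i, x (i + 1)) ∈ M

lemma noWalk_of_lt [LinearOrder V] {M : Finset (V × V)} (h : ∀ a ∈ M, a.1 < a.2) : NoWalk M := by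
  intro x hx
  have : StrictMono x := strictMono_nat_of_lt_succ fun i => h _ (hx i)
  exact not_injective_infinite_finite x this.injective

lemma noWalk_of_gt [LinearOrder V] {M : Finset (V × V)} (h : ∀ a ∈ M, a.2 < a.1) : NoWalk M := by
  intro x hx
  have : StrictAnti x := strictAnti_nat_of_succ_lt fun i => h _ (hx i)
  exact not_injective_infinite_finite x this.injective

lemma noWalk_of_cls {L : ℕ} [hL : Fact L.Prime] (cls : V → ZMod L) {j a : ZMod L} (hj : j ≠ 0)
    {M : Finset (V × V)} (h : ∀ e ∈ M, cls e.2 - cls e.1 = j ∧ cls e.1 ≠ a) : NoWalk M := by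
  intro x hx
  have h1 : ∀ i : ℕ, cls (x i) = cls (x 0) + (i : ZMod L) * j := by
    intro i
    induction i with
    | zero => simp
    | succ i ih =>
      have := (h _ (hx i)).1
      simp only at this
      push_cast
      rw [sub_eq_iff_eq_add] at this
      rw [this, ih]; ring
  set i : ℕ := ((a - cls (x 0)) * j⁻¹).val with hi
  have h2 : cls (x i) = a := by
    rw [h1 i, hi, ZMod.natCast_zmod_val, mul_assoc, inv_mul_cancel₀ hj]
    ring
  exact (h _ (hx i)).2 h2

lemma card_pInj_le [DecidableEq V] {β : Type*} [DecidableEq β] (cls : V → β) {M : Finset (V × V)}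
    (hM : PInj M)
    {c : β} (hc : ∀ a ∈ M, cls a.1 ≠ c) {s : ℕ} (hs : s ≤ #(univ.filter fun v => cls v = c)) :
    #M + s ≤ Fintype.card V := by
  have h1 : #(M.image Prod.fst) = #M := by
    refine Finset.card_image_of_injOn ?_
    rintro ⟨u, v⟩ h ⟨u', v'⟩ h' heq
    simp only at heq
    subst heq
    rw [hM.1 u v v' h h']
  have h2 : Disjoint (M.image Prod.fst) (univ.filter fun v => cls v = c) := by
    rw [Finset.disjoint_left]
    intro v hv hv'
    obtain ⟨a, ha, rfl⟩ := Finset.mem_image.1 hv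
    exact hc a ha (Finset.mem_filter.1 hv').2
  calc #M + s ≤ #(M.image Prod.fst) + #(univ.filter fun v => cls v = c) := by omega
    _ = #(M.image Prod.fst ∪ univ.filter fun v => cls v = c) :=
      (Finset.card_union_of_disjoint h2).symm
    _ ≤ #(univ : Finset V) := Finset.card_le_card (Finset.subset_univ _)
    _ = Fintype.card V := rfl

lemma card_residue_le {L k : ℕ} [hL : Fact L.Prime] (c : ZMod L) :
    #(univ.filter fun i : Fin k => ((i : ℕ) : ZMod L) = c) ≤ k / L + 1 := by
  classical
  have h1 : #(univ.filter fun i : Fin k => ((i : ℕ) : ZMod L) = c) =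
      #((Finset.range k).filter fun i => i ≡ c.val [MOD L]) := by
    refine Finset.card_bij (fun i _ => (i : ℕ)) ?_ ?_ ?_
    · intro i hi
      have := (Finset.mem_filter.1 hi).2
      refine Finset.mem_filter.2 ⟨Finset.mem_range.2 i.2, ?_⟩
      rw [← ZMod.natCast_eq_natCast_iff, this, ZMod.natCast_zmod_val]
    · intro i _ i' _ h
      exact Fin.ext h
    · intro i hi
      obtain ⟨h2, h3⟩ := Finset.mem_filter.1 hi
      refine ⟨⟨i, Finset.mem_range.1 h2⟩, ?_, rfl⟩
      simp only [Finset.mem_filter, Finset.mem_univ, true_and]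
      rw [← ZMod.natCast_eq_natCast_iff, ZMod.natCast_zmod_val] at h3
      exact h3
  rw [h1, ← Nat.count_eq_card_filter_range, Nat.count_modEq_card k hL.out.pos]
  split_ifs <;> omega

/-- A digraph whose degrees into and from every class are at most `k` is a union of few linear
forests with many components. -/
theorem decomp [LinearOrder V] {L k s : ℕ} [hL : Fact L.Prime] (cls : V → ZMod L)
    (hs : ∀ c, s ≤ #(univ.filter fun v => cls v = c))
    (D : Finset (V × V)) (hD : ∀ a ∈ D, a.1 ≠ a.2)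
    (hout : ∀ u c, #(D.filter fun a => a.1 = u ∧ cls a.2 = c) ≤ k)
    (hin : ∀ v c, #(D.filter fun a => a.2 = v ∧ cls a.1 = c) ≤ k) :
    ∃ 𝓕 : Finset (Finset (V × V)), #𝓕 ≤ (L - 1) * k + 4 * (k + (L - 1) * (k / L + 1)) ∧
      (∀ M ∈ 𝓕, M ⊆ D ∧ PInj M ∧ NoWalk M ∧ #M + s ≤ Fintype.card V) ∧
      ∀ a ∈ D, ∃ M ∈ 𝓕, a ∈ M := by
  classical
  have hL2 : 2 ≤ L := hL.out.two_le
  have : Fact (1 < L) := ⟨hL.out.one_lt⟩
  -- the matchings of the difference classes
  have hB : ∀ j : ZMod L, ∃ M : Fin k → Finset (V × V),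
      (∀ i, M i ⊆ D.filter fun a => cls a.2 - cls a.1 = j) ∧
      (∀ a ∈ D.filter (fun a => cls a.2 - cls a.1 = j), ∃ i, a ∈ M i) ∧ ∀ i, PInj (M i) := by
    intro j
    refine koenig _ k (fun u => ?_) (fun v => ?_)
    · refine le_trans (Finset.card_le_card ?_) (hout u (cls u + j))
      rintro ⟨a, b⟩ hab
      simp only [Finset.mem_filter] at hab ⊢
      obtain ⟨⟨h1, h2⟩, h3⟩ := hab
      refine ⟨h1, h3, ?_⟩
      rw [← h2, ← h3]; ring
    · refine le_trans (Finset.card_le_card ?_) (hin v (cls v - j))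
      rintro ⟨a, b⟩ hab
      simp only [Finset.mem_filter] at hab ⊢
      obtain ⟨⟨h1, h2⟩, h3⟩ := hab
      refine ⟨h1, h3, ?_⟩
      rw [← h2, ← h3]; ring
  choose M hMsub hMcov hMinj using hB
  set J : Finset (ZMod L) := univ.filter fun j => j ≠ 0 with hJ
  have hJcard : #J = L - 1 := by
    rw [hJ, Finset.filter_ne' univ (0 : ZMod L), Finset.card_erase_of_mem (Finset.mem_univ _),
      Finset.card_univ, ZMod.card]
  set R : ZMod L → Fin k → Finset (V × V) :=
    fun j i => (M j i).filter fun a => cls a.1 = ((i : ℕ) : ZMod L) with hR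
  set G : ZMod L → Fin k → Finset (V × V) :=
    fun j i => (M j i).filter fun a => cls a.1 ≠ ((i : ℕ) : ZMod L) with hG
  set Q0 : Finset (V × V) := D.filter fun a => cls a.2 = cls a.1 with hQ0
  set Q1 : Finset (V × V) := J.biUnion fun j => univ.biUnion fun i => R j i with hQ1
  set Q : Finset (V × V) := Q0 ∪ Q1 with hQ
  set d : ℕ := k + (L - 1) * (k / L + 1) with hd
  have hMD : ∀ j i, M j i ⊆ D := fun j i => (hMsub j i).trans (Finset.filter_subset _ _)
  have hQ1D : Q1 ⊆ D := by
    intro a ha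
    obtain ⟨j, _, hj⟩ := Finset.mem_biUnion.1 ha
    obtain ⟨i, _, hi⟩ := Finset.mem_biUnion.1 hj
    exact hMD j i (Finset.mem_filter.1 hi).1
  have hQD : Q ⊆ D := Finset.union_subset (Finset.filter_subset _ _) hQ1D
  have hQout : ∀ u, #(Q.filter fun a => a.1 = u) ≤ d := by
    intro u
    rw [hQ, Finset.filter_union]
    refine (Finset.card_union_le _ _).trans ?_
    refine Nat.add_le_add ?_ ?_
    · refine le_trans (Finset.card_le_card ?_) (hout u (cls u))
      rintro ⟨a, b⟩ hab
      simp only [hQ0, Finset.mem_filter] at hab ⊢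
      exact ⟨hab.1.1, hab.2, by rw [hab.1.2, hab.2]⟩
    · rw [hQ1, Finset.filter_biUnion]
      refine Finset.card_biUnion_le.trans ?_
      rw [← hJcard, ← smul_eq_mul, ← Finset.sum_const]
      refine Finset.sum_le_sum fun j hj => ?_
      rw [Finset.filter_biUnion]
      refine Finset.card_biUnion_le.trans ?_
      have h1 : ∀ i : Fin k, #((R j i).filter fun a => a.1 = u) ≤
          if ((i : ℕ) : ZMod L) = cls u then 1 else 0 := by
        intro i
        split_ifs with h
        · rw [Finset.card_le_one]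
          rintro ⟨a, b⟩ hab ⟨a', b'⟩ hab'
          simp only [hR, Finset.mem_filter] at hab hab'
          obtain ⟨⟨h2, _⟩, h3⟩ := hab
          obtain ⟨⟨h2', _⟩, h3'⟩ := hab'
          subst h3
          subst h3'
          rw [(hMinj j i).1 _ _ _ h2 h2']
        · rw [Nat.le_zero, Finset.card_eq_zero, Finset.filter_eq_empty_iff]
          rintro ⟨a, b⟩ hab h3
          simp only [hR, Finset.mem_filter] at hab
          simp only at h3
          subst h3
          exact h hab.2.symm
      refine (Finset.sum_le_sum fun i _ => h1 i).trans ?_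
      rw [← Finset.sum_filter, ← Finset.card_eq_sum_ones]
      exact card_residue_le (cls u)
  have hQin : ∀ v, #(Q.filter fun a => a.2 = v) ≤ d := by
    intro v
    rw [hQ, Finset.filter_union]
    refine (Finset.card_union_le _ _).trans ?_
    refine Nat.add_le_add ?_ ?_
    · refine le_trans (Finset.card_le_card ?_) (hin v (cls v))
      rintro ⟨a, b⟩ hab
      simp only [hQ0, Finset.mem_filter] at hab ⊢
      exact ⟨hab.1.1, hab.2, by rw [← hab.1.2, hab.2]⟩
    · rw [hQ1, Finset.filter_biUnion]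
      refine Finset.card_biUnion_le.trans ?_
      rw [← hJcard, ← smul_eq_mul, ← Finset.sum_const]
      refine Finset.sum_le_sum fun j hj => ?_
      rw [Finset.filter_biUnion]
      refine Finset.card_biUnion_le.trans ?_
      have h1 : ∀ i : Fin k, #((R j i).filter fun a => a.2 = v) ≤
          if ((i : ℕ) : ZMod L) = cls v - j then 1 else 0 := by
        intro i
        split_ifs with h
        · rw [Finset.card_le_one]
          rintro ⟨a, b⟩ hab ⟨a', b'⟩ hab'
          simp only [hR, Finset.mem_filter] at hab hab'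
          obtain ⟨⟨h2, _⟩, h3⟩ := hab
          obtain ⟨⟨h2', _⟩, h3'⟩ := hab'
          subst h3
          subst h3'
          rw [(hMinj j i).2 _ _ _ h2 h2']
        · rw [Nat.le_zero, Finset.card_eq_zero, Finset.filter_eq_empty_iff]
          rintro ⟨a, b⟩ hab h3
          simp only [hR, Finset.mem_filter] at hab
          simp only at h3
          subst h3
          have h4 := (Finset.mem_filter.1 (hMsub j i hab.1)).2
          simp only at h4
          apply h
          rw [← hab.2, ← h4]; ring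
      refine (Finset.sum_le_sum fun i _ => h1 i).trans ?_
      rw [← Finset.sum_filter, ← Finset.card_eq_sum_ones]
      exact card_residue_le (cls v - j)
  -- the four parts of `Q`
  have hP : ∀ P : V × V → Prop, ∃ N : Fin d → Finset (V × V),
      (∀ c a, a ∈ N c → a ∈ Q ∧ P a) ∧ (∀ a ∈ Q, P a → ∃ c, a ∈ N c) ∧ ∀ c, PInj (N c) := by
    intro P
    obtain ⟨N, h1, h2, h3⟩ := koenig (Q.filter P) d
      (fun u => le_trans (Finset.card_le_card
        (Finset.filter_subset_filter _ (Finset.filter_subset _ _))) (hQout u))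
      (fun v => le_trans (Finset.card_le_card
        (Finset.filter_subset_filter _ (Finset.filter_subset _ _))) (hQin v))
    exact ⟨N, fun c a ha => Finset.mem_filter.1 (h1 c ha),
        fun a ha hPa => h2 a (Finset.mem_filter.2 ⟨ha, hPa⟩), h3⟩
  obtain ⟨N1, hN1s, hN1c, hN1i⟩ := hP fun a => a.1 < a.2 ∧ cls a.1 = 0
  obtain ⟨N2, hN2s, hN2c, hN2i⟩ := hP fun a => a.1 < a.2 ∧ cls a.1 ≠ 0
  obtain ⟨N3, hN3s, hN3c, hN3i⟩ := hP fun a => a.2 < a.1 ∧ cls a.1 = 0
  obtain ⟨N4, hN4s, hN4c, hN4i⟩ := hP fun a => a.2 < a.1 ∧ cls a.1 ≠ 0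
  refine ⟨(J.biUnion fun j => univ.image (G j)) ∪ ((univ.image N1 ∪ univ.image N2) ∪
    (univ.image N3 ∪ univ.image N4)), ?_, ?_, ?_⟩
  · refine (Finset.card_union_le _ _).trans ?_
    refine Nat.add_le_add ?_ ?_
    · refine Finset.card_biUnion_le.trans ?_
      rw [← hJcard, ← smul_eq_mul, ← Finset.sum_const]
      refine Finset.sum_le_sum fun j _ => ?_
      refine Finset.card_image_le.trans ?_
      simp
    · have h1 := Finset.card_image_le (s := (univ : Finset (Fin d))) (f := N1)
      have h2 := Finset.card_image_le (s := (univ : Finset (Fin d))) (f := N2)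
      have h3 := Finset.card_image_le (s := (univ : Finset (Fin d))) (f := N3)
      have h4 := Finset.card_image_le (s := (univ : Finset (Fin d))) (f := N4)
      rw [Finset.card_univ, Fintype.card_fin] at h1 h2 h3 h4
      have h5 := Finset.card_union_le (univ.image N1 ∪ univ.image N2)
        (univ.image N3 ∪ univ.image N4)
      have h6 := Finset.card_union_le (univ.image N1) (univ.image N2)
      have h7 := Finset.card_union_le (univ.image N3) (univ.image N4)
      omega
  · intro M' hM'
    have h01 : (1 : ZMod L) ≠ 0 := one_ne_zero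
    simp only [Finset.mem_union, Finset.mem_biUnion, Finset.mem_image, Finset.mem_univ,
      true_and] at hM'
    rcases hM' with ⟨j, hj, i, rfl⟩ | (⟨i, rfl⟩ | ⟨i, rfl⟩) | ⟨i, rfl⟩ | ⟨i, rfl⟩
    · have hGi : PInj (G j i) := (hMinj j i).mono (Finset.filter_subset _ _)
      refine ⟨(Finset.filter_subset _ _).trans (hMD j i), hGi, ?_, ?_⟩
      · refine noWalk_of_cls cls (j := j) (a := ((i : ℕ) : ZMod L)) ?_ ?_
        · exact (Finset.mem_filter.1 hj).2
        · intro e he
          obtain ⟨h1, h2⟩ := Finset.mem_filter.1 he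
          exact ⟨(Finset.mem_filter.1 (hMsub j i h1)).2, h2⟩
      · exact card_pInj_le cls hGi (fun a ha => (Finset.mem_filter.1 ha).2) (hs _)
    · refine ⟨fun a ha => hQD (hN1s i a ha).1, hN1i i, ?_, ?_⟩
      · exact noWalk_of_lt fun a ha => (hN1s i _ ha).2.1
      · refine card_pInj_le cls (hN1i i) (c := 1) (fun a ha h => ?_) (hs _)
        rw [(hN1s i _ ha).2.2] at h
        exact h01 h.symm
    · refine ⟨fun a ha => hQD (hN2s i a ha).1, hN2i i, ?_, ?_⟩
      · exact noWalk_of_lt fun a ha => (hN2s i _ ha).2.1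
      · exact card_pInj_le cls (hN2i i) (c := 0)
          (fun a ha => (hN2s i _ ha).2.2) (hs _)
    · refine ⟨fun a ha => hQD (hN3s i a ha).1, hN3i i, ?_, ?_⟩
      · exact noWalk_of_gt fun a ha => (hN3s i _ ha).2.1
      · refine card_pInj_le cls (hN3i i) (c := 1) (fun a ha h => ?_) (hs _)
        rw [(hN3s i _ ha).2.2] at h
        exact h01 h.symm
    · refine ⟨fun a ha => hQD (hN4s i a ha).1, hN4i i, ?_, ?_⟩
      · exact noWalk_of_gt fun a ha => (hN4s i _ ha).2.1
      · exact card_pInj_le cls (hN4i i) (c := 0)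
          (fun a ha => (hN4s i _ ha).2.2) (hs _)
  · intro a ha
    have hQcase : a ∈ Q → ∃ M' ∈ ((J.biUnion fun j => univ.image (G j)) ∪
        ((univ.image N1 ∪ univ.image N2) ∪ (univ.image N3 ∪ univ.image N4))), a ∈ M' := by
      intro haQ
      rcases lt_or_gt_of_ne (hD a ha) with hlt | hlt
      · by_cases h0 : cls a.1 = 0
        · obtain ⟨c, hc⟩ := hN1c a haQ ⟨hlt, h0⟩
          exact ⟨N1 c, by simp, hc⟩
        · obtain ⟨c, hc⟩ := hN2c a haQ ⟨hlt, h0⟩
          exact ⟨N2 c, by simp, hc⟩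
      · by_cases h0 : cls a.1 = 0
        · obtain ⟨c, hc⟩ := hN3c a haQ ⟨hlt, h0⟩
          exact ⟨N3 c, by simp, hc⟩
        · obtain ⟨c, hc⟩ := hN4c a haQ ⟨hlt, h0⟩
          exact ⟨N4 c, by simp, hc⟩
    by_cases hj : cls a.2 - cls a.1 = 0
    · refine hQcase (Finset.mem_union_left _ (Finset.mem_filter.2 ⟨ha, ?_⟩))
      exact sub_eq_zero.1 hj
    · obtain ⟨i, hi⟩ := hMcov (cls a.2 - cls a.1) a (Finset.mem_filter.2 ⟨ha, rfl⟩)
      have hjJ : cls a.2 - cls a.1 ∈ J := Finset.mem_filter.2 ⟨Finset.mem_univ _, hj⟩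
      by_cases hc : cls a.1 = ((i : ℕ) : ZMod L)
      · refine hQcase (Finset.mem_union_right _ ?_)
        exact Finset.mem_biUnion.2 ⟨_, hjJ, Finset.mem_biUnion.2 ⟨i, Finset.mem_univ _,
          Finset.mem_filter.2 ⟨hi, hc⟩⟩⟩
      · refine ⟨G (cls a.2 - cls a.1) i, ?_, Finset.mem_filter.2 ⟨hi, hc⟩⟩
        refine Finset.mem_union_left _ (Finset.mem_biUnion.2 ⟨_, hjJ, ?_⟩)
        exact Finset.mem_image.2 ⟨i, Finset.mem_univ _, rfl⟩

end Pool.Agent.Helper17.HC
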