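import Mathlib
import Pool.Agent.Helper17.HCForest

set_option autoImplicit false

/-!
# Hamilton cycles through a linear forest
-/

set_option linter.unusedSectionVars false

namespace Pool.Agent.Helper17.HC

open Finset Equiv

variable {V : Type*} [Fintype V] [DecidableEq V]

/-- The permutation `σ` has only one cycle. -/
def Trans {W : Type*} (σ : Perm W) : Prop := ∀ u v, σ.SameCycle u v

/-- A partial injection extends to a permutation. -/
lemma exists_perm_extend {M : Finset (V × V)} (hM : PInj M) :
    ∃ π : Perm V, ∀ a ∈ M, π a.1 = a.2 := by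
  classical
  set f : V → V := fun u => if h : ∃ v, (u, v) ∈ M then Classical.choose h else u with hf
  have hfM : ∀ a ∈ M, f a.1 = a.2 := by
    rintro ⟨u, v⟩ ha
    have h : ∃ v, (u, v) ∈ M := ⟨v, ha⟩
    simp only [hf]
    rw [dif_pos h]
    exact hM.1 u _ _ (Classical.choose_spec h) ha
  obtain ⟨g, hg⟩ := Finset.exists_equiv_extend_of_card_eq (α := V) (β := V)
    (t := (univ : Finset V)) rfl (s := M.image Prod.fst) (f := f) (Finset.subset_univ _) (by
      intro u hu u' hu' heq
      obtain ⟨⟨a, b⟩, ha, rfl⟩ := Finset.mem_image.1 (Finset.mem_coe.1 hu)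
      obtain ⟨⟨a', b'⟩, ha', rfl⟩ := Finset.mem_image.1 (Finset.mem_coe.1 hu')
      rw [hfM _ ha, hfM _ ha'] at heq
      simp only at heq
      subst heq
      exact hM.2 _ _ _ ha ha')
  refine ⟨Equiv.ofBijective (fun v => (g v : V)) ?_, fun a ha => ?_⟩
  · rw [← Finite.injective_iff_bijective]
    intro x y hxy
    exact g.injective (Subtype.ext hxy)
  · have := hg a.1 (Finset.mem_image_of_mem _ ha)
    rw [hfM a ha] at this
    exact this

/-- Hamilton cycles through a linear forest: arbitrary cyclic orders of the components. -/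
theorem link {M : Finset (V × V)} (hM : PInj M) (hW : NoWalk M) :
    ∃ s : {v // v ∉ M.image Prod.fst} → V, Function.Injective s ∧
      ∀ τ : Perm {v // v ∉ M.image Prod.fst}, Trans τ → ∃ σ : Perm V, Trans σ ∧
        (∀ a ∈ M, σ a.1 = a.2) ∧ ∀ c : {v // v ∉ M.image Prod.fst}, σ c = s (τ c) := by
  classical
  obtain ⟨π, hπ⟩ := exists_perm_extend hM
  set T : Finset V := M.image Prod.fst with hT
  have hTπ : ∀ v ∈ T, (v, π v) ∈ M := by
    intro v hv
    obtain ⟨a, ha, rfl⟩ := Finset.mem_image.1 hv
    rw [hπ a ha]
    exact ha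
  have esc : ∀ v, ∃ k : ℕ, (π ^ k) v ∉ T := by
    intro v
    by_contra hcon
    push Not at hcon
    refine hW (fun i => (π ^ i) v) fun i => ?_
    have := hTπ _ (hcon i)
    rw [pow_succ', Perm.mul_apply]
    exact this
  set t : V → ℕ := fun v => Nat.find (esc v) with ht
  have ht1 : ∀ v, (π ^ t v) v ∉ T := fun v => Nat.find_spec (esc v)
  have ht2 : ∀ v i, i < t v → (π ^ i) v ∈ T := fun v i hi => by
    have := Nat.find_min (esc v) hi
    simpa using this
  set E : V → {v // v ∉ T} := fun v => ⟨(π ^ t v) v, ht1 v⟩ with hE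
  set g : {v // v ∉ T} → {v // v ∉ T} := fun c => E (π c) with hg
  have hginj : Function.Injective g := by
    have key : ∀ c c' : {v // v ∉ T}, g c = g c' → t (π c) ≤ t (π c') → c = c' := by
      intro c c' h hle
      have h1 : (π ^ t (π c)) (π c) = (π ^ t (π c')) (π c') := congrArg Subtype.val h
      obtain ⟨d, hd⟩ := Nat.exists_eq_add_of_le hle
      rw [hd, pow_add, Perm.mul_apply] at h1
      have h2 := (π ^ t (π c)).injective h1
      rcases Nat.eq_zero_or_pos d with h0 | h0
      · subst h0
        simp only [pow_zero, Perm.one_apply] at h2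
        exact Subtype.ext (π.injective h2)
      · obtain ⟨e, rfl⟩ := Nat.exists_eq_add_of_lt h0
        exfalso
        have h3 : (c : V) = (π ^ e) (π c') := by
          apply π.injective
          rw [h2]
          rw [← Perm.mul_apply π, ← pow_succ']
          congr 2
          omega
        exact c.2 (h3 ▸ ht2 (π c') e (by omega))
    intro c c' h
    rcases le_total (t (π c)) (t (π c')) with hle | hle
    · exact key c c' h hle
    · exact (key c' c h.symm hle).symm
  set gE : Perm {v // v ∉ T} := Equiv.ofBijective g (Finite.injective_iff_bijective.1 hginj)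
    with hgE
  refine ⟨fun c => π (gE.symm c), ?_, ?_⟩
  · intro c c' h
    exact gE.symm.injective (Subtype.ext (π.injective h))
  intro τ hτ
  set κ : Perm {v // v ∉ T} := τ.trans gE.symm with hκ
  set σ : Perm V := (Perm.ofSubtype κ).trans π with hσ
  have hσT : ∀ v ∈ T, σ v = π v := by
    intro v hv
    have : Perm.ofSubtype κ v = v := Perm.ofSubtype_apply_of_not_mem κ (by simpa using hv)
    simp only [hσ, Equiv.trans_apply, this]
  have hσC : ∀ c : {v // v ∉ T}, σ c = π (gE.symm (τ c)) := by
    intro c
    simp only [hσ, Equiv.trans_apply, Perm.ofSubtype_apply_coe, hκ]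
  refine ⟨σ, ?_, ?_, hσC⟩
  · -- transitivity
    have hpow : ∀ v k, (∀ i < k, (π ^ i) v ∈ T) → (σ ^ k) v = (π ^ k) v := by
      intro v k
      induction k with
      | zero => intro _; simp
      | succ k ih =>
        intro h
        rw [pow_succ', Perm.mul_apply, ih fun i hi => h i (by omega), pow_succ', Perm.mul_apply]
        exact hσT _ (h k (by omega))
    have h1 : ∀ v, σ.SameCycle v (E v) := by
      intro v
      refine ⟨(t v : ℤ), ?_⟩
      rw [zpow_natCast]
      exact hpow v (t v) (ht2 v)
    have h2 : ∀ c : {v // v ∉ T}, σ.SameCycle (c : V) (τ c : V) := by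
      intro c
      have e1 : (E (σ c) : V) = (τ c : V) := by
        rw [hσC]
        have : E (π (gE.symm (τ c))) = gE (gE.symm (τ c)) := rfl
        rw [this, Equiv.apply_symm_apply]
      have e2 := h1 (σ c)
      rw [e1] at e2
      exact (Perm.sameCycle_apply_left.1 e2)
    have h3 : ∀ (c : {v // v ∉ T}) (i : ℤ), σ.SameCycle (c : V) ((τ ^ i) c : V) := by
      intro c i
      induction i using Int.induction_on with
      | zero => simpa using Perm.SameCycle.refl σ (c : V)
      | succ i ih =>
        have := h2 ((τ ^ (i : ℤ)) c)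
        rw [← Perm.mul_apply, ← zpow_one_add, add_comm] at this
        exact ih.trans this
      | pred i ih =>
        have := h2 ((τ ^ (-(i : ℤ) - 1)) c)
        rw [← Perm.mul_apply, ← zpow_one_add, add_sub_cancel] at this
        exact ih.trans this.symm
    intro u v
    obtain ⟨i, hi⟩ := hτ (E u) (E v)
    have h4 := h3 (E u) i
    rw [hi] at h4
    exact ((h1 u).trans h4).trans (h1 v).symm
  · intro a ha
    rw [hσT _ (Finset.mem_image_of_mem _ ha), hπ a ha]

end Pool.Agent.Helper17.HC
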