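import Mathlib
import Pool.Agent.Helper17.HCDefs
import Pool.Agent.Helper17.HCLink
import Pool.Agent.Helper17.HCCount

set_option autoImplicit false

/-!
# A linear forest extends to a Hamilton cycle using random arcs
-/

namespace Pool.Agent.Helper17.HC

open Finset Equiv

lemma prob_eq_pr (n : ℕ) (p : ℝ) (E : Finset (Fin n × Fin n) → Prop) :
    prob n p E = pr p (arcs n) E := by
  classical
  unfold prob pr ex
  refine Finset.sum_congr rfl fun D _ => ?_
  by_cases h : E D <;> simp [h]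

lemma isHamCycle_of_trans {n : ℕ} (hn : 0 < n) {σ : Perm (Fin n)} (hσ : Trans σ) :
    IsHamCycle (univ.image fun u => (u, σ u)) := by
  classical
  set x0 : Fin n := ⟨0, hn⟩ with hx0
  have hcyc : σ.IsCycleOn ((univ : Finset (Fin n)) : Set (Fin n)) := by
    refine ⟨?_, fun x _ y _ => hσ x y⟩
    rw [Finset.coe_univ]
    exact Set.bijOn_univ.2 σ.bijective
  set f : Fin n → Fin n := fun i => (σ ^ (i : ℕ)) x0 with hf
  have hsurj : Function.Surjective f := by
    intro b
    obtain ⟨k, hk, hkb⟩ := hcyc.exists_pow_eq (Finset.mem_univ x0) (Finset.mem_univ b)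
    rw [Finset.card_univ, Fintype.card_fin] at hk
    exact ⟨⟨k, hk⟩, hkb⟩
  have hbij : Function.Bijective f := Finite.surjective_iff_bijective.1 hsurj
  have hrot : ∀ i : Fin n, f (finRotate n i) = σ (f i) := by
    obtain ⟨m, rfl⟩ : ∃ m, n = m + 1 := ⟨n - 1, by omega⟩
    intro i
    rcases Nat.lt_or_ge (i : ℕ) m with h | h
    · have h1 : finRotate (m + 1) i = ⟨(i : ℕ) + 1, by omega⟩ := by
        have := finRotate_of_lt (n := m) h
        simpa using this
      simp only [hf]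
      rw [h1, pow_succ', Perm.mul_apply]
    · have hi : i = Fin.last m := Fin.ext (by have := i.2; simp; omega)
      rw [hi, finRotate_last]
      simp only [hf]
      have h2 := hcyc.pow_card_apply (Finset.mem_univ x0)
      rw [Finset.card_univ, Fintype.card_fin, pow_succ', Perm.mul_apply] at h2
      simp only [Fin.val_last]
      rw [h2]
      simp
  refine ⟨Equiv.ofBijective f hbij, ?_⟩
  ext ⟨a, b⟩
  simp only [Finset.mem_image, Finset.mem_univ, true_and, Prod.mk.injEq]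
  constructor
  · rintro ⟨u, rfl, rfl⟩
    obtain ⟨i, hi⟩ := hsurj u
    exact ⟨i, hi, by rw [Equiv.ofBijective_apply, hrot, hi]⟩
  · rintro ⟨i, h1, h2⟩
    refine ⟨f i, h1, ?_⟩
    rw [← hrot]
    exact h2

/-- The linear forest `M` does not extend to a Hamilton cycle inside `M ∪ W`. -/
def Fails {n : ℕ} (M W : Finset (Fin n × Fin n)) : Prop :=
  ¬ ∃ H, IsHamCycle H ∧ M ⊆ H ∧ H ⊆ M ∪ W

/-- The components of the linear forest `M` (represented by their last vertices). -/
abbrev Comp {n : ℕ} (M : Finset (Fin n × Fin n)) : Type := {v // v ∉ M.image Prod.fst}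

theorem pr_fails {n m N : ℕ} {γ q : ℝ} (hn : 2 ≤ n) {M : Finset (Fin n × Fin n)} (hM : PInj M)
    (hW : NoWalk M) (hm : #M + m = n) (hm0 : 0 < m) (hγ0 : 0 ≤ γ) (hγ1 : γ ≤ 1)
    (h4 : 4 ≤ (m : ℝ) / 8 * γ) (hq : N * γ ≤ q) (hq1 : q ≤ 1) :
    pr q (arcs n) (Fails M) ≤ (1 / 2) ^ N * n := by
  classical
  have : NeZero m := ⟨hm0.ne'⟩
  obtain ⟨s, hs, hlink⟩ := link hM hW
  have hcardM : #(M.image Prod.fst) = #M := by
    refine Finset.card_image_of_injOn ?_
    rintro ⟨u, v⟩ h ⟨u', v'⟩ h' heq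
    simp only at heq
    subst heq
    rw [hM.1 u v v' h h']
  have hcardC : Fintype.card (Comp M) = m := by
    rw [Fintype.card_subtype_compl]
    simp only [Fintype.card_fin, Fintype.card_coe]
    omega
  set e : Comp M → Fin n := Subtype.val with he
  have heinj : Function.Injective e := Subtype.val_injective
  set F : (Comp M ≃ ZMod m) → Finset (Fin n × Fin n) := fun ρ => cyc e s ρ with hF
  have hspread : Spread F ((m : ℝ) / 8) := spread_cyc hcardC heinj hs
  have hσ : ∀ ρ : Comp M ≃ ZMod m, ∃ σ : Perm (Fin n), Trans σ ∧ (∀ a ∈ M, σ a.1 = a.2) ∧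
      ∀ c : Comp M, σ c = s (shift ρ c) := fun ρ => hlink (shift ρ) (sameCycle_shift ρ)
  have hne : ∀ (σ : Perm (Fin n)), Trans σ → ∀ u, σ u ≠ u := by
    intro σ hσ u hu
    have h1 : ∀ v, v = u := by
      intro v
      obtain ⟨i, hi⟩ := hσ u v
      rw [← hi]
      exact Function.IsFixedPt.perm_zpow hu i
    have h2 := h1 ⟨0, by omega⟩
    have h3 := h1 ⟨1, by omega⟩
    rw [← h3] at h2
    exact absurd (Fin.mk.inj h2) (by norm_num)
  have hFA : ∀ ρ, F ρ ⊆ arcs n := by
    intro ρ a ha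
    obtain ⟨σ, h1, h2, h3⟩ := hσ ρ
    obtain ⟨c, _, rfl⟩ := Finset.mem_image.1 ha
    refine Finset.mem_filter.2 ⟨Finset.mem_univ _, ?_⟩
    simp only
    rw [← h3]
    exact (hne σ h1 _).symm
  have h1γ : 0 ≤ 1 - γ := by linarith
  have hbern : 1 - (1 - γ) ^ N ≤ q := by
    have h1 := one_add_mul_le_pow (a := -γ) (by linarith) N
    have h2 : (1 + -γ) = 1 - γ := by ring
    rw [h2] at h1
    linarith
  have hb0 : 0 ≤ 1 - (1 - γ) ^ N := by
    have : (1 - γ) ^ N ≤ 1 := pow_le_one₀ h1γ (by linarith)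
    linarith
  have hb1 : 1 - (1 - γ) ^ N ≤ 1 := by
    have : 0 ≤ (1 - γ) ^ N := by positivity
    linarith
  have h1 : pr q (arcs n) (Fails M) ≤
      pr (1 - (1 - γ) ^ N) (arcs n) (fun W => ¬ ∃ ρ, F ρ ⊆ W) := by
    refine le_trans (pr_anti hb0 hbern hq1 (E := Fails M) ?_) (pr_mono hb0 hb1 ?_)
    · rintro W W' hWW' hf ⟨H, h1, h2, h3⟩
      exact hf ⟨H, h1, h2, h3.trans (Finset.union_subset_union (Finset.Subset.refl _) hWW')⟩
    · rintro W _ hf ⟨ρ, hρ⟩
      apply hf
      obtain ⟨σ, h1, h2, h3⟩ := hσ ρ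
      refine ⟨_, isHamCycle_of_trans (by omega) h1, ?_, ?_⟩
      · rintro ⟨u, v⟩ ha
        have := h2 _ ha
        simp only at this
        exact Finset.mem_image.2 ⟨u, Finset.mem_univ _, by rw [this]⟩
      · intro a ha
        obtain ⟨u, _, rfl⟩ := Finset.mem_image.1 ha
        by_cases hu : u ∈ M.image Prod.fst
        · obtain ⟨⟨u', v'⟩, hb, hbu⟩ := Finset.mem_image.1 hu
          simp only at hbu
          subst hbu
          have := h2 _ hb
          simp only at this
          rw [this]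
          exact Finset.mem_union_left _ hb
        · refine Finset.mem_union_right _ (hρ ?_)
          refine Finset.mem_image.2 ⟨⟨u, hu⟩, Finset.mem_univ _, ?_⟩
          rw [← h3]
  have h2 := spread_fail (ι := Comp M ≃ ZMod m) (by positivity) hγ0 hγ1 h4 N F hFA hspread
  have hcardι : (0 : ℝ) < Fintype.card (Comp M ≃ ZMod m) := by
    have h : Fintype.card (Comp M) = Fintype.card (ZMod m) := by rw [hcardC, ZMod.card]
    have : Nonempty (Comp M ≃ ZMod m) := ⟨Fintype.equivOfCardEq h⟩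
    exact_mod_cast Fintype.card_pos
  have h3 : ∑ ρ, (#(F ρ) : ℝ) ≤ Fintype.card (Comp M ≃ ZMod m) * n := by
    have h5 : ∀ ρ ∈ (univ : Finset (Comp M ≃ ZMod m)), (#(F ρ) : ℝ) ≤ n := by
      intro ρ _
      have h6 : #(F ρ) ≤ m := by
        refine Finset.card_image_le.trans ?_
        rw [Finset.card_univ, hcardC]
      have h7 : #(F ρ) ≤ n := by omega
      exact_mod_cast h7
    calc ∑ ρ, (#(F ρ) : ℝ) ≤ ∑ _ρ : (Comp M ≃ ZMod m), (n : ℝ) := Finset.sum_le_sum h5
      _ = Fintype.card (Comp M ≃ ZMod m) * n := by simp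
  have h5 : pr (1 - (1 - γ) ^ N) (arcs n) (fun W => ¬ ∃ ρ, F ρ ⊆ W) * Fintype.card (Comp M ≃ ZMod m) ≤
      ((1 / 2) ^ N * n) * Fintype.card (Comp M ≃ ZMod m) := by
    calc _ ≤ _ := h2
      _ ≤ (1 / 2) ^ N * (Fintype.card (Comp M ≃ ZMod m) * n) :=
          mul_le_mul_of_nonneg_left h3 (by positivity)
      _ = _ := by ring
  exact h1.trans (le_of_mul_le_mul_right h5 hcardι)

end Pool.Agent.Helper17.HC
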