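import Mathlib
import Pool.Agent.Helper17.HCHam

set_option autoImplicit false

/-!
# Covering a random digraph: the two-round argument
-/

set_option linter.unusedSectionVars false

namespace Pool.Agent.Helper17.HC

open Finset

/-- Residue class of a vertex. -/
def cls {n : ℕ} (L : ℕ) (v : Fin n) : ZMod L := ((v : ℕ) : ZMod L)

lemma card_cls_le {n L : ℕ} [hL : Fact L.Prime] (c : ZMod L) :
    #(univ.filter fun v : Fin n => cls L v = c) ≤ n / L + 1 := card_residue_le c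

lemma le_card_cls {n L : ℕ} [hL : Fact L.Prime] (c : ZMod L) :
    n / L ≤ #(univ.filter fun v : Fin n => cls L v = c) := by
  classical
  have h1 : #(univ.filter fun v : Fin n => cls L v = c) =
      #((Finset.range n).filter fun i => i ≡ c.val [MOD L]) := by
    refine Finset.card_bij (fun i _ => (i : ℕ)) ?_ ?_ ?_
    · intro i hi
      have := (Finset.mem_filter.1 hi).2
      refine Finset.mem_filter.2 ⟨Finset.mem_range.2 i.2, ?_⟩
      unfold cls at this
      rw [← ZMod.natCast_eq_natCast_iff, this, ZMod.natCast_zmod_val]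
    · intro i _ i' _ h
      exact Fin.ext h
    · intro i hi
      obtain ⟨h2, h3⟩ := Finset.mem_filter.1 hi
      refine ⟨⟨i, Finset.mem_range.1 h2⟩, ?_, rfl⟩
      simp only [Finset.mem_filter, Finset.mem_univ, true_and]
      rw [← ZMod.natCast_eq_natCast_iff, ZMod.natCast_zmod_val] at h3
      exact h3
  rw [h1, ← Nat.count_eq_card_filter_range, Nat.count_modEq_card n hL.out.pos]
  omega

/-- All degrees into and from the residue classes are at most `k`. -/
def Deg (n L k : ℕ) (D : Finset (Fin n × Fin n)) : Prop :=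
  ∀ (u : Fin n) (c : ZMod L), #(D.filter fun a => a.1 = u ∧ cls L a.2 = c) ≤ k ∧
    #(D.filter fun a => a.2 = u ∧ cls L a.1 = c) ≤ k

lemma pr_not_deg {n L k : ℕ} [hL : Fact L.Prime] {q η : ℝ} (hq0 : 0 ≤ q) (hq1 : q ≤ 1)
    (hη : 0 < η) (hk : (1 + η) * (q * ((n / L + 1 : ℕ) : ℝ)) ≤ k + 1) :
    pr q (arcs n) (fun D => ¬ Deg n L k D) ≤
      2 * n * L * Real.exp (-((1 + η) * Real.log (1 + η) - η) * (q * ((n / L + 1 : ℕ) : ℝ))) := by
  classical
  set S : Fin n × ZMod L × Bool → Finset (Fin n × Fin n) := fun x =>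
    if x.2.2 then univ.filter fun a => a.1 = x.1 ∧ cls L a.2 = x.2.1
    else univ.filter fun a => a.2 = x.1 ∧ cls L a.1 = x.2.1 with hS
  have hScard : ∀ x, #(S x) ≤ n / L + 1 := by
    rintro ⟨u, c, b⟩
    refine le_trans ?_ (card_cls_le (n := n) c)
    cases b
    · refine Finset.card_le_card_of_injOn (fun a => a.1) ?_ ?_
      · intro a ha
        simp only [hS, Finset.coe_filter, Bool.false_eq_true, if_false, Set.mem_setOf_eq,
          Finset.mem_univ, true_and] at ha ⊢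
        exact ha.2
      · rintro ⟨a, b⟩ ha ⟨a', b'⟩ ha' h
        simp only [hS, Finset.coe_filter, Bool.false_eq_true, if_false, Set.mem_setOf_eq,
          Finset.mem_univ, true_and] at ha ha' h
        rw [h, ha.1, ha'.1]
    · refine Finset.card_le_card_of_injOn (fun a => a.2) ?_ ?_
      · intro a ha
        simp only [hS, Finset.coe_filter, if_true, Set.mem_setOf_eq,
          Finset.mem_univ, true_and] at ha ⊢
        exact ha.2
      · rintro ⟨a, b⟩ ha ⟨a', b'⟩ ha' h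
        simp only [hS, Finset.coe_filter, if_true, Set.mem_setOf_eq,
          Finset.mem_univ, true_and] at ha ha' h
        rw [h, ha.1, ha'.1]
  have h1 : pr q (arcs n) (fun D => ¬ Deg n L k D) ≤
      pr q (arcs n) (fun D => ∃ x ∈ (univ : Finset (Fin n × ZMod L × Bool)),
        k < #(D ∩ S x)) := by
    refine pr_mono hq0 hq1 fun D _ hD => ?_
    unfold Deg at hD
    push Not at hD
    obtain ⟨u, c, hc⟩ := hD
    by_cases h2 : #(D.filter fun a => a.1 = u ∧ cls L a.2 = c) ≤ k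
    · refine ⟨(u, c, false), Finset.mem_univ _, ?_⟩
      have h3 := hc h2
      have h4 : D ∩ S (u, c, false) = D.filter fun a => a.2 = u ∧ cls L a.1 = c := by
        ext a; simp [hS]
      rw [h4]; exact h3
    · refine ⟨(u, c, true), Finset.mem_univ _, ?_⟩
      have h4 : D ∩ S (u, c, true) = D.filter fun a => a.1 = u ∧ cls L a.2 = c := by
        ext a; simp [hS]
      rw [h4]; omega
  refine h1.trans ((pr_exists_le hq0 hq1 univ fun x D => k < #(D ∩ S x)).trans ?_)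
  have h2 : ∀ x ∈ (univ : Finset (Fin n × ZMod L × Bool)),
      pr q (arcs n) (fun D => k < #(D ∩ S x)) ≤
      Real.exp (-((1 + η) * Real.log (1 + η) - η) * (q * ((n / L + 1 : ℕ) : ℝ))) := by
    intro x _
    exact pr_card_gt hq0 hq1 hη (arcs n) (S x) (by exact_mod_cast hScard x) k hk
  refine (Finset.sum_le_sum h2).trans ?_
  rw [Finset.sum_const, nsmul_eq_mul, Finset.card_univ, Fintype.card_prod, Fintype.card_prod,
    Fintype.card_fin, Fintype.card_bool, ZMod.card]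
  apply le_of_eq
  push_cast
  ring

/-- The forests covering a digraph. -/
lemma forest_family {n L k : ℕ} [hL : Fact L.Prime] {D : Finset (Fin n × Fin n)}
    (hD : D ⊆ arcs n) (hdeg : Deg n L k D) :
    ∃ 𝓕 : Finset (Finset (Fin n × Fin n)), #𝓕 ≤ (L + 7) * k + 4 * L ∧
      (∀ M ∈ 𝓕, M ⊆ D ∧ PInj M ∧ NoWalk M ∧ #M + n / L ≤ n) ∧
      ∀ a ∈ D, ∃ M ∈ 𝓕, a ∈ M := by
  classical
  obtain ⟨𝓕, h1, h2, h3⟩ := decomp (V := Fin n) (L := L) (k := k) (s := n / L) (cls L)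
    (fun c => le_card_cls c) D (fun a ha => (Finset.mem_filter.1 (hD ha)).2)
    (fun u c => by
      have := (hdeg u c).1
      convert this using 2)
    (fun u c => by
      have := (hdeg u c).2
      convert this using 2)
  refine ⟨𝓕, h1.trans ?_, fun M hM => ?_, h3⟩
  · have hLpos : 1 ≤ L := hL.out.pos
    have e1 : (L - 1) * (k / L + 1) ≤ k + L := by
      calc (L - 1) * (k / L + 1) ≤ L * (k / L + 1) := Nat.mul_le_mul_right _ (Nat.sub_le _ _)
        _ = L * (k / L) + L := by ring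
        _ ≤ k + L := Nat.add_le_add_right (Nat.mul_div_le k L) L
    have e2 : (L - 1) * k + k = L * k := by
      obtain ⟨l, rfl⟩ := Nat.exists_eq_add_of_le hLpos
      simp only [Nat.add_sub_cancel_left]; ring
    have e3 : (L + 7) * k = L * k + 7 * k := by ring
    rw [e3]
    omega
  · obtain ⟨g1, g2, g3, g4⟩ := h2 M hM
    rw [Fintype.card_fin] at g4
    exact ⟨g1, g2, g3, g4⟩

/-- The two-round argument. -/
theorem cover_fail {n L k1 k2 : ℕ} [hL : Fact L.Prime] {p1 p2 x β : ℝ} (h10 : 0 ≤ p1)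
    (h11 : p1 ≤ 1) (h20 : 0 ≤ p2) (h21 : p2 ≤ 1) (hβ : 0 ≤ β)
    (hx : ((((L + 7) * k1 + 4 * L) + ((L + 7) * k2 + 4 * L) : ℕ) : ℝ) ≤ x)
    (hf1 : ∀ M : Finset (Fin n × Fin n), PInj M → NoWalk M → #M + n / L ≤ n →
      pr p1 (arcs n) (Fails M) ≤ β)
    (hf2 : ∀ M : Finset (Fin n × Fin n), PInj M → NoWalk M → #M + n / L ≤ n →
      pr p2 (arcs n) (Fails M) ≤ β) :
    pr (1 - (1 - p1) * (1 - p2)) (arcs n) (fun D => ¬ CoveredBy D x) ≤
      pr p1 (arcs n) (fun D => ¬ Deg n L k1 D) + pr p2 (arcs n) (fun D => ¬ Deg n L k2 D) +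
        x * β := by
  classical
  have hfam : ∀ (k : ℕ) (W : Finset (Fin n × Fin n)), ∃ 𝓕 : Finset (Finset (Fin n × Fin n)),
      #𝓕 ≤ (L + 7) * k + 4 * L ∧
      (∀ M ∈ 𝓕, M ⊆ W ∧ PInj M ∧ NoWalk M ∧ #M + n / L ≤ n) ∧
      (W ⊆ arcs n → Deg n L k W → ∀ a ∈ W, ∃ M ∈ 𝓕, a ∈ M) := by
    intro k W
    by_cases h : W ⊆ arcs n ∧ Deg n L k W
    · obtain ⟨𝓕, g1, g2, g3⟩ := forest_family h.1 h.2
      exact ⟨𝓕, g1, g2, fun _ _ => g3⟩
    · exact ⟨∅, by simp, by simp, fun a b => absurd ⟨a, b⟩ h⟩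
  choose 𝓕 hF1 hF2 hF3 using hfam
  -- pointwise covering
  have hpoint : ∀ W1 W2 : Finset (Fin n × Fin n), W1 ⊆ arcs n → W2 ⊆ arcs n →
      Deg n L k1 W1 → Deg n L k2 W2 → (¬ ∃ M ∈ 𝓕 k1 W1, Fails M W2) →
      (¬ ∃ M ∈ 𝓕 k2 W2, Fails M W1) → CoveredBy (W1 ∪ W2) x := by
    intro W1 W2 hW1 hW2 hD1 hD2 hn1 hn2
    have g1 : ∀ M ∈ 𝓕 k1 W1, ∃ H, IsHamCycle H ∧ M ⊆ H ∧ H ⊆ M ∪ W2 := by
      intro M hM
      by_contra h
      exact hn1 ⟨M, hM, h⟩
    have g2 : ∀ M ∈ 𝓕 k2 W2, ∃ H, IsHamCycle H ∧ M ⊆ H ∧ H ⊆ M ∪ W1 := by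
      intro M hM
      by_contra h
      exact hn2 ⟨M, hM, h⟩
    choose! H1 q1 q2 q3 using g1
    choose! H2 r1 r2 r3 using g2
    refine ⟨(𝓕 k1 W1).image H1 ∪ (𝓕 k2 W2).image H2, ?_, ?_, ?_⟩
    · refine le_trans ?_ hx
      norm_cast
      refine (Finset.card_union_le _ _).trans ?_
      exact Nat.add_le_add (Finset.card_image_le.trans (hF1 k1 W1))
        (Finset.card_image_le.trans (hF1 k2 W2))
    · intro H hH
      rcases Finset.mem_union.1 hH with h | h
      · obtain ⟨M, hM, rfl⟩ := Finset.mem_image.1 h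
        exact ⟨q1 M hM, (q3 M hM).trans
          (Finset.union_subset_union (hF2 k1 W1 M hM).1 (Finset.Subset.refl _))⟩
      · obtain ⟨M, hM, rfl⟩ := Finset.mem_image.1 h
        refine ⟨r1 M hM, (r3 M hM).trans ?_⟩
        rw [Finset.union_comm]
        exact Finset.union_subset_union (Finset.Subset.refl _) (hF2 k2 W2 M hM).1
    · intro a ha
      rcases Finset.mem_union.1 ha with h | h
      · obtain ⟨M, hM, haM⟩ := hF3 k1 W1 hW1 hD1 a h
        exact ⟨H1 M, Finset.mem_union_left _ (Finset.mem_image_of_mem _ hM), q2 M hM haM⟩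
      · obtain ⟨M, hM, haM⟩ := hF3 k2 W2 hW2 hD2 a h
        exact ⟨H2 M, Finset.mem_union_right _ (Finset.mem_image_of_mem _ hM), r2 M hM haM⟩
  -- the four events
  set I : Prop → ℝ := fun P => if P then 1 else 0 with hI
  have hI0 : ∀ P, 0 ≤ I P := fun P => by simp only [hI]; split_ifs <;> norm_num
  have hI1 : ∀ P, I P ≤ 1 := fun P => by simp only [hI]; split_ifs <;> norm_num
  have hIt : ∀ P, P → I P = 1 := fun P hP => by simp [hI, hP]
  have hle : pr (1 - (1 - p1) * (1 - p2)) (arcs n) (fun D => ¬ CoveredBy D x) ≤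
      ex p1 (arcs n) (fun W1 => ex p2 (arcs n) (fun W2 =>
        ((I (¬ Deg n L k1 W1) + I (¬ Deg n L k2 W2)) + I (∃ M ∈ 𝓕 k1 W1, Fails M W2)) +
          I (∃ M ∈ 𝓕 k2 W2, Fails M W1))) := by
    unfold pr
    rw [← ex_union]
    refine ex_mono h10 h11 fun W1 hW1 => ex_mono h20 h21 fun W2 hW2 => ?_
    have a1 := hI0 (¬ Deg n L k1 W1)
    have a2 := hI0 (¬ Deg n L k2 W2)
    have a3 := hI0 (∃ M ∈ 𝓕 k1 W1, Fails M W2)
    have a4 := hI0 (∃ M ∈ 𝓕 k2 W2, Fails M W1)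
    by_cases hD1 : Deg n L k1 W1
    · by_cases hD2 : Deg n L k2 W2
      · by_cases hn1 : ∃ M ∈ 𝓕 k1 W1, Fails M W2
        · have := hIt _ hn1
          split_ifs <;> linarith
        · by_cases hn2 : ∃ M ∈ 𝓕 k2 W2, Fails M W1
          · have := hIt _ hn2
            split_ifs <;> linarith
          · have := hpoint W1 W2 hW1 hW2 hD1 hD2 hn1 hn2
            rw [if_neg (not_not.2 this)]
            linarith
      · have := hIt _ hD2
        split_ifs <;> linarith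
    · have := hIt _ hD1
      split_ifs <;> linarith
  have e1 : ∀ W1, W1 ⊆ arcs n → ex p2 (arcs n) (fun W2 =>
        ((I (¬ Deg n L k1 W1) + I (¬ Deg n L k2 W2)) + I (∃ M ∈ 𝓕 k1 W1, Fails M W2)) +
          I (∃ M ∈ 𝓕 k2 W2, Fails M W1)) ≤
      ((I (¬ Deg n L k1 W1) + pr p2 (arcs n) (fun D => ¬ Deg n L k2 D)) +
        (((L + 7) * k1 + 4 * L : ℕ) : ℝ) * β) +
        ex p2 (arcs n) (fun W2 => I (∃ M ∈ 𝓕 k2 W2, Fails M W1)) := by
    intro W1 hW1
    rw [ex_add, ex_add, ex_add, ex_const]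
    have h1 : ex p2 (arcs n) (fun W2 => I (∃ M ∈ 𝓕 k1 W1, Fails M W2)) ≤
        (((L + 7) * k1 + 4 * L : ℕ) : ℝ) * β := by
      have h2 := pr_exists_le h20 h21 (A := arcs n) (𝓕 k1 W1) fun M W => Fails M W
      have h3 : ∑ M ∈ 𝓕 k1 W1, pr p2 (arcs n) (Fails M) ≤ ∑ _M ∈ 𝓕 k1 W1, β :=
        Finset.sum_le_sum fun M hM => by
          obtain ⟨_, g2, g3, g4⟩ := hF2 k1 W1 M hM
          exact hf2 M g2 g3 g4
      rw [Finset.sum_const, nsmul_eq_mul] at h3
      refine (h2.trans h3).trans (mul_le_mul_of_nonneg_right ?_ hβ)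
      exact_mod_cast hF1 k1 W1
    have h4 : ex p2 (arcs n) (fun W2 => I (¬ Deg n L k2 W2)) =
        pr p2 (arcs n) (fun D => ¬ Deg n L k2 D) := rfl
    rw [h4]
    linarith
  have e2 : ex p1 (arcs n) (fun W1 => ex p2 (arcs n)
      (fun W2 => I (∃ M ∈ 𝓕 k2 W2, Fails M W1))) ≤
      (((L + 7) * k2 + 4 * L : ℕ) : ℝ) * β := by
    rw [ex_comm]
    have h1 : ∀ W2, W2 ⊆ arcs n → ex p1 (arcs n) (fun W1 => I (∃ M ∈ 𝓕 k2 W2, Fails M W1)) ≤
        (((L + 7) * k2 + 4 * L : ℕ) : ℝ) * β := by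
      intro W2 _
      have h2 := pr_exists_le h10 h11 (A := arcs n) (𝓕 k2 W2) fun M W => Fails M W
      have h3 : ∑ M ∈ 𝓕 k2 W2, pr p1 (arcs n) (Fails M) ≤ ∑ _M ∈ 𝓕 k2 W2, β :=
        Finset.sum_le_sum fun M hM => by
          obtain ⟨_, g2, g3, g4⟩ := hF2 k2 W2 M hM
          exact hf1 M g2 g3 g4
      rw [Finset.sum_const, nsmul_eq_mul] at h3
      refine (h2.trans h3).trans (mul_le_mul_of_nonneg_right ?_ hβ)
      exact_mod_cast hF1 k2 W2
    have h5 := ex_mono h20 h21 h1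
    rwa [ex_const] at h5
  refine hle.trans ((ex_mono h10 h11 e1).trans ?_)
  rw [ex_add, ex_add, ex_add, ex_const, ex_const]
  have h4 : ex p1 (arcs n) (fun W1 => I (¬ Deg n L k1 W1)) =
      pr p1 (arcs n) (fun D => ¬ Deg n L k1 D) := rfl
  rw [h4]
  have h5 : (((L + 7) * k1 + 4 * L : ℕ) : ℝ) * β + (((L + 7) * k2 + 4 * L : ℕ) : ℝ) * β ≤
      x * β := by
    rw [← add_mul]
    refine mul_le_mul_of_nonneg_right ?_ hβ
    refine le_trans ?_ hx
    push_cast
    linarith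
  linarith

end Pool.Agent.Helper17.HC
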