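import Mathlib
import Pool.Agent.Helper17.HCCover

set_option autoImplicit false

/-!
# Covering a random digraph by Hamilton cycles: the uniform finite statement
-/

namespace Pool.Agent.Helper17.HC

open Finset

/-- The exponent in the Chernoff bound is positive. -/
lemma chernoff_pos {η : ℝ} (hη : 0 < η) : 0 < (1 + η) * Real.log (1 + η) - η := by
  have h1 : 0 < 1 + η := by linarith
  have h2 : (1 + η)⁻¹ ≠ 1 := by
    intro h
    rw [inv_eq_one] at h
    linarith
  have h3 := Real.log_lt_sub_one_of_pos (inv_pos.2 h1) h2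
  rw [Real.log_inv] at h3
  have h4 : (1 + η) * (-Real.log (1 + η)) < (1 + η) * ((1 + η)⁻¹ - 1) :=
    mul_lt_mul_of_pos_left h3 h1
  have h5 : (1 + η) * ((1 + η)⁻¹ - 1) = -η := by field_simp; ring
  rw [h5] at h4
  linarith

lemma poly_bound {η : ℝ} (hη0 : 0 ≤ η) (hη1 : η ≤ 1 / 20) : (1 + η) ^ 4 + η ≤ 1 + 20 * η := by
  have h6 : η ^ 2 ≤ η / 20 := by
    have := mul_le_mul_of_nonneg_left hη1 hη0
    calc η ^ 2 = η * η := by ring
      _ ≤ η * (1 / 20) := this
      _ = η / 20 := by ring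
  have h7 : η ^ 3 ≤ η / 20 := by
    have := mul_le_mul_of_nonneg_left h6 hη0
    calc η ^ 3 = η * η ^ 2 := by ring
      _ ≤ η * (η / 20) := this
      _ = η ^ 2 / 20 := by ring
      _ ≤ η / 20 := by linarith
  have h8 : η ^ 4 ≤ η / 20 := by
    have := mul_le_mul_of_nonneg_left h7 hη0
    calc η ^ 4 = η * η ^ 3 := by ring
      _ ≤ η * (η / 20) := this
      _ = η ^ 2 / 20 := by ring
      _ ≤ η / 20 := by linarith
  have h9 : (1 + η) ^ 4 = 1 + 4 * η + 6 * η ^ 2 + 4 * η ^ 3 + η ^ 4 := by ring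
  rw [h9]
  linarith

lemma six_bound {x : ℝ} (hx : 6 ≤ x) : 2 / x ^ 2 + 2 / x ^ 2 + 2 / x ^ 2 ≤ 1 / x := by
  have hx0 : 0 < x := by linarith
  have h1 : 2 / x ^ 2 + 2 / x ^ 2 + 2 / x ^ 2 = 6 / x ^ 2 := by ring
  rw [h1, div_le_div_iff₀ (by positivity) hx0]
  nlinarith

/-- `2 ^ (-⌈6 log n⌉) ≤ n ^ (-4)`. -/
lemma half_pow_le {n N : ℕ} (hn : 1 ≤ n) (hN : 6 * Real.log n ≤ N) :
    (1 / 2 : ℝ) ^ N ≤ 1 / (n : ℝ) ^ 4 := by
  have hn0 : (0 : ℝ) < n := by exact_mod_cast hn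
  have hlog : 0 ≤ Real.log n := Real.log_nonneg (by exact_mod_cast hn)
  have h2 := Real.log_two_gt_d9
  have e1 : (1 / 2 : ℝ) ^ N = Real.exp (-(N * Real.log 2)) := by
    rw [Real.exp_neg, Real.exp_nat_mul, Real.exp_log (by norm_num), one_div, inv_pow]
  have e2 : 1 / (n : ℝ) ^ 4 = Real.exp (-(4 * Real.log n)) := by
    rw [Real.exp_neg, one_div]
    congr 1
    have : (4 : ℝ) = ((4 : ℕ) : ℝ) := by norm_num
    rw [this, Real.exp_nat_mul, Real.exp_log hn0]
  rw [e1, e2]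
  apply Real.exp_le_exp.2
  nlinarith

/-- Failure probability of one linear forest, with explicit parameters. -/
lemma fails_le {n L : ℕ} (hL : 0 < L) (hn : 64 * L ≤ n) (hn3 : 3 ≤ n) {q : ℝ} (hq1 : q ≤ 1)
    (hq : 448 * L * Real.log n ≤ n * q)
    (M : Finset (Fin n × Fin n)) (hM : PInj M) (hW : NoWalk M) (hc : #M + n / L ≤ n) :
    pr q (arcs n) (Fails M) ≤ 1 / (n : ℝ) ^ 3 := by
  have hn0 : (0 : ℝ) < n := by
    have : 0 < n := by omega
    exact_mod_cast this
  have hL0 : (0 : ℝ) < L := by exact_mod_cast hL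
  have hLn : 64 * (L : ℝ) ≤ n := by exact_mod_cast hn
  have hlog1 : 1 ≤ Real.log n := by
    rw [Real.le_log_iff_exp_le hn0]
    have h1 := Real.exp_one_lt_d9
    have h2 : (3 : ℝ) ≤ n := by exact_mod_cast hn3
    linarith
  obtain ⟨m, hm⟩ := Nat.exists_eq_add_of_le ((Nat.le_add_right _ _).trans hc)
  have hmge : n / L ≤ m := by omega
  -- `n / (2 L) ≤ m`
  have h1 : n < L * (n / L + 1) := Nat.lt_mul_div_succ n hL
  have h2 : (n : ℝ) ≤ L * (m + 1) := by
    have h3 : n ≤ L * (m + 1) := h1.le.trans (Nat.mul_le_mul_left L (by omega))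
    exact_mod_cast h3
  have h3 : (n : ℝ) ≤ 2 * L * m := by nlinarith
  have hmpos : 0 < m := by
    have h4 : 1 ≤ n / L := by
      rw [Nat.one_le_div_iff hL]; omega
    omega
  set γ : ℝ := 64 * L / n with hγ
  have hγ0 : 0 ≤ γ := by positivity
  have hγ1 : γ ≤ 1 := by
    rw [hγ, div_le_one hn0]; exact hLn
  have h4 : 4 ≤ (m : ℝ) / 8 * γ := by
    rw [hγ, div_mul_div_comm, le_div_iff₀ (by positivity)]
    nlinarith
  set N : ℕ := ⌈6 * Real.log n⌉₊ with hN
  have hN1 : 6 * Real.log n ≤ N := Nat.le_ceil _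
  have hN2 : (N : ℝ) ≤ 7 * Real.log n := by
    have := (Nat.ceil_lt_add_one (show 0 ≤ 6 * Real.log n by positivity)).le
    linarith
  have hq' : N * γ ≤ q := by
    have h5 : N * γ ≤ 7 * Real.log n * γ := mul_le_mul_of_nonneg_right hN2 hγ0
    have h6 : 7 * Real.log n * γ ≤ q := by
      rw [hγ, mul_div_assoc', div_le_iff₀ hn0]
      nlinarith
    exact h5.trans h6
  have h7 := pr_fails (N := N) (γ := γ) (q := q) (by omega) hM hW hm.symm hmpos hγ0 hγ1 h4 hq' hq1
  refine h7.trans ?_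
  have h8 := half_pow_le (n := n) (by omega) hN1
  calc (1 / 2 : ℝ) ^ N * n ≤ 1 / (n : ℝ) ^ 4 * n := mul_le_mul_of_nonneg_right h8 hn0.le
    _ = 1 / (n : ℝ) ^ 3 := by field_simp

/-- Probability that some degree is large, with explicit parameters. -/
lemma not_deg_le {n L : ℕ} [hL : Fact L.Prime] (hn : L ≤ n) {q η : ℝ} (hq0 : 0 ≤ q)
    (hq1 : q ≤ 1) (hη : 0 < η)
    (hq : 4 * L / ((1 + η) * Real.log (1 + η) - η) * Real.log n ≤ n * q) :
    pr q (arcs n) (fun D => ¬ Deg n L ⌊(1 + η) * (q * ((n / L + 1 : ℕ) : ℝ))⌋₊ D) ≤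
      2 / (n : ℝ) ^ 2 := by
  have hc := chernoff_pos hη
  set c : ℝ := (1 + η) * Real.log (1 + η) - η with hcdef
  have hLpos : 0 < L := hL.out.pos
  have hL0 : (0 : ℝ) < L := by exact_mod_cast hLpos
  have hn1 : 0 < n := lt_of_lt_of_le hLpos hn
  have hn0 : (0 : ℝ) < n := by exact_mod_cast hn1
  have hLn : (L : ℝ) ≤ n := by exact_mod_cast hn
  refine (pr_not_deg hq0 hq1 hη (Nat.lt_floor_add_one _).le).trans ?_
  have h1 : n < L * (n / L + 1) := Nat.lt_mul_div_succ n hLpos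
  have h2 : (n : ℝ) / L ≤ ((n / L + 1 : ℕ) : ℝ) := by
    rw [div_le_iff₀ hL0]
    have : (n : ℝ) ≤ ((L * (n / L + 1) : ℕ) : ℝ) := by exact_mod_cast h1.le
    calc (n : ℝ) ≤ ((L * (n / L + 1) : ℕ) : ℝ) := this
      _ = ((n / L + 1 : ℕ) : ℝ) * L := by push_cast; ring
  have h3 : 4 * Real.log n ≤ c * (q * ((n / L + 1 : ℕ) : ℝ)) := by
    have h4 : 4 * Real.log n ≤ c * (q * ((n : ℝ) / L)) := by
      have h5 : 4 * L / c * Real.log n * (c / L) ≤ n * q * (c / L) :=
        mul_le_mul_of_nonneg_right hq (by positivity)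
      have h6 : 4 * L / c * Real.log n * (c / L) = 4 * Real.log n := by field_simp
      have h7 : n * q * (c / L) = c * (q * ((n : ℝ) / L)) := by ring
      rw [h6, h7] at h5
      exact h5
    refine h4.trans ?_
    exact mul_le_mul_of_nonneg_left (mul_le_mul_of_nonneg_left h2 hq0) hc.le
  have h5 : Real.exp (-c * (q * ((n / L + 1 : ℕ) : ℝ))) ≤ 1 / (n : ℝ) ^ 4 := by
    have e2 : 1 / (n : ℝ) ^ 4 = Real.exp (-(4 * Real.log n)) := by
      rw [Real.exp_neg, one_div]
      congr 1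
      have : (4 : ℝ) = ((4 : ℕ) : ℝ) := by norm_num
      rw [this, Real.exp_nat_mul, Real.exp_log hn0]
    rw [e2]
    apply Real.exp_le_exp.2
    linarith
  calc 2 * (n : ℝ) * L * Real.exp (-c * (q * ((n / L + 1 : ℕ) : ℝ)))
      ≤ 2 * (n : ℝ) * n * (1 / (n : ℝ) ^ 4) := by
        refine mul_le_mul ?_ h5 (Real.exp_pos _).le (by positivity)
        exact mul_le_mul_of_nonneg_left hLn (by positivity)
    _ = 2 / (n : ℝ) ^ 2 := by field_simp

/-- **Uniform finite version.** For every `ε > 0` there are `K` and `n₀` such that for all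
`n ≥ n₀` and all `p ≤ 1` with `n p ≥ K log n`, the random digraph `D_{n,p}` is covered by at most
`(1 + ε) n p` Hamilton cycles with probability at least `1 - 1 / n`. -/
theorem main_fin {ε : ℝ} (hε0 : 0 < ε) (hε1 : ε ≤ 1) : ∃ (K : ℝ) (n₀ : ℕ), ∀ n ≥ n₀, ∀ p : ℝ,
    p ≤ 1 → K * Real.log n ≤ n * p →
    pr p (arcs n) (fun D => ¬ CoveredBy D ((1 + ε) * (n * p))) ≤ 1 / n := by
  set η : ℝ := ε / 20 with hη
  have hη0 : 0 < η := by positivity
  have hη1 : η ≤ 1 / 20 := by rw [hη]; linarith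
  have hc := chernoff_pos hη0
  set c : ℝ := (1 + η) * Real.log (1 + η) - η with hcdef
  obtain ⟨L, hLge, hLprime⟩ := Nat.exists_infinite_primes (⌈7 / η⌉₊)
  have hLfact : Fact L.Prime := ⟨hLprime⟩
  have hLpos : 0 < L := hLprime.pos
  have hL0 : (0 : ℝ) < L := by exact_mod_cast hLpos
  have hL7 : 7 / η ≤ L := (Nat.le_ceil _).trans (by exact_mod_cast hLge)
  have hL7' : 7 ≤ η * L := by
    rw [div_le_iff₀ hη0] at hL7; linarith
  set K1 : ℝ := 448 * L / η with hK1
  set K2 : ℝ := 4 * L / c / η with hK2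
  have hK10 : 0 < K1 := by positivity
  have hK20 : 0 < K2 := by positivity
  refine ⟨K1 + K2, max (64 * L) (max 6 ⌈L / η⌉₊), ?_⟩
  intro n hn p hp1 hp
  have hn64 : 64 * L ≤ n := (le_max_left _ _).trans hn
  have hn6 : 6 ≤ n := ((le_max_left _ _).trans (le_max_right _ _)).trans hn
  have hnL : ⌈L / η⌉₊ ≤ n := ((le_max_right _ _).trans (le_max_right _ _)).trans hn
  have hn0 : (0 : ℝ) < n := by
    have : 0 < n := by omega
    exact_mod_cast this
  have hn6R : (6 : ℝ) ≤ n := by exact_mod_cast hn6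
  have hLηn : (L : ℝ) ≤ η * n := by
    have h1 : (L : ℝ) / η ≤ n := (Nat.le_ceil _).trans (by exact_mod_cast hnL)
    rw [div_le_iff₀ hη0] at h1
    linarith
  have hlog1 : 1 ≤ Real.log n := by
    rw [Real.le_log_iff_exp_le hn0]
    have h1 := Real.exp_one_lt_d9
    linarith
  have hlog0 : 0 ≤ Real.log n := by linarith
  have hp1' : K1 * Real.log n ≤ n * p := by
    have := mul_nonneg hK20.le hlog0
    linarith
  have hp2' : K2 * Real.log n ≤ n * p := by
    have := mul_nonneg hK10.le hlog0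
    linarith
  have hnp0 : 0 < n * p := lt_of_lt_of_le (by positivity) hp1'
  have hp0 : 0 < p := by
    by_contra h
    push Not at h
    have : n * p ≤ 0 := mul_nonpos_of_nonneg_of_nonpos hn0.le h
    linarith
  -- the two rounds
  set p2 : ℝ := η * p with hp2
  have hp20 : 0 < p2 := by positivity
  have hp2lt : p2 ≤ 1 / 20 := by
    rw [hp2]; nlinarith
  have hp21 : p2 ≤ 1 := by linarith
  set p1 : ℝ := (p - p2) / (1 - p2) with hp1def
  have h1p2 : 0 < 1 - p2 := by linarith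
  have hp11 : p1 ≤ p := by
    rw [hp1def, div_le_iff₀ h1p2]
    nlinarith
  have hp1one : p1 ≤ 1 := hp11.trans hp1
  have hp1ge : η * p ≤ p1 := by
    rw [hp1def, le_div_iff₀ h1p2]
    have h1 : p2 = η * p := hp2
    nlinarith [mul_pos hη0 hp0, mul_nonneg (mul_pos hη0 hp0).le hp20.le]
  have hp10 : 0 ≤ p1 := (by positivity : 0 ≤ η * p).trans hp1ge
  have hunion : p = 1 - (1 - p1) * (1 - p2) := by
    have : (1 - p1) * (1 - p2) = 1 - p := by
      rw [hp1def]; field_simp; ring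
    rw [this]; ring
  have hsum : p1 + p2 ≤ (1 + η) * p := by
    rw [hp2]; linarith
  -- the numbers of forests
  set s : ℝ := ((n / L + 1 : ℕ) : ℝ) with hs
  have hsle : L * s ≤ (1 + η) * n := by
    have h1 : L * (n / L) ≤ n := Nat.mul_div_le n L
    have h2 : (L : ℝ) * ((n / L : ℕ) : ℝ) ≤ n := by exact_mod_cast h1
    rw [hs]; push_cast
    rw [mul_add, mul_one]
    linarith
  have hs0 : 0 ≤ s := Nat.cast_nonneg _
  set k1 : ℕ := ⌊(1 + η) * (p1 * s)⌋₊ with hk1
  set k2 : ℕ := ⌊(1 + η) * (p2 * s)⌋₊ with hk2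
  have hk1le : (k1 : ℝ) ≤ (1 + η) * (p1 * s) := Nat.floor_le (by positivity)
  have hk2le : (k2 : ℝ) ≤ (1 + η) * (p2 * s) := Nat.floor_le (by positivity)
  have hL7s : (L + 7 : ℝ) ≤ (1 + η) * L := by linarith
  have hx : ((((L + 7) * k1 + 4 * L) + ((L + 7) * k2 + 4 * L) : ℕ) : ℝ) ≤
      (1 + ε) * (n * p) := by
    push_cast
    have h8L : 8 * (L : ℝ) ≤ η * (n * p) := by
      have h1 : 8 * (L : ℝ) ≤ η * (K1 * Real.log n) := by
        have h2 : η * K1 = 448 * L := by rw [hK1]; field_simp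
        calc 8 * (L : ℝ) ≤ 448 * L * 1 := by linarith
          _ ≤ 448 * L * Real.log n := mul_le_mul_of_nonneg_left hlog1 (by positivity)
          _ = η * (K1 * Real.log n) := by rw [← mul_assoc, h2]
      exact h1.trans (mul_le_mul_of_nonneg_left hp1' hη0.le)
    have hksum : (k1 : ℝ) + k2 ≤ (1 + η) * (((1 + η) * p) * s) := by
      calc (k1 : ℝ) + k2 ≤ (1 + η) * (p1 * s) + (1 + η) * (p2 * s) := add_le_add hk1le hk2le
        _ = (1 + η) * ((p1 + p2) * s) := by ring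
        _ ≤ _ := by
          refine mul_le_mul_of_nonneg_left ?_ (by linarith)
          exact mul_le_mul_of_nonneg_right hsum hs0
    have h3 : ((L : ℝ) + 7) * (k1 + k2) ≤ (1 + η) ^ 4 * (n * p) := by
      calc ((L : ℝ) + 7) * (k1 + k2) ≤ ((1 + η) * L) * ((1 + η) * (((1 + η) * p) * s)) := by
            refine mul_le_mul hL7s hksum (by positivity) (by positivity)
        _ = (1 + η) ^ 3 * p * (L * s) := by ring
        _ ≤ (1 + η) ^ 3 * p * ((1 + η) * n) :=
            mul_le_mul_of_nonneg_left hsle (by positivity)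
        _ = (1 + η) ^ 4 * (n * p) := by ring
    have h4 : (1 + η) ^ 4 + η ≤ 1 + ε := by
      have h5 : ε = 20 * η := by rw [hη]; ring
      rw [h5]
      exact poly_bound hη0.le hη1
    calc ((L : ℝ) + 7) * k1 + 4 * L + (((L : ℝ) + 7) * k2 + 4 * L)
        = ((L : ℝ) + 7) * (k1 + k2) + 8 * L := by ring
      _ ≤ (1 + η) ^ 4 * (n * p) + η * (n * p) := add_le_add h3 h8L
      _ = ((1 + η) ^ 4 + η) * (n * p) := by ring
      _ ≤ (1 + ε) * (n * p) := mul_le_mul_of_nonneg_right h4 hnp0.le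
  -- failure probabilities
  have hq1 : K1 * Real.log n * η ≤ n * (η * p) := by
    have := mul_le_mul_of_nonneg_right hp1' hη0.le
    linarith
  have hq1' : 448 * L * Real.log n ≤ n * (η * p) := by
    have : K1 * Real.log n * η = 448 * L * Real.log n := by rw [hK1]; field_simp
    linarith
  have hq2 : K2 * Real.log n * η ≤ n * (η * p) := by
    have := mul_le_mul_of_nonneg_right hp2' hη0.le
    linarith
  have hq2' : 4 * L / c * Real.log n ≤ n * (η * p) := by
    have : K2 * Real.log n * η = 4 * L / c * Real.log n := by rw [hK2]; field_simp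
    linarith
  have hmono : n * (η * p) ≤ n * p1 := mul_le_mul_of_nonneg_left hp1ge hn0.le
  have hf1 : ∀ M : Finset (Fin n × Fin n), PInj M → NoWalk M → #M + n / L ≤ n →
      pr p1 (arcs n) (Fails M) ≤ 1 / (n : ℝ) ^ 3 := fun M hM hW hc =>
    fails_le hLpos hn64 (by omega) hp1one (hq1'.trans hmono) M hM hW hc
  have hf2 : ∀ M : Finset (Fin n × Fin n), PInj M → NoWalk M → #M + n / L ≤ n →
      pr p2 (arcs n) (Fails M) ≤ 1 / (n : ℝ) ^ 3 := fun M hM hW hc =>
    fails_le hLpos hn64 (by omega) hp21 hq1' M hM hW hc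
  have hLn : L ≤ n := by omega
  have hd1 := not_deg_le (n := n) (L := L) hLn hp10 hp1one hη0 (hq2'.trans hmono)
  have hd2 := not_deg_le (n := n) (L := L) hLn hp20.le hp21 hη0 hq2'
  have hmain := cover_fail (n := n) (L := L) (k1 := k1) (k2 := k2) hp10 hp1one hp20.le hp21
    (by positivity : (0 : ℝ) ≤ 1 / (n : ℝ) ^ 3) hx hf1 hf2
  rw [← hunion] at hmain
  refine hmain.trans ?_
  have hxβ : (1 + ε) * (n * p) * (1 / (n : ℝ) ^ 3) ≤ 2 / (n : ℝ) ^ 2 := by
    have h1 : (1 + ε) * (n * p) ≤ 2 * n := by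
      have h2 : n * p ≤ n * 1 := mul_le_mul_of_nonneg_left hp1 hn0.le
      calc (1 + ε) * (n * p) ≤ 2 * (n * 1) :=
            mul_le_mul (by linarith) h2 hnp0.le (by norm_num)
        _ = 2 * n := by ring
    calc (1 + ε) * (n * p) * (1 / (n : ℝ) ^ 3) ≤ 2 * n * (1 / (n : ℝ) ^ 3) :=
          mul_le_mul_of_nonneg_right h1 (by positivity)
      _ = 2 / (n : ℝ) ^ 2 := by field_simp
  have hfinal := six_bound hn6R
  linarith

end Pool.Agent.Helper17.HC
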