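import Mathlib

set_option autoImplicit false

namespace Pool.Agent.Helper17.SRD

open Finset

/-! ## Definitions used in the statement -/

/-- A coherent configuration on a finite set `V`, given as the partition of `V × V` into the
classes of a setoid `s` (the basis relations): the diagonal is a union of basis relations, the
transpose of a basis relation is a basis relation, and for any two basis relations (the classes
of `a` and `b`) the number of `z` with `(x, z)` in the first and `(z, y)` in the second is the
same for all `(x, y)` in a basis relation. -/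
structure IsCoherent {V : Type} [Fintype V] (s : Setoid (V × V)) : Prop where
  diag : ∀ p q : V × V, s p q → p.1 = p.2 → q.1 = q.2
  transpose : ∀ p q : V × V, s p q → s p.swap q.swap
  inter : ∀ a b p q : V × V, s p q →
    Nat.card {z : V // s (p.1, z) a ∧ s (z, p.2) b} =
      Nat.card {z : V // s (q.1, z) a ∧ s (z, q.2) b}

/-- The edge set of `Γ` (as a symmetric relation) is a union of classes of `s`. -/
def EdgesUnion {V : Type} (Γ : SimpleGraph V) (s : Setoid (V × V)) : Prop :=
  ∀ p q : V × V, s p q → Γ.Adj p.1 p.2 → Γ.Adj q.1 q.2

/-- `s` is the coherent closure of `Γ`: the coarsest coherent configuration in which the edge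
set is a union of basis relations. -/
structure IsCoherentClosure {V : Type} [Fintype V] (Γ : SimpleGraph V) (s : Setoid (V × V)) :
    Prop where
  coherent : IsCoherent s
  edges : EdgesUnion Γ s
  coarsest : ∀ t : Setoid (V × V), IsCoherent t → EdgesUnion Γ t → t ≤ s

/-- `X` is a fibre: the diagonal of `X` is a basis relation. -/
def IsFibre {V : Type} (s : Setoid (V × V)) (X : Set V) : Prop :=
  {p : V × V | p.1 = p.2 ∧ p.1 ∈ X} ∈ s.classes

/-- The number of basis relations contained in `X × Y`. -/
noncomputable def numRel {V : Type} (s : Setoid (V × V)) (X Y : Set V) : ℕ :=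
  {C : Set (V × V) | C ∈ s.classes ∧ C ⊆ X ×ˢ Y}.ncard

/-- `s` has type `[3 2; 3]`: exactly two fibres, each carrying three basis relations, and exactly
two basis relations between them (a strongly regular design). -/
def HasTypeSRD {V : Type} (s : Setoid (V × V)) : Prop :=
  ∃ X₁ X₂ : Set V, X₁ ≠ X₂ ∧ {X : Set V | IsFibre s X} = {X₁, X₂} ∧
    numRel s X₁ X₁ = 3 ∧ numRel s X₂ X₂ = 3 ∧ numRel s X₁ X₂ = 2

/-- `Γ` is a connected graph whose adjacency matrix has exactly three distinct eigenvalues. -/
def IsG3 {V : Type} [Fintype V] [DecidableEq V] (Γ : SimpleGraph V) [DecidableRel Γ.Adj] : Prop :=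
  Γ.Connected ∧
    {μ : ℝ | Module.End.HasEigenvalue (Matrix.toLin' (Γ.adjMatrix ℝ)) μ}.ncard = 3

/-- Sanity check: the coherent closure is unique. -/
lemma IsCoherentClosure.unique {V : Type} [Fintype V] {Γ : SimpleGraph V}
    {s t : Setoid (V × V)} (hs : IsCoherentClosure Γ s) (ht : IsCoherentClosure Γ t) : s = t :=
  le_antisymm (ht.coarsest s hs.coherent hs.edges) (hs.coarsest t ht.coherent ht.edges)

end Pool.Agent.Helper17.SRD
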