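import Mathlib

set_option autoImplicit false

/-!
# Definitions: transversal matroids, Tutte polynomial, Tutte uniqueness
-/

namespace Pool.Agent.Helper17.Trans

/-- The Tutte polynomial of a matroid `M` with finite ground set `E`,
`∑_{A ⊆ E} (x - 1)^(r(E) - r(A)) (y - 1)^(|A| - r(A))`, with `x = X 0` and `y = X 1`. -/
noncomputable def tutte {α : Type} (M : Matroid α) [M.Finite] : MvPolynomial (Fin 2) ℤ :=
  ∑ A ∈ M.ground_finite.toFinset.powerset,
    (MvPolynomial.X 0 - 1) ^ ((M.eRk M.E).toNat - (M.eRk (A : Set α)).toNat) *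
      (MvPolynomial.X 1 - 1) ^ (A.card - (M.eRk (A : Set α)).toNat)

/-- Isomorphism of matroids: a bijection of the ground sets preserving independence. -/
def Iso {α β : Type} (M : Matroid α) (N : Matroid β) : Prop :=
  ∃ e : M.E ≃ N.E, ∀ I : Set M.E,
    M.Indep (Subtype.val '' I) ↔ N.Indep (Subtype.val '' (e '' I))

/-- `M` is Tutte unique: every (finite) matroid with the same Tutte polynomial is isomorphic
to `M`. -/
def TutteUnique {α : Type} (M : Matroid α) [M.Finite] : Prop :=
  ∀ (β : Type) (N : Matroid β) [N.Finite], tutte N = tutte M → Iso N M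

/-- `M` is transversal: its independent sets are the partial transversals of a finite family of
subsets of the ground set. -/
def IsTransversal {α : Type} (M : Matroid α) : Prop :=
  ∃ (m : ℕ) (A : Fin m → Set α), (∀ i, A i ⊆ M.E) ∧
    ∀ I : Set α, M.Indep I ↔ ∃ f : I → Fin m, Function.Injective f ∧ ∀ x : I, (x : α) ∈ A (f x)

/-- The labelled transversal matroids on the ground set `Fin n`. -/
def LabTrans (n : ℕ) : Type :=
  {M : Matroid (Fin n) // M.E = Set.univ ∧ IsTransversal M}

/-! ### Isomorphism is an equivalence relation -/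

lemma Iso.refl {α : Type} (M : Matroid α) : Iso M M :=
  ⟨Equiv.refl _, fun I => by simp⟩

lemma Iso.symm {α β : Type} {M : Matroid α} {N : Matroid β} (h : Iso M N) : Iso N M := by
  obtain ⟨e, he⟩ := h
  refine ⟨e.symm, fun I => ?_⟩
  have h1 := he (e.symm '' I)
  have h2 : e '' (e.symm '' I) = I := by
    rw [← Set.image_comp]; simp
  rw [h2] at h1
  exact h1.symm

lemma Iso.trans {α β γ : Type} {M : Matroid α} {N : Matroid β} {P : Matroid γ}
    (h : Iso M N) (h' : Iso N P) : Iso M P := by
  obtain ⟨e, he⟩ := h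
  obtain ⟨f, hf⟩ := h'
  refine ⟨e.trans f, fun I => ?_⟩
  rw [he, hf]
  have h2 : f '' (e '' I) = (e.trans f) '' I := by
    rw [← Set.image_comp]; rfl
  rw [h2]

/-- Isomorphism of labelled transversal matroids on `Fin n`. -/
def isoSetoid (n : ℕ) : Setoid (LabTrans n) where
  r := fun M N => Iso M.1 N.1
  iseqv := ⟨fun M => Iso.refl M.1, fun h => Iso.symm h, fun h h' => Iso.trans h h'⟩

end Pool.Agent.Helper17.Trans
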