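import Mathlib

set_option autoImplicit false

/-!
# Structure of transversal matroids via Hall's theorem

Every rank `r` transversal matroid on `Fin n` is described by a family of at most `r` subsets of
size at least `r`.
-/

namespace Pool.Agent.Helper17.Trans

open Finset

variable {n r : ℕ}

/-- Hall's condition for the index sets of the family `A` inside `B`. -/
def HallB (A : Fin r → Finset (Fin n)) (B : Finset (Fin n)) : Prop :=
  ∀ S : Finset (Fin r), S.card ≤ (B ∩ S.biUnion A).card

/-- Intersection of a family of subsets of `Fin n` (everything for the empty family). -/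
def cap (T : Finset (Finset (Fin n))) : Finset (Fin n) :=
  univ.filter (fun x => ∀ H ∈ T, x ∈ H)

/-- The basis criterion attached to a family `Hs` and a rank `r`. -/
def IsB (r : ℕ) (Hs : Finset (Finset (Fin n))) (B : Finset (Fin n)) : Prop :=
  B.card = r ∧ ∀ T, T ⊆ Hs → T.Nonempty → (B ∩ cap T).card + T.card ≤ r

lemma mem_cap {T : Finset (Finset (Fin n))} {x : Fin n} : x ∈ cap T ↔ ∀ H ∈ T, x ∈ H := by
  simp [cap]

lemma hallB_iff_sdr (A : Fin r → Finset (Fin n)) (B : Finset (Fin n)) :
    HallB A B ↔ ∃ h : Fin r → Fin n, Function.Injective h ∧ ∀ i, h i ∈ B ∩ A i := by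
  rw [← Finset.all_card_le_biUnion_card_iff_exists_injective]
  unfold HallB
  refine forall_congr' fun S => ?_
  have : S.biUnion (fun i => B ∩ A i) = B ∩ S.biUnion A := by
    ext x; simp only [mem_biUnion, mem_inter]
    constructor
    · rintro ⟨i, hi, h1, h2⟩; exact ⟨h1, i, hi, h2⟩
    · rintro ⟨h1, i, hi, h2⟩; exact ⟨i, hi, h1, h2⟩
  rw [this]

/-- For sets of size `r`, Hall's condition says that `B` can be matched to the family. -/
lemma hallB_iff_match (hr : 0 < r) (A : Fin r → Finset (Fin n)) (B : Finset (Fin n))
    (hB : B.card = r) :
    HallB A B ↔ ∃ g : Fin n → Fin r, Set.InjOn g B ∧ ∀ x ∈ B, x ∈ A (g x) := by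
  classical
  rw [hallB_iff_sdr]
  constructor
  · rintro ⟨h, hinj, hmem⟩
    have : Nonempty (Fin r) := ⟨⟨0, hr⟩⟩
    have himg : (univ : Finset (Fin r)).image h = B := by
      apply Finset.eq_of_subset_of_card_le
      · intro x hx
        rw [mem_image] at hx
        obtain ⟨i, _, rfl⟩ := hx
        exact (mem_inter.1 (hmem i)).1
      · rw [Finset.card_image_of_injective _ hinj, hB]; simp
    have hsurj : ∀ x ∈ B, ∃ i, h i = x := by
      intro x hx
      rw [← himg, mem_image] at hx
      obtain ⟨i, _, hi⟩ := hx
      exact ⟨i, hi⟩
    refine ⟨Function.invFun h, ?_, ?_⟩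
    · intro x hx y hy hxy
      rw [← Function.invFun_eq (hsurj x hx), ← Function.invFun_eq (hsurj y hy), hxy]
    · intro x hx
      have h1 := hmem (Function.invFun h x)
      rw [Function.invFun_eq (hsurj x hx)] at h1
      exact (mem_inter.1 h1).2
  · rintro ⟨g, hinj, hmem⟩
    have hcard : (B.image g).card = r := by
      rw [Finset.card_image_of_injOn hinj, hB]
    have himg : B.image g = univ := by
      apply Finset.eq_univ_of_card
      rw [hcard]; simp
    have hsurj : ∀ i : Fin r, ∃ x ∈ B, g x = i := by
      intro i
      have : i ∈ B.image g := by rw [himg]; exact mem_univ i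
      simpa using this
    choose h hhB hh using hsurj
    refine ⟨h, ?_, ?_⟩
    · intro i j hij
      rw [← hh i, ← hh j, hij]
    · intro i
      rw [mem_inter]
      refine ⟨hhB i, ?_⟩
      have := hmem (h i) (hhB i)
      rwa [hh i] at this

/-- A family is spread if the sets of any `K` cover at least `|K|` elements outside any further
set. -/
def Spread (A : Fin r → Finset (Fin n)) : Prop :=
  ∀ i, ∀ K : Finset (Fin r), i ∉ K → K.card ≤ (K.biUnion A \ A i).card

/-- Removing an element from one set of a family which is not spread. -/
lemma reduce_step (A : Fin r → Finset (Fin n)) (B₀ : Finset (Fin n)) (hB₀ : HallB A B₀)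
    (hA : ¬ Spread A) :
    ∃ (i : Fin r) (x : Fin n), x ∈ A i ∧
      ∀ B, HallB A B ↔ HallB (Function.update A i ((A i).erase x)) B := by
  classical
  unfold Spread at hA
  push Not at hA
  obtain ⟨i, K₀, hiK₀, hK₀⟩ := hA
  -- minimal violating set for `i`
  obtain ⟨K, hKmem, hKmin⟩ := Finset.exists_min_image
    ((univ : Finset (Finset (Fin r))).filter
      (fun K => i ∉ K ∧ (K.biUnion A \ A i).card < K.card)) Finset.card
    ⟨K₀, by simp [hiK₀, hK₀]⟩
  rw [mem_filter] at hKmem
  obtain ⟨-, hiK, hK⟩ := hKmem
  have hmin : ∀ K' : Finset (Fin r), K' ⊂ K → K'.card ≤ (K'.biUnion A \ A i).card := by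
    intro K' hK'
    by_contra hcon
    push Not at hcon
    have h1 := hKmin K' (by
      rw [mem_filter]
      exact ⟨mem_univ _, fun h => hiK (hK'.1 h), hcon⟩)
    have h2 := Finset.card_lt_card hK'
    omega
  -- `A_K` meets `A i`
  have hKcard : K.card ≤ (K.biUnion A).card :=
    (hB₀ K).trans (Finset.card_le_card Finset.inter_subset_right)
  obtain ⟨x, hxK, hxi⟩ : ∃ x, x ∈ K.biUnion A ∧ x ∈ A i := by
    by_contra hcon
    push Not at hcon
    have : K.biUnion A \ A i = K.biUnion A := by
      rw [Finset.sdiff_eq_self_iff_disjoint, Finset.disjoint_left]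
      exact hcon
    rw [this] at hK
    omega
  refine ⟨i, x, hxi, fun B => ?_⟩
  set A' := Function.update A i ((A i).erase x) with hA'
  have hA'i : A' i = (A i).erase x := by rw [hA']; simp
  have hA'j : ∀ j, j ≠ i → A' j = A j := by
    intro j hj; rw [hA']; simp [hj]
  have hsub : ∀ j, A' j ⊆ A j := by
    intro j
    by_cases hj : j = i
    · rw [hj, hA'i]; exact Finset.erase_subset _ _
    · rw [hA'j j hj]
  constructor
  · intro hB L
    by_cases hiL : i ∈ L
    · set L₀ := L.erase i with hL₀
      have hL₀' : L₀.biUnion A' = L₀.biUnion A := by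
        apply Finset.biUnion_congr rfl
        intro j hj
        exact hA'j j (Finset.ne_of_mem_erase hj)
      by_cases hx0 : x ∈ L₀.biUnion A
      · -- nothing changes
        have hLL : L.biUnion A' = L.biUnion A := by
          apply Finset.Subset.antisymm
          · exact Finset.biUnion_mono fun j _ => hsub j
          · intro y hy
            rw [mem_biUnion] at hy
            obtain ⟨j, hj, hy⟩ := hy
            by_cases hji : j = i
            · by_cases hyx : y = x
              · rw [hyx]
                have : x ∈ L₀.biUnion A' := by rw [hL₀']; exact hx0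
                exact Finset.biUnion_subset_biUnion_of_subset_left _ (Finset.erase_subset _ _) this
              · rw [mem_biUnion]
                refine ⟨i, hiL, ?_⟩
                rw [hA'i, mem_erase]
                exact ⟨hyx, hji ▸ hy⟩
            · rw [mem_biUnion]
              exact ⟨j, hj, by rw [hA'j j hji]; exact hy⟩
        rw [hLL]; exact hB L
      · -- `x` disappears
        have hLL : (L.biUnion A).erase x ⊆ L.biUnion A' := by
          intro y hy
          rw [mem_erase, mem_biUnion] at hy
          obtain ⟨hyx, j, hj, hy⟩ := hy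
          rw [mem_biUnion]
          by_cases hji : j = i
          · exact ⟨i, hiL, by rw [hA'i, mem_erase]; exact ⟨hyx, hji ▸ hy⟩⟩
          · exact ⟨j, hj, by rw [hA'j j hji]; exact hy⟩
        have hcardL : (B ∩ L.biUnion A).card ≤ (B ∩ L.biUnion A').card + 1 := by
          have h1 : B ∩ L.biUnion A ⊆ insert x (B ∩ L.biUnion A') := by
            intro y hy
            rw [mem_inter] at hy
            by_cases hyx : y = x
            · rw [hyx]; exact mem_insert_self _ _
            · apply mem_insert_of_mem
              rw [mem_inter]
              exact ⟨hy.1, hLL (by rw [mem_erase]; exact ⟨hyx, hy.2⟩)⟩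
          exact (Finset.card_le_card h1).trans (Finset.card_insert_le _ _)
        by_contra hcon
        push Not at hcon
        have hHL := hB L
        have htight : (B ∩ L.biUnion A).card = L.card := by omega
        -- use the minimal violating set
        set K' := K ∩ L with hK'
        have hxK' : K' ⊂ K := by
          refine Finset.ssubset_iff_subset_ne.2 ⟨Finset.inter_subset_left, fun h => ?_⟩
          apply hx0
          rw [mem_biUnion] at hxK ⊢
          obtain ⟨j, hj, hxj⟩ := hxK
          have : j ∈ K' := by rw [h]; exact hj
          rw [hK', mem_inter] at this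
          exact ⟨j, Finset.mem_erase.2 ⟨fun h2 => hiK (h2 ▸ hj), this.2⟩, hxj⟩
        have hK'card := hmin K' hxK'
        have hunion := hB (L ∪ K)
        have hcardLK : (L ∪ K).card + K'.card = L.card + K.card := by
          rw [hK', Finset.inter_comm]; exact Finset.card_union_add_card_inter L K
        have h5 : (B ∩ (L ∪ K).biUnion A).card ≤
            (B ∩ L.biUnion A).card + ((K.biUnion A \ A i) \ (K'.biUnion A \ A i)).card := by
          have h6 : B ∩ (L ∪ K).biUnion A ⊆
              (B ∩ L.biUnion A) ∪ ((K.biUnion A \ A i) \ (K'.biUnion A \ A i)) := by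
            intro y hy
            rw [mem_inter, mem_biUnion] at hy
            obtain ⟨hyB, j, hj, hyj⟩ := hy
            rw [mem_union]
            by_cases hyL : y ∈ L.biUnion A
            · left; rw [mem_inter]; exact ⟨hyB, hyL⟩
            · right
              have hjK : j ∈ K := by
                rw [mem_union] at hj
                rcases hj with hj | hj
                · exact absurd (mem_biUnion.2 ⟨j, hj, hyj⟩) hyL
                · exact hj
              rw [mem_sdiff, mem_sdiff, mem_sdiff]
              refine ⟨⟨mem_biUnion.2 ⟨j, hjK, hyj⟩, fun h => hyL (mem_biUnion.2 ⟨i, hiL, h⟩)⟩, ?_⟩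
              rintro ⟨h7, -⟩
              rw [mem_biUnion] at h7
              obtain ⟨j', hj', hyj'⟩ := h7
              rw [hK', mem_inter] at hj'
              exact hyL (mem_biUnion.2 ⟨j', hj'.2, hyj'⟩)
          exact (Finset.card_le_card h6).trans (Finset.card_union_le _ _)
        have h8 : K'.biUnion A \ A i ⊆ K.biUnion A \ A i :=
          Finset.sdiff_subset_sdiff
            (Finset.biUnion_subset_biUnion_of_subset_left _ Finset.inter_subset_left) (le_refl _)
        have h9 := Finset.card_sdiff_add_card_eq_card h8
        omega
    · have : L.biUnion A' = L.biUnion A := by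
        apply Finset.biUnion_congr rfl
        intro j hj
        exact hA'j j (fun h => hiL (h ▸ hj))
      rw [this]; exact hB L
  · intro hB L
    refine (hB L).trans (Finset.card_le_card ?_)
    exact Finset.inter_subset_inter_left (Finset.biUnion_mono fun j _ => hsub j)

/-- Every family with a system of representatives can be shrunk to a spread one with the same
bases. -/
lemma exists_spread (N : ℕ) : ∀ (A : Fin r → Finset (Fin n)), ∑ i, (A i).card ≤ N →
    ∀ B₀ : Finset (Fin n), HallB A B₀ →
    ∃ A' : Fin r → Finset (Fin n), Spread A' ∧ ∀ B, HallB A B ↔ HallB A' B := by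
  classical
  induction N with
  | zero =>
    intro A hN B₀ hB₀
    by_cases hA : Spread A
    · exact ⟨A, hA, fun _ => Iff.rfl⟩
    · exfalso
      obtain ⟨i, x, hx, _⟩ := reduce_step A B₀ hB₀ hA
      have h1 : (A i).card ≤ ∑ i, (A i).card := Finset.single_le_sum (f := fun i => (A i).card)
        (fun _ _ => Nat.zero_le _) (mem_univ i)
      have h2 : 0 < (A i).card := Finset.card_pos.2 ⟨x, hx⟩
      omega
  | succ N ih =>
    intro A hN B₀ hB₀
    by_cases hA : Spread A
    · exact ⟨A, hA, fun _ => Iff.rfl⟩
    · obtain ⟨i, x, hx, hiff⟩ := reduce_step A B₀ hB₀ hA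
      have hlt : ∑ j, (Function.update A i ((A i).erase x) j).card < ∑ j, (A j).card := by
        apply Finset.sum_lt_sum
        · intro j _
          by_cases hj : j = i
          · rw [hj]; simp only [Function.update_self]
            exact Finset.card_le_card (Finset.erase_subset _ _)
          · rw [Function.update_of_ne hj]
        · refine ⟨i, mem_univ i, ?_⟩
          simp only [Function.update_self]
          exact Finset.card_erase_lt_of_mem hx
      obtain ⟨A', hA'1, hA'2⟩ := ih _ (by omega) B₀ ((hiff B₀).1 hB₀)
      exact ⟨A', hA'1, fun B => (hiff B).trans (hA'2 B)⟩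

/-- The family of large complements of a spread family describes the same bases. -/
lemma spread_to_family (A : Fin r → Finset (Fin n)) (hA : Spread A) :
    ∃ Hs : Finset (Finset (Fin n)), (∀ H ∈ Hs, r ≤ H.card) ∧ Hs.card ≤ r ∧
      ∀ B : Finset (Fin n), B.card = r → (HallB A B ↔ IsB r Hs B) := by
  classical
  set F : Fin r → Finset (Fin n) := fun i => (A i)ᶜ with hF
  have hFinj : Function.Injective F := by
    intro i j hij
    by_contra hne
    have h1 := hA i {j} (by simp [hne])
    have h2 : A i = A j := by
      have := congrArg compl hij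
      simpa [hF] using this
    simp [h2] at h1
  have hFcard : ∀ i, r - 1 ≤ (F i).card := by
    intro i
    have h1 := hA i (univ.erase i) (by simp)
    rw [Finset.card_erase_of_mem (mem_univ i), Finset.card_univ, Fintype.card_fin] at h1
    refine h1.trans (Finset.card_le_card ?_)
    intro x hx
    simp only [hF, mem_compl]
    exact (mem_sdiff.1 hx).2
  set I₁ : Finset (Fin r) := univ.filter (fun i => r ≤ (F i).card) with hI₁
  -- common points of the complements
  have hcompl : ∀ (B : Finset (Fin n)) (S : Finset (Fin r)),
      (B ∩ S.biUnion A).card + (B ∩ (S.biUnion A)ᶜ).card = B.card := by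
    intro B S
    rw [← Finset.card_inter_add_card_sdiff B (S.biUnion A), Finset.sdiff_eq_inter_compl]
  refine ⟨I₁.image F, ?_, ?_, ?_⟩
  · intro H hH
    rw [mem_image] at hH
    obtain ⟨i, hi, rfl⟩ := hH
    exact (mem_filter.1 hi).2
  · refine (Finset.card_image_le).trans ?_
    refine (Finset.card_le_univ _).trans ?_
    simp
  · intro B hB
    have hcap : ∀ S : Finset (Fin r), cap (S.image F) = (S.biUnion A)ᶜ := by
      intro S
      ext x
      rw [mem_cap, mem_compl, mem_biUnion]
      constructor
      · rintro h ⟨i, hi, hxi⟩
        have := h (F i) (mem_image_of_mem _ hi)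
        simp only [hF, mem_compl] at this
        exact this hxi
      · rintro h H hH
        rw [mem_image] at hH
        obtain ⟨i, hi, rfl⟩ := hH
        simp only [hF, mem_compl]
        exact fun hxi => h ⟨i, hi, hxi⟩
    constructor
    · intro h
      refine ⟨hB, ?_⟩
      intro T hT hTne
      set S : Finset (Fin r) := univ.filter (fun i => F i ∈ T) with hS
      have hST : S.image F = T := by
        ext H
        rw [mem_image]
        constructor
        · rintro ⟨i, hi, rfl⟩
          exact (mem_filter.1 hi).2
        · intro hH
          have := hT hH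
          rw [mem_image] at this
          obtain ⟨i, _, rfl⟩ := this
          exact ⟨i, by rw [hS, mem_filter]; exact ⟨mem_univ _, hH⟩, rfl⟩
      have hcardS : S.card = T.card := by
        rw [← hST, Finset.card_image_of_injective _ hFinj]
      have h1 := h S
      have h2 := hcompl B S
      rw [← hcap, hST] at h2
      omega
    · rintro ⟨-, h⟩ S
      rcases S.eq_empty_or_nonempty with hS | hS
      · rw [hS]; simp
      have h2 := hcompl B S
      by_cases hSI : S ⊆ I₁
      · have h3 := h (S.image F) (Finset.image_subset_image hSI) (hS.image F)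
        rw [hcap, Finset.card_image_of_injective _ hFinj] at h3
        omega
      · rw [Finset.not_subset] at hSI
        obtain ⟨i, hiS, hiI⟩ := hSI
        have hFi : (F i).card = r - 1 := by
          have h3 := hFcard i
          have h4 : ¬ r ≤ (F i).card := fun h5 => hiI (by rw [hI₁, mem_filter]; exact ⟨mem_univ _, h5⟩)
          omega
        have hr : 0 < r := i.pos
        have h5 := hA i (S.erase i) (by simp)
        rw [Finset.card_erase_of_mem hiS] at h5
        have h6 : (B ∩ (S.biUnion A)ᶜ).card ≤ (F i \ ((S.erase i).biUnion A \ A i)).card := by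
          apply Finset.card_le_card
          intro x hx
          rw [mem_inter, mem_compl, mem_biUnion] at hx
          rw [mem_sdiff, mem_sdiff]
          refine ⟨?_, ?_⟩
          · simp only [hF, mem_compl]
            exact fun h7 => hx.2 ⟨i, hiS, h7⟩
          · rintro ⟨h7, -⟩
            rw [mem_biUnion] at h7
            obtain ⟨j, hj, hxj⟩ := h7
            exact hx.2 ⟨j, Finset.mem_of_mem_erase hj, hxj⟩
        have h7 : ((S.erase i).biUnion A \ A i) ⊆ F i := by
          intro x hx
          simp only [hF, mem_compl]
          exact (mem_sdiff.1 hx).2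
        have h8 := Finset.card_sdiff_add_card_eq_card h7
        have h9 : 0 < S.card := Finset.card_pos.2 hS
        omega

end Pool.Agent.Helper17.Trans
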