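import Mathlib
import Pool.Agent.Helper17.TransDefs
import Pool.Agent.Helper17.TransStruct

set_option autoImplicit false

/-!
# Transversal matroids and Hall families
-/

namespace Pool.Agent.Helper17.Trans

open Finset

variable {n : ℕ}

/-- Matching a subset of `Fin n` into a nonempty index type by a total function. -/
lemma match_total {m : ℕ} (hm : 0 < m) (A : Fin m → Set (Fin n)) (I : Set (Fin n)) :
    (∃ f : I → Fin m, Function.Injective f ∧ ∀ x : I, (x : Fin n) ∈ A (f x)) ↔
      ∃ f : Fin n → Fin m, Set.InjOn f I ∧ ∀ x ∈ I, x ∈ A (f x) := by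
  classical
  constructor
  · rintro ⟨f, hf, hA⟩
    refine ⟨fun x => if h : x ∈ I then f ⟨x, h⟩ else ⟨0, hm⟩, ?_, ?_⟩
    · intro x hx y hy hxy
      simp only [dif_pos hx, dif_pos hy] at hxy
      exact congrArg Subtype.val (hf hxy)
    · intro x hx
      simp only [dif_pos hx]
      exact hA ⟨x, hx⟩
  · rintro ⟨f, hf, hA⟩
    refine ⟨fun x => f x, ?_, fun x => hA x x.2⟩
    intro x y hxy
    exact Subtype.ext (hf x.2 y.2 hxy)

/-- The family presenting a transversal matroid can be taken to have exactly `r` members, where
`r` is the rank. -/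
lemma exists_hall_family (M : Matroid (Fin n)) (hE : M.E = Set.univ) (hM : IsTransversal M) :
    ∃ (r : ℕ) (B₀ : Finset (Fin n)) (A : Fin r → Finset (Fin n)), r ≤ n ∧ HallB A B₀ ∧
      ∀ B : Finset (Fin n), M.IsBase B ↔ (B.card = r ∧ HallB A B) := by
  classical
  obtain ⟨m, A₀, -, hind⟩ := hM
  obtain ⟨B₀', hB₀'⟩ := M.exists_isBase
  set B₀ : Finset (Fin n) := B₀'.toFinset with hB₀def
  have hB₀coe : (B₀ : Set (Fin n)) = B₀' := by simp [hB₀def]
  have hB₀ : M.IsBase B₀ := by rw [hB₀coe]; exact hB₀'
  have hcardbase : ∀ B : Finset (Fin n), M.IsBase B → B.card = B₀.card := by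
    intro B hB
    have := hB.ncard_eq_ncard_of_isBase hB₀
    simpa using this
  have hbase_of : ∀ B : Finset (Fin n), M.Indep B → B.card = B₀.card → M.IsBase B := by
    intro B hB hc
    obtain ⟨B', hB', hsub⟩ := hB.exists_isBase_superset
    have h1 : (B'.toFinset).card = B₀.card := hcardbase _ (by simpa using hB')
    have h2 : B ⊆ B'.toFinset := by
      intro x hx; simpa using hsub hx
    have h3 : B = B'.toFinset := Finset.eq_of_subset_of_card_le h2 (by omega)
    rw [h3]; simpa using hB'
  refine ⟨B₀.card, B₀, ?_⟩
  rcases Nat.eq_zero_or_pos B₀.card with hr | hr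
  · -- rank zero
    have hB₀e : B₀ = ∅ := Finset.card_eq_zero.1 hr
    refine ⟨fun _ => ∅, ?_, ?_, ?_⟩
    · rw [hr]; exact Nat.zero_le n
    · intro S
      have : S.card ≤ B₀.card := by simpa using Finset.card_le_univ S
      omega
    · intro B
      constructor
      · intro hB
        refine ⟨hcardbase B hB, fun S => ?_⟩
        have : S.card ≤ B₀.card := by simpa using Finset.card_le_univ S
        omega
      · rintro ⟨h1, -⟩
        have : B = B₀ := by rw [hB₀e]; exact Finset.card_eq_zero.1 (by omega)
        rw [this]; exact hB₀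
  · have hB₀ne : B₀.Nonempty := Finset.card_pos.1 hr
    obtain ⟨b₀, hb₀⟩ := hB₀ne
    have hm : 0 < m := by
      obtain ⟨f, -, -⟩ := (hind _).1 hB₀.indep
      exact (f ⟨b₀, hb₀⟩).pos
    have hind' : ∀ I : Set (Fin n), M.Indep I ↔
        ∃ f : Fin n → Fin m, Set.InjOn f I ∧ ∀ x ∈ I, x ∈ A₀ (f x) := by
      intro I; rw [hind, match_total hm]
    obtain ⟨f₀, hf₀inj, hf₀mem⟩ := (hind' _).1 hB₀.indep
    -- every base can be matched onto the index set `f₀ '' B₀`
    have key : ∀ B : Finset (Fin n), M.IsBase B → ∃ g : Fin n → Fin m, Set.InjOn g B ∧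
        (∀ x ∈ B, x ∈ A₀ (g x)) ∧ B.image g = B₀.image f₀ := by
      intro B hB
      have hne : ((univ : Finset (Fin n → Fin m)).filter
          (fun g => Set.InjOn g B ∧ ∀ x ∈ B, x ∈ A₀ (g x))).Nonempty := by
        obtain ⟨g, hg1, hg2⟩ := (hind' _).1 hB.indep
        exact ⟨g, by rw [mem_filter]; exact ⟨mem_univ _, hg1, fun x hx => hg2 x hx⟩⟩
      obtain ⟨g, hg, hmax⟩ := Finset.exists_max_image _
        (fun g => ((B ∩ B₀).filter (fun x => g x = f₀ x)).card) hne
      rw [mem_filter] at hg
      obtain ⟨-, hginj, hgmem⟩ := hg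
      have hsub : B₀.image f₀ ⊆ B.image g := by
        intro k hk
        rw [mem_image] at hk
        obtain ⟨b, hb, rfl⟩ := hk
        by_contra hcon
        have hnotin : ∀ x ∈ B, g x ≠ f₀ b := fun x hx h => hcon (mem_image.2 ⟨x, hx, h⟩)
        set g' := Function.update g b (f₀ b) with hg'
        have hg'b : g' b = f₀ b := by rw [hg']; simp
        have hg'x : ∀ x, x ≠ b → g' x = g x := by
          intro x hx; rw [hg']; simp [hx]
        by_cases hbB : b ∈ B
        · -- improve the agreement
          have hg'inj : Set.InjOn g' B := by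
            intro x hx y hy hxy
            by_cases hxb : x = b
            · by_cases hyb : y = b
              · rw [hxb, hyb]
              · rw [hxb, hg'b, hg'x y hyb] at hxy
                exact absurd hxy.symm (hnotin y hy)
            · by_cases hyb : y = b
              · rw [hyb, hg'b, hg'x x hxb] at hxy
                exact absurd hxy (hnotin x hx)
              · rw [hg'x x hxb, hg'x y hyb] at hxy
                exact hginj hx hy hxy
          have hg'mem : ∀ x ∈ B, x ∈ A₀ (g' x) := by
            intro x hx
            by_cases hxb : x = b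
            · rw [hxb, hg'b]; exact hf₀mem b hb
            · rw [hg'x x hxb]; exact hgmem x hx
          have h1 := hmax g' (by rw [mem_filter]; exact ⟨mem_univ _, hg'inj, hg'mem⟩)
          have h2 : ((B ∩ B₀).filter (fun x => g x = f₀ x)) ⊂
              ((B ∩ B₀).filter (fun x => g' x = f₀ x)) := by
            rw [Finset.ssubset_iff_of_subset]
            · refine ⟨b, ?_, ?_⟩
              · rw [mem_filter, mem_inter]; exact ⟨⟨hbB, hb⟩, hg'b⟩
              · rw [mem_filter]; exact fun h => hnotin b hbB h.2
            · intro x hx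
              rw [mem_filter] at hx ⊢
              refine ⟨hx.1, ?_⟩
              by_cases hxb : x = b
              · rw [hxb, hg'b]
              · rw [hg'x x hxb]; exact hx.2
          have h3 := Finset.card_lt_card h2
          omega
        · -- extend the base
          have hind2 : M.Indep (insert b B : Finset (Fin n)) := by
            rw [hind']
            refine ⟨g', ?_, ?_⟩
            · intro x hx y hy hxy
              rw [mem_coe, mem_insert] at hx hy
              by_cases hxb : x = b
              · by_cases hyb : y = b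
                · rw [hxb, hyb]
                · rw [hxb, hg'b, hg'x y hyb] at hxy
                  exact absurd hxy.symm (hnotin y (hy.resolve_left hyb))
              · by_cases hyb : y = b
                · rw [hyb, hg'b, hg'x x hxb] at hxy
                  exact absurd hxy (hnotin x (hx.resolve_left hxb))
                · rw [hg'x x hxb, hg'x y hyb] at hxy
                  exact hginj (hx.resolve_left hxb) (hy.resolve_left hyb) hxy
            · intro x hx
              rw [mem_coe, mem_insert] at hx
              by_cases hxb : x = b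
              · rw [hxb, hg'b]; exact hf₀mem b hb
              · rw [hg'x x hxb]; exact hgmem x (hx.resolve_left hxb)
          have h4 : (B : Set (Fin n)) = (insert b B : Finset (Fin n)) := by
            apply hB.eq_of_subset_indep hind2
            simp
          have h5 : b ∈ (B : Set (Fin n)) := by rw [h4]; simp
          exact hbB h5
      refine ⟨g, hginj, hgmem, ?_⟩
      symm
      apply Finset.eq_of_subset_of_card_le hsub
      rw [Finset.card_image_of_injOn hginj, Finset.card_image_of_injOn hf₀inj, hcardbase B hB]
    -- the reindexed family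
    let e : Fin B₀.card ≃ B₀ := (Finset.equivFin B₀).symm
    set A : Fin B₀.card → Finset (Fin n) := fun i => univ.filter (fun x => x ∈ A₀ (f₀ (e i)))
      with hAdef
    have hmemA : ∀ x i, x ∈ A i ↔ x ∈ A₀ (f₀ (e i)) := by
      intro x i; simp [hAdef]
    have hall : ∀ B : Finset (Fin n), M.IsBase B ↔ (B.card = B₀.card ∧ HallB A B) := by
      intro B
      constructor
      · intro hB
        refine ⟨hcardbase B hB, ?_⟩
        obtain ⟨g, hginj, hgmem, himg⟩ := key B hB
        rw [hallB_iff_sdr]
        have hsurj : ∀ i : Fin B₀.card, ∃ x ∈ B, g x = f₀ (e i) := by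
          intro i
          have : f₀ (e i) ∈ B.image g := by
            rw [himg]; exact mem_image_of_mem _ (e i).2
          simpa using this
        choose h hhB hh using hsurj
        refine ⟨h, ?_, ?_⟩
        · intro i j hij
          have h1 : f₀ (e i) = f₀ (e j) := by rw [← hh i, ← hh j, hij]
          have h2 := hf₀inj (e i).2 (e j).2 h1
          exact e.injective (Subtype.ext h2)
        · intro i
          rw [mem_inter]
          refine ⟨hhB i, ?_⟩
          rw [hmemA, ← hh i]
          exact hgmem _ (hhB i)
      · rintro ⟨hc, hB⟩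
        apply hbase_of B _ hc
        rw [hallB_iff_match hr A B hc] at hB
        obtain ⟨g, hginj, hgmem⟩ := hB
        rw [hind']
        refine ⟨fun x => f₀ (e (g x)), ?_, ?_⟩
        · intro x hx y hy hxy
          have h2 := hf₀inj (e (g x)).2 (e (g y)).2 hxy
          exact hginj hx hy (e.injective (Subtype.ext h2))
        · intro x hx
          have := hgmem x hx
          rwa [hmemA] at this
    refine ⟨A, ?_, ((hall B₀).1 hB₀).2, hall⟩
    simpa using Finset.card_le_univ B₀

/-- Every transversal matroid on `Fin n` is described by a rank `r` and a family of at most `r`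
sets of size at least `r`. -/
theorem transversal_structure (M : Matroid (Fin n)) (hE : M.E = Set.univ) (hM : IsTransversal M) :
    ∃ (r : ℕ) (Hs : Finset (Finset (Fin n))), r ≤ n ∧ (∀ H ∈ Hs, r ≤ H.card) ∧ Hs.card ≤ r ∧
      ∀ B : Finset (Fin n), M.IsBase B ↔ IsB r Hs B := by
  obtain ⟨r, B₀, A, hrn, hB₀, hbase⟩ := exists_hall_family M hE hM
  obtain ⟨A', hspread, hiff⟩ := exists_spread _ A (le_refl _) B₀ hB₀
  obtain ⟨Hs, h1, h2, h3⟩ := spread_to_family A' hspread
  refine ⟨r, Hs, hrn, h1, h2, fun B => ?_⟩
  rw [hbase, hiff]
  constructor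
  · rintro ⟨hc, hB⟩
    exact (h3 B hc).1 hB
  · intro hB
    exact ⟨hB.1, (h3 B hB.1).2 hB⟩

end Pool.Agent.Helper17.Trans
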