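import Mathlib
import Pool.Agent.Helper17.TransDefs
import Pool.Agent.Helper17.TransStruct
import Pool.Agent.Helper17.TransBase

set_option autoImplicit false

/-!
# Existence of transversal matroids with prescribed large hyperplanes
-/

namespace Pool.Agent.Helper17.Trans

open Finset

variable {n : ℕ}

/-- Partial transversals of a family. -/
def PT {m : ℕ} (A : Fin m → Set (Fin n)) (I : Set (Fin n)) : Prop :=
  ∃ f : I → Fin m, Function.Injective f ∧ ∀ x : I, (x : Fin n) ∈ A (f x)

lemma PT_aug {m : ℕ} (A : Fin m → Set (Fin n)) (I J : Set (Fin n)) (hI : PT A I) (hJ : PT A J)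
    (hIJ : I.ncard < J.ncard) : ∃ e ∈ J, e ∉ I ∧ PT A (insert e I) := by
  classical
  have hJne : J.Nonempty := by
    rw [Set.nonempty_iff_ne_empty]
    rintro rfl
    simp at hIJ
  obtain ⟨j₀, hj₀⟩ := hJne
  have hm : 0 < m := by
    obtain ⟨f, -, -⟩ := hJ
    exact (f ⟨j₀, hj₀⟩).pos
  unfold PT at hI hJ ⊢
  rw [match_total hm] at hI hJ
  obtain ⟨g, hginj, hgmem⟩ := hJ
  have hne : ((univ : Finset (Fin n → Fin m)).filter
      (fun f => Set.InjOn f I ∧ ∀ x ∈ I, x ∈ A (f x))).Nonempty := by
    obtain ⟨f, hf1, hf2⟩ := hI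
    exact ⟨f, by rw [mem_filter]; exact ⟨mem_univ _, hf1, hf2⟩⟩
  obtain ⟨f, hf, hmax⟩ := Finset.exists_max_image _
    (fun f => ((univ : Finset (Fin n)).filter (fun x => x ∈ I ∧ x ∈ J ∧ f x = g x)).card) hne
  rw [mem_filter] at hf
  obtain ⟨-, hfinj, hfmem⟩ := hf
  -- an index used by `J` and not by `I`
  obtain ⟨y, hyJ, hy⟩ : ∃ y ∈ J, g y ∉ f '' I := by
    by_contra hcon
    push Not at hcon
    have h1 : g '' J ⊆ f '' I := by
      rintro _ ⟨y, hy, rfl⟩; exact hcon y hy
    have h2 := Set.ncard_le_ncard h1 (Set.toFinite _)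
    rw [Set.InjOn.ncard_image hginj, Set.InjOn.ncard_image hfinj] at h2
    omega
  have hnotin : ∀ x ∈ I, f x ≠ g y := fun x hx h => hy ⟨x, hx, h⟩
  set f' := Function.update f y (g y) with hf'
  have hf'y : f' y = g y := by rw [hf']; simp
  have hf'x : ∀ x, x ≠ y → f' x = f x := by
    intro x hx; rw [hf']; simp [hx]
  by_cases hyI : y ∈ I
  · exfalso
    have hf'inj : Set.InjOn f' I := by
      intro x hx z hz hxz
      by_cases hxb : x = y
      · by_cases hzb : z = y
        · rw [hxb, hzb]
        · rw [hxb, hf'y, hf'x z hzb] at hxz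
          exact absurd hxz.symm (hnotin z hz)
      · by_cases hzb : z = y
        · rw [hzb, hf'y, hf'x x hxb] at hxz
          exact absurd hxz (hnotin x hx)
        · rw [hf'x x hxb, hf'x z hzb] at hxz
          exact hfinj hx hz hxz
    have hf'mem : ∀ x ∈ I, x ∈ A (f' x) := by
      intro x hx
      by_cases hxb : x = y
      · rw [hxb, hf'y]; exact hgmem y hyJ
      · rw [hf'x x hxb]; exact hfmem x hx
    have h1 := hmax f' (by rw [mem_filter]; exact ⟨mem_univ _, hf'inj, hf'mem⟩)
    have h2 : ((univ : Finset (Fin n)).filter (fun x => x ∈ I ∧ x ∈ J ∧ f x = g x)) ⊂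
        ((univ : Finset (Fin n)).filter (fun x => x ∈ I ∧ x ∈ J ∧ f' x = g x)) := by
      rw [Finset.ssubset_iff_of_subset]
      · refine ⟨y, ?_, ?_⟩
        · rw [mem_filter]; exact ⟨mem_univ _, hyI, hyJ, hf'y⟩
        · rw [mem_filter]; exact fun h => hnotin y hyI h.2.2.2
      · intro x hx
        rw [mem_filter] at hx ⊢
        refine ⟨hx.1, hx.2.1, hx.2.2.1, ?_⟩
        by_cases hxb : x = y
        · rw [hxb, hf'y]
        · rw [hf'x x hxb]; exact hx.2.2.2
    have h3 := Finset.card_lt_card h2
    omega
  · refine ⟨y, hyJ, hyI, ?_⟩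
    rw [match_total hm]
    refine ⟨f', ?_, ?_⟩
    · intro x hx z hz hxz
      rw [Set.mem_insert_iff] at hx hz
      by_cases hxb : x = y
      · by_cases hzb : z = y
        · rw [hxb, hzb]
        · rw [hxb, hf'y, hf'x z hzb] at hxz
          exact absurd hxz.symm (hnotin z (hz.resolve_left hzb))
      · by_cases hzb : z = y
        · rw [hzb, hf'y, hf'x x hxb] at hxz
          exact absurd hxz (hnotin x (hx.resolve_left hxb))
        · rw [hf'x x hxb, hf'x z hzb] at hxz
          exact hfinj (hx.resolve_left hxb) (hz.resolve_left hzb) hxz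
    · intro x hx
      rw [Set.mem_insert_iff] at hx
      by_cases hxb : x = y
      · rw [hxb, hf'y]; exact hgmem y hyJ
      · rw [hf'x x hxb]; exact hfmem x (hx.resolve_left hxb)

/-- The transversal matroid of a family. -/
def trMatroid {m : ℕ} (A : Fin m → Set (Fin n)) : Matroid (Fin n) :=
  (IndepMatroid.ofFinite (E := Set.univ) (Set.toFinite _) (PT A)
    ⟨fun x => (Set.notMem_empty _ x.2).elim, fun x => (Set.notMem_empty _ x.2).elim,
      fun x => (Set.notMem_empty _ x.2).elim⟩
    (by
      rintro I J ⟨f, hf, hmem⟩ hIJ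
      refine ⟨fun x => f ⟨x, hIJ x.2⟩, ?_, fun x => hmem ⟨x, hIJ x.2⟩⟩
      intro x y hxy
      have := hf hxy
      exact Subtype.ext (Subtype.mk.inj this))
    (fun I J hI hJ hIJ => PT_aug A I J hI hJ hIJ)
    (fun I _ => Set.subset_univ I)).matroid

lemma trMatroid_E {m : ℕ} (A : Fin m → Set (Fin n)) : (trMatroid A).E = Set.univ := rfl

lemma trMatroid_indep {m : ℕ} (A : Fin m → Set (Fin n)) (I : Set (Fin n)) :
    (trMatroid A).Indep I ↔ PT A I := Iff.rfl

lemma trMatroid_transversal {m : ℕ} (A : Fin m → Set (Fin n)) : IsTransversal (trMatroid A) :=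
  ⟨m, A, fun _ => Set.subset_univ _, fun I => trMatroid_indep A I⟩

/-- A family `Hs` is good for rank `r` if any `k ≥ 2` of its members meet in at most `r - k`
elements. -/
def Good (r : ℕ) (Hs : Finset (Finset (Fin n))) : Prop :=
  ∀ T, T ⊆ Hs → 2 ≤ T.card → (cap T).card + T.card ≤ r

lemma Good.inter {r : ℕ} {Hs : Finset (Finset (Fin n))} (h : Good r Hs) {H H' : Finset (Fin n)}
    (hH : H ∈ Hs) (hH' : H' ∈ Hs) (hne : H ≠ H') : (H ∩ H').card + 2 ≤ r := by
  classical
  have h1 := h {H, H'} (by
    intro x hx
    rw [mem_insert, mem_singleton] at hx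
    rcases hx with rfl | rfl
    · exact hH
    · exact hH') (by rw [Finset.card_pair hne])
  rw [Finset.card_pair hne] at h1
  have h2 : cap {H, H'} = H ∩ H' := by
    ext x; rw [mem_cap]; simp
  rwa [h2] at h1

/-- A set of size `r` inside no member of a good family, containing a given smaller set. -/
lemma Good.exists_base {r : ℕ} {Hs : Finset (Finset (Fin n))} (h : Good r Hs)
    (hr : r ≤ n) (huniv : univ ∉ Hs) (hcard : Hs.card ≤ r) (A : Finset (Fin n))
    (hA : A.card < r ∨ A = ∅) :
    ∃ B, A ⊆ B ∧ B.card = r ∧ ∀ H ∈ Hs, ¬ B ⊆ H := by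
  classical
  rcases Nat.eq_zero_or_pos r with hr0 | hr0
  · subst hr0
    have hHs : Hs = ∅ := Finset.card_eq_zero.1 (by omega)
    refine ⟨∅, ?_, rfl, ?_⟩
    · rcases hA with hA | hA
      · omega
      · rw [hA]
    · rw [hHs]; simp
  · have hA' : A.card ≤ r - 1 := by
      rcases hA with hA | hA
      · omega
      · rw [hA]; simp
    obtain ⟨A', hAA', hA'card⟩ := Finset.exists_superset_card_eq (s := A) (n := r - 1) hA'
      (by rw [Fintype.card_fin]; omega)
    by_cases hex : ∃ H ∈ Hs, A' ⊆ H
    · obtain ⟨H, hH, hA'H⟩ := hex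
      have hHne : H ≠ univ := fun h => huniv (h ▸ hH)
      obtain ⟨x, hx⟩ : ∃ x, x ∉ H := by
        by_contra hcon
        push Not at hcon
        exact hHne (Finset.eq_univ_iff_forall.2 hcon)
      refine ⟨insert x A', hAA'.trans (Finset.subset_insert _ _), ?_, ?_⟩
      · rw [Finset.card_insert_of_notMem (fun h => hx (hA'H h))]; omega
      · intro H' hH' hsub
        have hne : H ≠ H' := by
          rintro rfl
          exact hx (hsub (mem_insert_self _ _))
        have h1 := h.inter hH hH' hne
        have h2 : A' ⊆ H ∩ H' :=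
          Finset.subset_inter hA'H ((Finset.subset_insert _ _).trans hsub)
        have h3 := Finset.card_le_card h2
        omega
    · push Not at hex
      obtain ⟨x, hx⟩ : ∃ x, x ∉ A' := by
        by_contra hcon
        push Not at hcon
        have := Finset.eq_univ_iff_forall.2 hcon
        rw [this] at hA'card
        simp at hA'card
        omega
      refine ⟨insert x A', hAA'.trans (Finset.subset_insert _ _), ?_, ?_⟩
      · rw [Finset.card_insert_of_notMem hx]; omega
      · intro H hH hsub
        exact hex H hH ((Finset.subset_insert _ _).trans hsub)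

/-- For good families the basis criterion simplifies. -/
lemma Good.isB_iff {r : ℕ} {Hs : Finset (Finset (Fin n))} (h : Good r Hs) (B : Finset (Fin n)) :
    IsB r Hs B ↔ B.card = r ∧ ∀ H ∈ Hs, ¬ B ⊆ H := by
  classical
  constructor
  · rintro ⟨hB, hT⟩
    refine ⟨hB, fun H hH hsub => ?_⟩
    have h1 := hT {H} (by simpa using hH) (Finset.singleton_nonempty H)
    have h2 : cap {H} = H := by ext x; rw [mem_cap]; simp
    rw [h2, Finset.inter_eq_left.2 hsub, hB] at h1
    simp at h1
  · rintro ⟨hB, hH⟩
    refine ⟨hB, fun T hT hTne => ?_⟩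
    rcases Nat.lt_or_ge T.card 2 with h1 | h1
    · have h2 : T.card = 1 := by
        have := Finset.card_pos.2 hTne; omega
      obtain ⟨H, rfl⟩ := Finset.card_eq_one.1 h2
      have h3 : cap {H} = H := by ext x; rw [mem_cap]; simp
      rw [h3, h2]
      have h4 : ¬ B ⊆ H := hH H (hT (mem_singleton_self H))
      have h5 : (B ∩ H).card < B.card := by
        apply Finset.card_lt_card
        refine Finset.ssubset_iff_subset_ne.2 ⟨Finset.inter_subset_left, fun h6 => h4 ?_⟩
        exact Finset.inter_eq_left.1 h6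
      omega
    · have h2 := h T hT h1
      have h3 : (B ∩ cap T).card ≤ (cap T).card := Finset.card_le_card Finset.inter_subset_right
      omega

/-- Existence: a good family of at most `r` proper subsets of size at least `r` is the family of
large hyperplanes of a transversal matroid. -/
theorem Good.exists_matroid {r : ℕ} {Hs : Finset (Finset (Fin n))} (h : Good r Hs)
    (hr : r ≤ n) (huniv : univ ∉ Hs) (hcard : Hs.card ≤ r) :
    ∃ M : Matroid (Fin n), M.E = Set.univ ∧ IsTransversal M ∧
      ∀ B : Finset (Fin n), M.IsBase B ↔ IsB r Hs B := by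
  classical
  -- the presenting family
  let e : Fin Hs.card ≃ Hs := (Finset.equivFin Hs).symm
  set A : Fin r → Finset (Fin n) := fun i =>
    if hi : i.1 < Hs.card then (e ⟨i.1, hi⟩ : Finset (Fin n))ᶜ else univ with hAdef
  -- Hall's condition for sets of size `r`
  have hhall : ∀ B : Finset (Fin n), B.card = r → (HallB A B ↔ IsB r Hs B) := by
    intro B hB
    rw [h.isB_iff]
    constructor
    · intro hHall
      refine ⟨hB, fun H hH hsub => ?_⟩
      have hi := (e.symm ⟨H, hH⟩).2
      set i : Fin r := ⟨(e.symm ⟨H, hH⟩).1, lt_of_lt_of_le hi hcard⟩ with hidef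
      have hAi : A i = Hᶜ := by
        simp only [hAdef]
        rw [dif_pos hi]
        have : e ⟨i.1, hi⟩ = ⟨H, hH⟩ := by
          rw [← Equiv.apply_symm_apply e ⟨H, hH⟩]
        rw [this]
      have h1 := hHall {i}
      rw [Finset.singleton_biUnion, hAi, Finset.card_singleton] at h1
      have h2 : B ∩ Hᶜ = ∅ := by
        rw [← Finset.sdiff_eq_inter_compl, Finset.sdiff_eq_empty_iff_subset]; exact hsub
      rw [h2] at h1
      simp at h1
    · rintro ⟨-, hHs⟩ S
      rcases S.eq_empty_or_nonempty with hS | hS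
      · rw [hS]; simp
      by_cases hbig : ∃ i ∈ S, ¬ i.1 < Hs.card
      · obtain ⟨i, hiS, hi⟩ := hbig
        have hAi : A i = univ := by simp only [hAdef]; rw [dif_neg hi]
        have h1 : S.biUnion A = univ := by
          rw [Finset.eq_univ_iff_forall]
          intro x
          rw [mem_biUnion]
          exact ⟨i, hiS, by rw [hAi]; exact mem_univ x⟩
        rw [h1, Finset.inter_univ, hB]
        simpa using Finset.card_le_univ S
      · push Not at hbig
        -- the corresponding subfamily
        set F : Fin r → Finset (Fin n) := fun i =>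
          if hi : i.1 < Hs.card then (e ⟨i.1, hi⟩ : Finset (Fin n)) else ∅ with hF
        have hFA : ∀ i ∈ S, A i = (F i)ᶜ := by
          intro i hi
          simp only [hAdef, hF]
          rw [dif_pos (hbig i hi), dif_pos (hbig i hi)]
        have hFinj : Set.InjOn F S := by
          intro i hi j hj hij
          simp only [hF] at hij
          rw [dif_pos (hbig i hi), dif_pos (hbig j hj)] at hij
          have := e.injective (Subtype.ext hij)
          exact Fin.ext (Fin.mk.inj this)
        have hFHs : S.image F ⊆ Hs := by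
          intro H hH
          rw [mem_image] at hH
          obtain ⟨i, hi, rfl⟩ := hH
          simp only [hF]
          rw [dif_pos (hbig i hi)]
          exact (e ⟨i.1, hbig i hi⟩).2
        have hcapF : cap (S.image F) = (S.biUnion A)ᶜ := by
          ext x
          rw [mem_cap, mem_compl, mem_biUnion]
          constructor
          · rintro h1 ⟨i, hi, hxi⟩
            have h2 := h1 (F i) (mem_image_of_mem _ hi)
            rw [hFA i hi, mem_compl] at hxi
            exact hxi h2
          · rintro h1 H hH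
            rw [mem_image] at hH
            obtain ⟨i, hi, rfl⟩ := hH
            by_contra h2
            exact h1 ⟨i, hi, by rw [hFA i hi, mem_compl]; exact h2⟩
        have hIsB := (h.isB_iff B).2 ⟨hB, hHs⟩
        have h1 := hIsB.2 (S.image F) hFHs (hS.image F)
        rw [hcapF, Finset.card_image_of_injOn hFinj] at h1
        have h2 : (B ∩ S.biUnion A).card + (B ∩ (S.biUnion A)ᶜ).card = B.card := by
          rw [← Finset.card_inter_add_card_sdiff B (S.biUnion A), Finset.sdiff_eq_inter_compl]
        omega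
  set A' : Fin r → Set (Fin n) := fun i => (A i : Set (Fin n)) with hA'
  have hindep : ∀ B : Finset (Fin n), B.card = r → ((trMatroid A').Indep B ↔ IsB r Hs B) := by
    intro B hB
    rw [trMatroid_indep]
    rcases Nat.eq_zero_or_pos r with hr0 | hr0
    · have hBe : B = ∅ := Finset.card_eq_zero.1 (by omega)
      rw [← hhall B hB]
      constructor
      · intro _ S
        have h1 : S.card ≤ r := by simpa using Finset.card_le_univ S
        omega
      · intro _
        subst hBe
        exact ⟨fun x => by have := x.2; simp at this, fun x => by have := x.2; simp at this,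
          fun x => by have := x.2; simp at this⟩
    · unfold PT
      rw [match_total hr0, ← hhall B hB, hallB_iff_match hr0 A B hB]
      rfl
  obtain ⟨B₁, -, hB₁card, hB₁⟩ := h.exists_base hr huniv hcard ∅ (Or.inr rfl)
  have hB₁ind : (trMatroid A').Indep B₁ := (hindep B₁ hB₁card).2 ((h.isB_iff B₁).2 ⟨hB₁card, hB₁⟩)
  -- every independent set has at most `r` elements
  have hle : ∀ B : Finset (Fin n), (trMatroid A').Indep B → B.card ≤ r := by
    intro B hB
    rw [trMatroid_indep] at hB
    obtain ⟨f, hf, -⟩ := hB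
    have := Fintype.card_le_of_injective f hf
    simpa using this
  refine ⟨trMatroid A', trMatroid_E A', trMatroid_transversal A', fun B => ?_⟩
  have hrank : ∀ B : Finset (Fin n), (trMatroid A').IsBase B → B.card = r := by
    intro B hB
    have h1 := hle B hB.indep
    obtain ⟨B', hB', hsub⟩ := hB₁ind.exists_isBase_superset
    have h2 : B.card = B'.toFinset.card := by
      have := hB.ncard_eq_ncard_of_isBase hB'
      rw [Set.ncard_coe_finset, Set.ncard_eq_toFinset_card'] at this
      exact this
    have h3 : B₁.card ≤ B'.toFinset.card := by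
      apply Finset.card_le_card
      intro x hx
      rw [Set.mem_toFinset]
      exact hsub hx
    omega
  constructor
  · intro hB
    exact (hindep B (hrank B hB)).1 hB.indep
  · intro hB
    have hBind := (hindep B hB.1).2 hB
    obtain ⟨B', hB', hsub⟩ := hBind.exists_isBase_superset
    have h1 : (B'.toFinset).card = r := hrank _ (by simpa using hB')
    have h2 : B ⊆ B'.toFinset := by
      intro x hx; simpa using hsub hx
    have h3 : B = B'.toFinset := Finset.eq_of_subset_of_card_le h2 (by rw [h1, hB.1])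
    rw [h3]; simpa using hB'

/-- A good family of sets of size at least `r` can be recovered from the bases. -/
theorem Good.unique {r : ℕ} {Hs Hs' : Finset (Finset (Fin n))} (h : Good r Hs) (h' : Good r Hs')
    (hr : 0 < r) (hbig : ∀ H ∈ Hs, r ≤ H.card) (hbig' : ∀ H ∈ Hs', r ≤ H.card)
    (heq : ∀ B : Finset (Fin n), IsB r Hs B ↔ IsB r Hs' B) : Hs = Hs' := by
  classical
  have key : ∀ (Hs Hs' : Finset (Finset (Fin n))), Good r Hs → Good r Hs' →
      (∀ H ∈ Hs, r ≤ H.card) → (∀ H ∈ Hs', r ≤ H.card) →
      (∀ B : Finset (Fin n), IsB r Hs B ↔ IsB r Hs' B) → ∀ H ∈ Hs, ∃ H' ∈ Hs', H ⊆ H' := by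
    intro Hs Hs' h h' hbig hbig' heq H hH
    obtain ⟨B, hBH, hBcard⟩ := Finset.exists_subset_card_eq (hbig H hH)
    have h1 : ¬ IsB r Hs B := by
      rw [h.isB_iff]
      rintro ⟨-, h2⟩
      exact h2 H hH hBH
    rw [heq, h'.isB_iff] at h1
    push Not at h1
    obtain ⟨H', hH', hBH'⟩ := h1 hBcard
    refine ⟨H', hH', ?_⟩
    by_contra hcon
    rw [Finset.not_subset] at hcon
    obtain ⟨x, hxH, hxH'⟩ := hcon
    obtain ⟨b, hb⟩ : B.Nonempty := Finset.card_pos.1 (by omega)
    have hxB : x ∉ B := fun h => hxH' (hBH' h)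
    set B₂ := insert x (B.erase b) with hB₂
    have hB₂card : B₂.card = r := by
      rw [hB₂, Finset.card_insert_of_notMem (fun h => hxB (Finset.mem_of_mem_erase h)),
        Finset.card_erase_of_mem hb]
      omega
    have hB₂H : B₂ ⊆ H := by
      intro y hy
      rw [hB₂, mem_insert, mem_erase] at hy
      rcases hy with rfl | ⟨-, hy⟩
      · exact hxH
      · exact hBH hy
    have h2 : ¬ IsB r Hs B₂ := by
      rw [h.isB_iff]
      rintro ⟨-, h3⟩
      exact h3 H hH hB₂H
    rw [heq, h'.isB_iff] at h2
    push Not at h2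
    obtain ⟨H'', hH'', hB₂H''⟩ := h2 hB₂card
    have hne : H' ≠ H'' := by
      rintro rfl
      exact hxH' (hB₂H'' (mem_insert_self _ _))
    have h3 := h'.inter hH' hH'' hne
    have h4 : B.erase b ⊆ H' ∩ H'' :=
      Finset.subset_inter ((Finset.erase_subset _ _).trans hBH')
        ((Finset.subset_insert _ _).trans hB₂H'')
    have h5 := Finset.card_le_card h4
    rw [Finset.card_erase_of_mem hb] at h5
    omega
  have key2 : ∀ (Hs Hs' : Finset (Finset (Fin n))), Good r Hs → Good r Hs' →
      (∀ H ∈ Hs, r ≤ H.card) → (∀ H ∈ Hs', r ≤ H.card) →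
      (∀ B : Finset (Fin n), IsB r Hs B ↔ IsB r Hs' B) → Hs ⊆ Hs' := by
    intro Hs Hs' h h' hbig hbig' heq H hH
    obtain ⟨H', hH', h1⟩ := key Hs Hs' h h' hbig hbig' heq H hH
    obtain ⟨H'', hH'', h2⟩ := key Hs' Hs h' h hbig' hbig (fun B => (heq B).symm) H' hH'
    have h3 : H = H'' := by
      by_contra hne
      have h4 := h.inter hH hH'' hne
      rw [Finset.inter_eq_left.2 (h1.trans h2)] at h4
      have h5 := hbig H hH
      omega
    have h4 : H = H' := Finset.Subset.antisymm h1 (h3 ▸ h2)
    rw [h4]; exact hH'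
  exact Finset.Subset.antisymm (key2 Hs Hs' h h' hbig hbig' heq)
    (key2 Hs' Hs h' h hbig' hbig (fun B => (heq B).symm))

end Pool.Agent.Helper17.Trans
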