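import Mathlib
import Pool.Agent.Helper17.TransDefs
import Pool.Agent.Helper17.TransStruct
import Pool.Agent.Helper17.TransBase
import Pool.Agent.Helper17.TransExist

set_option autoImplicit false

/-!
# Counting families of large sets
-/

namespace Pool.Agent.Helper17.Trans

open Finset

variable {n : ℕ}

/-- The subsets of `Fin n` of size at least `r`. -/
def FF (n r : ℕ) : Finset (Finset (Fin n)) := univ.filter (fun H => r ≤ H.card)

/-- The families of at most `r` subsets of size at least `r`. -/
def XX (n r : ℕ) : Finset (Finset (Finset (Fin n))) :=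
  (FF n r).powerset.filter (fun Hs => Hs.card ≤ r)

open Classical in
/-- The families in `XX n r` which are not good. -/
noncomputable def Bad (n r : ℕ) : Finset (Finset (Finset (Fin n))) :=
  (XX n r).filter (fun Hs => ¬ Good r Hs)

/-- Partial sums of binomial coefficients. -/
def gg (m d : ℕ) : ℕ := ∑ i ∈ range (d + 1), m.choose i

lemma card_supersets {r : ℕ} (hr : r ≤ n) (S : Finset (Fin n)) :
    ((FF n r).filter (fun H => S ⊆ H)).card = gg (n - S.card) (n - r) := by
  classical
  have h1 : ((FF n r).filter (fun H => S ⊆ H)).card =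
      ((Sᶜ).powerset.filter (fun K => K.card ≤ n - r)).card := by
    refine Finset.card_bij (fun H _ => Hᶜ) ?_ ?_ ?_
    · intro H hH
      rw [mem_filter, FF, mem_filter] at hH
      rw [mem_filter, mem_powerset]
      refine ⟨Finset.compl_subset_compl.2 hH.2, ?_⟩
      rw [Finset.card_compl, Fintype.card_fin]
      omega
    · intro H _ H' _ h
      exact compl_injective h
    · intro K hK
      rw [mem_filter, mem_powerset] at hK
      refine ⟨Kᶜ, ?_, compl_compl K⟩
      rw [mem_filter, FF, mem_filter]
      refine ⟨⟨mem_univ _, ?_⟩, ?_⟩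
      · rw [Finset.card_compl, Fintype.card_fin]; omega
      · have := Finset.compl_subset_compl.2 hK.1
        rwa [compl_compl] at this
  rw [h1, gg]
  have h2 : (Sᶜ).powerset.filter (fun K => K.card ≤ n - r) =
      (range (n - r + 1)).biUnion (fun i => powersetCard i (Sᶜ)) := by
    ext K
    simp only [mem_filter, mem_powerset, mem_biUnion, mem_range, mem_powersetCard]
    constructor
    · rintro ⟨h3, h4⟩; exact ⟨K.card, by omega, h3, rfl⟩
    · rintro ⟨i, h3, h4, h5⟩; exact ⟨h4, by omega⟩
  rw [h2, Finset.card_biUnion]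
  · refine Finset.sum_congr rfl fun i _ => ?_
    rw [Finset.card_powersetCard, Finset.card_compl, Fintype.card_fin]
  · intro i _ j _ hij
    exact Finset.pairwise_disjoint_powersetCard _ hij

lemma card_FF {r : ℕ} (hr : r ≤ n) : (FF n r).card = gg n (n - r) := by
  have h := card_supersets hr (∅ : Finset (Fin n))
  simpa using h

lemma gg_succ (m d : ℕ) : gg (m + 1) d = gg m d + ∑ i ∈ range d, m.choose i := by
  unfold gg
  rw [Finset.sum_range_succ' (fun i => (m + 1).choose i) d]
  simp only [Nat.choose_zero_right, Nat.choose_succ_succ]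
  rw [Finset.sum_add_distrib, Finset.sum_range_succ' (fun i => m.choose i) d]
  simp only [Nat.choose_zero_right]
  ring

lemma gg_step {m d : ℕ} (hd : d ≤ m) : (m + 1 + d) * gg m d ≤ (m + 1) * gg (m + 1) d := by
  rw [gg_succ]
  set G := ∑ i ∈ range d, m.choose i with hG
  have h1 : gg m d = G + m.choose d := by
    rw [gg, Finset.sum_range_succ]
  have h2 : d * gg m d ≤ (m + 1) * G := by
    rcases Nat.eq_zero_or_pos d with h | h
    · subst h; simp
    · obtain ⟨e, rfl⟩ : ∃ e, d = e + 1 := ⟨d - 1, by omega⟩
      have h3 : m.choose e ≤ G := by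
        rw [hG]
        exact Finset.single_le_sum (f := fun i => m.choose i) (fun _ _ => Nat.zero_le _)
          (by simp)
      have h4 := Nat.choose_succ_right_eq m e
      rw [h1]
      have h5 : m.choose e * (m - e) ≤ G * (m - e) := Nat.mul_le_mul_right _ h3
      obtain ⟨f, hf⟩ : ∃ f, m = e + 1 + f := ⟨m - (e + 1), by omega⟩
      have h6 : m - e = f + 1 := by omega
      rw [h6] at h4 h5
      calc (e + 1) * (G + m.choose (e + 1)) = (e + 1) * G + m.choose (e + 1) * (e + 1) := by ring
        _ = (e + 1) * G + m.choose e * (f + 1) := by rw [h4]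
        _ ≤ (e + 1) * G + G * (f + 1) := by omega
        _ ≤ (m + 1) * G := by rw [hf]; nlinarith
  calc (m + 1 + d) * gg m d = (m + 1) * gg m d + d * gg m d := by ring
    _ ≤ (m + 1) * gg m d + (m + 1) * G := by omega
    _ = (m + 1) * (gg m d + G) := by ring

lemma gg_ratio {d : ℕ} (s : ℕ) : ∀ n : ℕ, d + s ≤ n →
    gg (n - s) d * (n + d) ^ s ≤ n ^ s * gg n d := by
  induction s with
  | zero => intro n _; simp
  | succ s ih =>
    intro n hn
    have h1 := ih n (by omega)
    obtain ⟨m, hm⟩ : ∃ m, n - s = m + 1 := ⟨n - s - 1, by omega⟩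
    have h2 : n - (s + 1) = m := by omega
    rw [h2]
    rw [hm] at h1
    have h3 := gg_step (m := m) (d := d) (by omega)
    -- `gg m (n + d) ≤ n gg (m+1)`
    have h4 : gg m d * (n + d) ≤ n * gg (m + 1) d := by
      have h5 : (m + 1) * (gg m d * (n + d)) ≤ (m + 1) * (n * gg (m + 1) d) := by
        have h6 : (m + 1) * (n + d) ≤ n * (m + 1 + d) := by
          have h7 : (m + 1) * d ≤ n * d := Nat.mul_le_mul_right d (by omega)
          nlinarith
        calc (m + 1) * (gg m d * (n + d)) = gg m d * ((m + 1) * (n + d)) := by ring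
          _ ≤ gg m d * (n * (m + 1 + d)) := Nat.mul_le_mul_left _ h6
          _ = n * ((m + 1 + d) * gg m d) := by ring
          _ ≤ n * ((m + 1) * gg (m + 1) d) := Nat.mul_le_mul_left _ h3
          _ = (m + 1) * (n * gg (m + 1) d) := by ring
      exact Nat.le_of_mul_le_mul_left h5 (by omega)
    calc gg m d * (n + d) ^ (s + 1) = (gg m d * (n + d)) * (n + d) ^ s := by ring
      _ ≤ (n * gg (m + 1) d) * (n + d) ^ s := Nat.mul_le_mul_right _ h4
      _ = n * (gg (m + 1) d * (n + d) ^ s) := by ring
      _ ≤ n * (n ^ s * gg n d) := Nat.mul_le_mul_left _ h1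
      _ = n ^ (s + 1) * gg n d := by ring

lemma gg_le_two_pow (m d : ℕ) : gg m d ≤ 2 ^ m := by
  unfold gg
  rcases Nat.lt_or_ge d m with h | h
  · calc ∑ i ∈ range (d + 1), m.choose i ≤ ∑ i ∈ range (m + 1), m.choose i :=
        Finset.sum_le_sum_of_subset (by intro x; simp; omega)
      _ = 2 ^ m := Nat.sum_range_choose m
  · apply le_of_eq
    rw [← Nat.sum_range_choose m]
    symm
    apply Finset.sum_subset
    · intro x; simp; omega
    · intro x _ hx
      simp at hx
      exact Nat.choose_eq_zero_of_lt (by omega)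

/-- Number of subsets of size at most `j` of a set with `N` elements. -/
def YY (N j : ℕ) : ℕ := ∑ m ∈ range (j + 1), N.choose m

lemma card_subfamilies {α : Type} [DecidableEq α] (s : Finset α) (j : ℕ) :
    (s.powerset.filter (fun t => t.card ≤ j)).card = YY s.card j := by
  have h2 : s.powerset.filter (fun K => K.card ≤ j) =
      (range (j + 1)).biUnion (fun i => powersetCard i s) := by
    ext K
    simp only [mem_filter, mem_powerset, mem_biUnion, mem_range, mem_powersetCard]
    constructor
    · rintro ⟨h3, h4⟩; exact ⟨K.card, by omega, h3, rfl⟩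
    · rintro ⟨i, h3, h4, h5⟩; exact ⟨h4, by omega⟩
  rw [h2, Finset.card_biUnion]
  · unfold YY
    refine Finset.sum_congr rfl fun i _ => ?_
    rw [Finset.card_powersetCard]
  · intro i _ j _ hij
    exact Finset.pairwise_disjoint_powersetCard _ hij

lemma YY_le_pow (N j : ℕ) : YY N j ≤ (N + 1) ^ j := by
  induction j with
  | zero => simp [YY]
  | succ j ih =>
    unfold YY at ih ⊢
    rw [Finset.sum_range_succ]
    have h1 : N.choose (j + 1) ≤ N ^ (j + 1) := Nat.choose_le_pow _ _
    have h2 : N ^ (j + 1) ≤ N * (N + 1) ^ j := by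
      rw [pow_succ, mul_comm]
      exact Nat.mul_le_mul_left _ (Nat.pow_le_pow_left (by omega) _)
    calc _ ≤ (N + 1) ^ j + N * (N + 1) ^ j := by omega
      _ = (N + 1) ^ (j + 1) := by ring

lemma YY_le_two_choose {N : ℕ} (j : ℕ) (h : 3 * j ≤ N + 1) : YY N j ≤ 2 * N.choose j := by
  induction j with
  | zero => simp [YY]
  | succ j ih =>
    have h1 := ih (by omega)
    unfold YY at h1 ⊢
    rw [Finset.sum_range_succ]
    have h2 : 2 * N.choose j ≤ N.choose (j + 1) := by
      have h3 := Nat.choose_succ_right_eq N j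
      have h4 : 2 * (j + 1) ≤ N - j := by omega
      have h5 : N.choose j * (2 * (j + 1)) ≤ N.choose (j + 1) * (j + 1) := by
        rw [h3]; exact Nat.mul_le_mul_left _ h4
      have h6 : 2 * N.choose j * (j + 1) ≤ N.choose (j + 1) * (j + 1) := by
        calc 2 * N.choose j * (j + 1) = N.choose j * (2 * (j + 1)) := by ring
          _ ≤ _ := h5
      exact Nat.le_of_mul_le_mul_right h6 (by omega)
    omega

lemma choose_ratio {N r k g : ℕ} (hk : k ≤ r) (hr : r ≤ N) :
    g.choose k * N.choose (r - k) * (N - r + 1) ^ k ≤ r.choose k * g ^ k * N.choose r := by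
  have h1 : N.choose r * r.choose (r - k) = N.choose (r - k) * (N - (r - k)).choose (r - (r - k)) :=
    Nat.choose_mul (by omega)
  have h2 : r - (r - k) = k := by omega
  have h3 : N - (r - k) = N - r + k := by omega
  rw [h2, h3, Nat.choose_symm hk] at h1
  have h4 : g.choose k * k.factorial ≤ g ^ k := by
    rw [mul_comm, ← Nat.descFactorial_eq_factorial_mul_choose]
    exact Nat.descFactorial_le_pow g k
  have h5 : (N - r + 1) ^ k ≤ (N - r + k).choose k * k.factorial := by
    rw [mul_comm, ← Nat.descFactorial_eq_factorial_mul_choose]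
    have := Nat.pow_sub_le_descFactorial (N - r + k) k
    have h6 : N - r + k + 1 - k = N - r + 1 := by omega
    rwa [h6] at this
  have h6 : g.choose k * (N - r + 1) ^ k ≤ g ^ k * (N - r + k).choose k := by
    have hpos : 0 < k.factorial := Nat.factorial_pos k
    have h7 : (g.choose k * (N - r + 1) ^ k) * k.factorial ≤
        (g ^ k * (N - r + k).choose k) * k.factorial := by
      calc (g.choose k * (N - r + 1) ^ k) * k.factorial
          = (g.choose k * k.factorial) * (N - r + 1) ^ k := by ring
        _ ≤ g ^ k * ((N - r + k).choose k * k.factorial) := Nat.mul_le_mul h4 h5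
        _ = _ := by ring
    exact Nat.le_of_mul_le_mul_right h7 hpos
  calc g.choose k * N.choose (r - k) * (N - r + 1) ^ k
      = (g.choose k * (N - r + 1) ^ k) * N.choose (r - k) := by ring
    _ ≤ (g ^ k * (N - r + k).choose k) * N.choose (r - k) := Nat.mul_le_mul_right _ h6
    _ = g ^ k * (N.choose (r - k) * (N - r + k).choose k) := by ring
    _ = g ^ k * (N.choose r * r.choose k) := by rw [h1]
    _ = _ := by ring

/-- The union bound for families which are not good. -/
lemma card_Bad_le {r : ℕ} (hr : r ≤ n) :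
    (Bad n r).card ≤ ∑ k ∈ Icc 2 r, n.choose (r - k + 1) *
      ((gg (n - (r - k + 1)) (n - r)).choose k * YY (gg n (n - r)) (r - k)) := by
  classical
  set U : Finset (Finset (Finset (Fin n))) := (Icc 2 r).biUnion (fun k =>
    (powersetCard (r - k + 1) (univ : Finset (Fin n))).biUnion (fun S =>
      ((powersetCard k ((FF n r).filter (fun H => S ⊆ H))) ×ˢ
        ((FF n r).powerset.filter (fun t => t.card ≤ r - k))).image (fun p => p.1 ∪ p.2))) with hU
  have hsub : Bad n r ⊆ U := by
    intro Hs hHs
    unfold Bad XX at hHs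
    rw [mem_filter, mem_filter, mem_powerset] at hHs
    obtain ⟨⟨hHsFF, hHscard⟩, hbad⟩ := hHs
    unfold Good at hbad
    push Not at hbad
    obtain ⟨T, hT, hT2, hTcap⟩ := hbad
    have hTr : T.card ≤ r := (Finset.card_le_card hT).trans hHscard
    obtain ⟨S, hScap, hScard⟩ := Finset.exists_subset_card_eq (s := cap T) (n := r - T.card + 1)
      (by omega)
    rw [hU, mem_biUnion]
    refine ⟨T.card, by rw [mem_Icc]; exact ⟨hT2, hTr⟩, ?_⟩
    rw [mem_biUnion]
    refine ⟨S, by rw [mem_powersetCard]; exact ⟨subset_univ _, hScard⟩, ?_⟩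
    rw [mem_image]
    refine ⟨(T, Hs \ T), ?_, ?_⟩
    · rw [mem_product]
      constructor
      · rw [mem_powersetCard]
        refine ⟨fun H hH => ?_, rfl⟩
        rw [mem_filter]
        refine ⟨hHsFF (hT hH), fun x hx => ?_⟩
        exact (mem_cap.1 (hScap hx)) H hH
      · rw [mem_filter, mem_powerset]
        refine ⟨Finset.sdiff_subset.trans hHsFF, ?_⟩
        have := Finset.card_sdiff_add_card_eq_card hT
        show (Hs \ T).card ≤ r - T.card
        omega
    · exact Finset.union_sdiff_of_subset hT
  refine (Finset.card_le_card hsub).trans ?_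
  rw [hU]
  refine Finset.card_biUnion_le.trans (Finset.sum_le_sum fun k _ => ?_)
  refine Finset.card_biUnion_le.trans ?_
  have h1 : ∀ S ∈ powersetCard (r - k + 1) (univ : Finset (Fin n)),
      (((powersetCard k ((FF n r).filter (fun H => S ⊆ H))) ×ˢ
        ((FF n r).powerset.filter (fun t => t.card ≤ r - k))).image (fun p => p.1 ∪ p.2)).card ≤
      (gg (n - (r - k + 1)) (n - r)).choose k * YY (gg n (n - r)) (r - k) := by
    intro S hS
    rw [mem_powersetCard] at hS
    refine Finset.card_image_le.trans ?_
    rw [Finset.card_product, Finset.card_powersetCard, card_supersets hr, hS.2,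
      card_subfamilies, card_FF hr]
  refine (Finset.sum_le_sum h1).trans ?_
  rw [Finset.sum_const, Finset.card_powersetCard, Finset.card_univ, Fintype.card_fin, smul_eq_mul]

end Pool.Agent.Helper17.Trans
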