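import Mathlib

set_option autoImplicit false

/-!
# Entropy lower bounds for binomial coefficients
-/

namespace Pool.Agent.Helper17.Trans

open Finset

/-- The term of the binomial expansion of `(d + (n-d))^n`. -/
private def tm (n d i : ℕ) : ℕ := d ^ i * (n - d) ^ (n - i) * n.choose i

lemma tm_step {n d i : ℕ} (hi : i < n) (hd : d < n) :
    tm n d (i + 1) * ((i + 1) * (n - d)) = tm n d i * ((n - i) * d) := by
  unfold tm
  have h1 := Nat.choose_succ_right_eq n i
  have h2 : n - i = (n - (i + 1)) + 1 := by omega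
  calc d ^ (i + 1) * (n - d) ^ (n - (i + 1)) * n.choose (i + 1) * ((i + 1) * (n - d))
      = d ^ (i + 1) * ((n - d) ^ (n - (i + 1)) * (n - d)) * (n.choose (i + 1) * (i + 1)) := by
        ring
    _ = d ^ (i + 1) * (n - d) ^ (n - i) * (n.choose i * (n - i)) := by
        rw [h1, ← pow_succ, ← h2]
    _ = d ^ i * (n - d) ^ (n - i) * n.choose i * ((n - i) * d) := by ring

lemma tm_le {n d : ℕ} (hd : d < n) (i : ℕ) (hi : i ≤ n) : tm n d i ≤ tm n d d := by
  rcases Nat.lt_or_ge i d with h | h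
  · -- increasing part
    have key : ∀ j, j ≤ d → tm n d (d - j) ≤ tm n d d := by
      intro j
      induction j with
      | zero => intro _; simp
      | succ j ih =>
        intro hj
        have h1 := ih (by omega)
        refine le_trans ?_ h1
        obtain ⟨i, hi⟩ : ∃ i, d - j = i + 1 := ⟨d - j - 1, by omega⟩
        have h2 : d - (j + 1) = i := by omega
        rw [h2, hi]
        have h3 := tm_step (n := n) (d := d) (i := i) (by omega) hd
        have h4 : (i + 1) * (n - d) ≤ (n - i) * d := by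
          obtain ⟨e, he⟩ : ∃ e, n = d + e := ⟨n - d, by omega⟩
          obtain ⟨f, hf⟩ : ∃ f, d = i + 1 + f := ⟨d - (i + 1), by omega⟩
          have h5 : n - d = e := by omega
          have h6 : n - i = 1 + f + e := by omega
          rw [h5, h6, hf]
          nlinarith [Nat.zero_le (i * f), Nat.zero_le (f * e), Nat.zero_le (i * e)]
        have hpos : 0 < (i + 1) * (n - d) := Nat.mul_pos (by omega) (by omega)
        have h7 : tm n d i * ((i + 1) * (n - d)) ≤ tm n d (i + 1) * ((i + 1) * (n - d)) := by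
          rw [h3]; exact Nat.mul_le_mul_left _ h4
        exact Nat.le_of_mul_le_mul_right h7 hpos
    have := key (d - i) (by omega)
    rwa [show d - (d - i) = i by omega] at this
  · -- decreasing part
    have key : ∀ j, d + j ≤ n → tm n d (d + j) ≤ tm n d d := by
      intro j
      induction j with
      | zero => intro _; simp
      | succ j ih =>
        intro hj
        have h1 := ih (by omega)
        refine le_trans ?_ h1
        have h3 := tm_step (n := n) (d := d) (i := d + j) (by omega) hd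
        have h4 : (n - (d + j)) * d ≤ (d + j + 1) * (n - d) := by
          have h5 : n - (d + j) ≤ n - d := by omega
          calc (n - (d + j)) * d ≤ (n - d) * d := Nat.mul_le_mul_right _ h5
            _ = d * (n - d) := by ring
            _ ≤ (d + j + 1) * (n - d) := Nat.mul_le_mul_right _ (by omega)
        have hpos : 0 < (d + j + 1) * (n - d) := Nat.mul_pos (by omega) (by omega)
        have h7 : tm n d (d + j + 1) * ((d + j + 1) * (n - d)) ≤
            tm n d (d + j) * ((d + j + 1) * (n - d)) := by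
          rw [h3]; exact Nat.mul_le_mul_left _ h4
        exact Nat.le_of_mul_le_mul_right h7 hpos
    have := key (i - d) (by omega)
    rwa [show d + (i - d) = i by omega] at this

lemma mode_bound {n d : ℕ} (hd : d < n) :
    n ^ n ≤ (n + 1) * (d ^ d * (n - d) ^ (n - d) * n.choose d) := by
  have h1 : n ^ n = ∑ i ∈ range (n + 1), tm n d i := by
    have h2 : n ^ n = (d + (n - d)) ^ n := by
      rw [Nat.add_sub_cancel' hd.le]
    rw [h2, add_pow]
    refine Finset.sum_congr rfl fun i _ => ?_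
    unfold tm
    simp
  rw [h1]
  calc ∑ i ∈ range (n + 1), tm n d i ≤ ∑ i ∈ range (n + 1), tm n d d :=
        Finset.sum_le_sum fun i hi => tm_le hd i (by rw [mem_range] at hi; omega)
    _ = _ := by rw [Finset.sum_const, card_range, smul_eq_mul]; rfl

/-- Entropy form of the mode bound. -/
lemma entropy_bound {n d : ℕ} (hd0 : 0 < d) (hd : d < n) :
    Real.exp (n * Real.binEntropy (d / n)) ≤ (n + 1) * (n.choose d : ℝ) := by
  have hn : (0 : ℝ) < n := by exact_mod_cast (by omega : 0 < n)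
  have hdr : (0 : ℝ) < d := by exact_mod_cast hd0
  have hnd : (0 : ℝ) < (n : ℝ) - d := by
    have : (d : ℝ) < n := by exact_mod_cast hd
    linarith
  have h1 : (n : ℝ) ^ n ≤ (n + 1) * ((d : ℝ) ^ d * ((n : ℝ) - d) ^ (n - d) * n.choose d) := by
    have h2 := mode_bound hd
    have h3 : ((n ^ n : ℕ) : ℝ) ≤ (((n + 1) * (d ^ d * (n - d) ^ (n - d) * n.choose d) : ℕ) : ℝ) :=
      by exact_mod_cast h2
    push_cast [Nat.cast_sub hd.le] at h3
    exact h3
  have h4 : Real.exp (n * Real.binEntropy (d / n)) =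
      (n : ℝ) ^ n / ((d : ℝ) ^ d * ((n : ℝ) - d) ^ (n - d)) := by
    rw [Real.binEntropy]
    have e1 : (1 : ℝ) - d / n = (n - d) / n := by field_simp
    rw [e1, inv_div, inv_div, Real.log_div hn.ne' hdr.ne', Real.log_div hn.ne' hnd.ne']
    have e2 : (n : ℝ) * ((d : ℝ) / n * (Real.log n - Real.log d) +
        ((n : ℝ) - d) / n * (Real.log n - Real.log (n - d))) =
        n * Real.log n - (d * Real.log d + ((n - d : ℕ) : ℝ) * Real.log (n - d)) := by
      rw [Nat.cast_sub hd.le]
      field_simp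
      ring
    rw [e2, Real.exp_sub, Real.exp_add, mul_comm (n : ℝ) (Real.log n), mul_comm (d : ℝ),
      mul_comm (((n - d : ℕ) : ℝ)), Real.exp_mul, Real.exp_mul, Real.exp_mul, Real.exp_log hn,
      Real.exp_log hdr, Real.exp_log hnd, Real.rpow_natCast, Real.rpow_natCast,
      Real.rpow_natCast]
  rw [h4, div_le_iff₀ (by positivity)]
  calc (n : ℝ) ^ n ≤ _ := h1
    _ = _ := by ring

lemma chord {p δ : ℝ} (hp0 : 0 < p) (hp1 : p ≤ 1) (hδ0 : 0 ≤ δ) (hδ : δ ≤ p) :
    δ / p * Real.binEntropy p ≤ Real.binEntropy δ := by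
  have h := Real.strictConcave_binEntropy.concaveOn
  have ha : (0 : ℝ) ≤ δ / p := by positivity
  have hb : (0 : ℝ) ≤ 1 - δ / p := by rw [sub_nonneg, div_le_one hp0]; exact hδ
  have hx : p ∈ Set.Icc (0 : ℝ) 1 := ⟨hp0.le, hp1⟩
  have hy : (0 : ℝ) ∈ Set.Icc (0 : ℝ) 1 := ⟨le_refl _, zero_le_one⟩
  have h1 := h.2 hx hy ha hb (by ring)
  simp only [smul_eq_mul, Real.binEntropy_zero, mul_zero, add_zero] at h1
  rwa [div_mul_cancel₀ _ hp0.ne'] at h1

/-- `C(n,d) ≥ 4^d e^{d/5} / (n+1)` for `d ≤ 3n/7`. -/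
lemma lower_one {n d : ℕ} (hd0 : 0 < d) (hd : 7 * d ≤ 3 * n) :
    (4 : ℝ) ^ d * Real.exp (d / 5) ≤ (n + 1) * (n.choose d : ℝ) := by
  have hn : (0 : ℝ) < n := by exact_mod_cast (by omega : 0 < n)
  refine le_trans ?_ (entropy_bound hd0 (by omega))
  have h1 := chord (p := 3 / 7) (δ := (d : ℝ) / n) (by norm_num) (by norm_num) (by positivity)
    (by
      rw [div_le_div_iff₀ hn (by norm_num)]
      have : (7 : ℝ) * d ≤ 3 * n := by exact_mod_cast hd
      linarith)
  have h2 : Real.log 4 + 1 / 5 ≤ (7 / 3) * Real.binEntropy (3 / 7) := by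
    rw [Real.binEntropy]
    have e1 : (1 : ℝ) - 3 / 7 = 4 / 7 := by norm_num
    rw [e1, inv_div, inv_div]
    have e2 : (7 : ℝ) / 3 * (3 / 7 * Real.log (7 / 3) + 4 / 7 * Real.log (7 / 4)) =
        1 / 3 * Real.log ((7 / 3) ^ 3 * (7 / 4) ^ 4) := by
      rw [Real.log_mul (by norm_num) (by norm_num), Real.log_pow, Real.log_pow]
      push_cast
      ring
    rw [e2]
    have e3 : Real.log 4 + 1 / 5 = 1 / 3 * (Real.log (4 ^ 3) + 3 / 5) := by
      rw [Real.log_pow]; push_cast; ring
    rw [e3]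
    have e4 : Real.log (4 ^ 3) + 3 / 5 ≤ Real.log ((7 / 3) ^ 3 * (7 / 4) ^ 4) := by
      have e5 : Real.log ((7 / 3) ^ 3 * (7 / 4) ^ 4) =
          Real.log (4 ^ 3) + Real.log ((7 / 3) ^ 3 * (7 / 4) ^ 4 / 4 ^ 3) := by
        rw [Real.log_div (by norm_num) (by norm_num)]; ring
      rw [e5]
      have e6 : (3 / 5 : ℝ) ≤ Real.log ((7 / 3) ^ 3 * (7 / 4) ^ 4 / 4 ^ 3) := by
        rw [Real.le_log_iff_exp_le (by norm_num)]
        have e7 : Real.exp (3 / 5) ^ 5 ≤ (1.86 : ℝ) ^ 5 := by
          rw [← Real.exp_nat_mul]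
          have e8 : ((5 : ℕ) : ℝ) * (3 / 5) = ((3 : ℕ) : ℝ) * 1 := by norm_num
          rw [e8, Real.exp_nat_mul]
          have e9 := Real.exp_one_lt_d9
          calc Real.exp 1 ^ 3 ≤ (2.7182818286 : ℝ) ^ 3 :=
                pow_le_pow_left₀ (Real.exp_pos 1).le e9.le 3
            _ ≤ (1.86 : ℝ) ^ 5 := by norm_num
        have e10 := le_of_pow_le_pow_left₀ (by norm_num) (by norm_num) e7
        refine e10.trans ?_
        norm_num
      linarith
    linarith
  have h3 : (4 : ℝ) ^ d * Real.exp (d / 5) = Real.exp (d * (Real.log 4 + 1 / 5)) := by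
    rw [mul_add, Real.exp_add, mul_comm (d : ℝ) (Real.log 4), Real.exp_mul,
      Real.exp_log (by norm_num), Real.rpow_natCast]
    congr 2
    ring
  rw [h3]
  apply Real.exp_le_exp.2
  have hdr : (0 : ℝ) < d := by exact_mod_cast hd0
  calc (d : ℝ) * (Real.log 4 + 1 / 5) ≤ d * ((7 / 3) * Real.binEntropy (3 / 7)) := by
        apply mul_le_mul_of_nonneg_left h2 hdr.le
    _ = n * ((d : ℝ) / n / (3 / 7) * Real.binEntropy (3 / 7)) := by field_simp
    _ ≤ n * Real.binEntropy (d / n) := mul_le_mul_of_nonneg_left h1 hn.le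

/-- `C(n,d) ≥ (27/4)^d / (n+1)` for `d ≤ n/3`. -/
lemma lower_two {n d : ℕ} (hd0 : 0 < d) (hd : 3 * d ≤ n) :
    (27 / 4 : ℝ) ^ d ≤ (n + 1) * (n.choose d : ℝ) := by
  have hn : (0 : ℝ) < n := by exact_mod_cast (by omega : 0 < n)
  refine le_trans ?_ (entropy_bound hd0 (by omega))
  have h1 := chord (p := 1 / 3) (δ := (d : ℝ) / n) (by norm_num) (by norm_num) (by positivity)
    (by
      rw [div_le_div_iff₀ hn (by norm_num)]
      have : (3 : ℝ) * d ≤ n := by exact_mod_cast hd
      linarith)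
  have h2 : 3 * Real.binEntropy (1 / 3) = Real.log (27 / 4) := by
    rw [Real.binEntropy]
    have e1 : (1 : ℝ) - 1 / 3 = 2 / 3 := by norm_num
    rw [e1, inv_div, inv_div]
    have e2 : (27 / 4 : ℝ) = 3 * (3 / 2) ^ 2 := by norm_num
    rw [e2, Real.log_mul (by norm_num) (by norm_num), Real.log_pow]
    push_cast
    ring
  have h3 : (27 / 4 : ℝ) ^ d = Real.exp (d * Real.log (27 / 4)) := by
    rw [mul_comm, Real.exp_mul, Real.exp_log (by norm_num), Real.rpow_natCast]
  rw [h3]
  apply Real.exp_le_exp.2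
  calc (d : ℝ) * Real.log (27 / 4) = n * ((d : ℝ) / n / (1 / 3) * Real.binEntropy (1 / 3)) := by
        rw [← h2]; field_simp
    _ ≤ n * Real.binEntropy (d / n) := mul_le_mul_of_nonneg_left h1 hn.le

end Pool.Agent.Helper17.Trans
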