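import Mathlib
import Pool.Agent.Helper17.TransCount
import Pool.Agent.Helper17.TransEntropy

set_option autoImplicit false

/-!
# Almost all families are good
-/

namespace Pool.Agent.Helper17.Trans

open Finset Filter

lemma ev_exp (k : ℕ) (K b : ℝ) (hb : 0 < b) :
    ∀ᶠ n : ℕ in atTop, K * ((n : ℝ) + 1) ^ k ≤ Real.exp (b * n) := by
  have h1 := isLittleO_pow_exp_pos_mul_atTop (k := k) hb
  have hc : 0 < 1 / (|K| * Real.exp b + 1) := by positivity
  have h2 := h1.def hc
  have h3 : Tendsto (fun n : ℕ => (n : ℝ) + 1) atTop atTop :=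
    tendsto_atTop_add_const_right _ _ tendsto_natCast_atTop_atTop
  filter_upwards [h3.eventually h2] with n hn
  rw [Real.norm_of_nonneg (by positivity), Real.norm_of_nonneg (by positivity)] at hn
  have h4 : |K| * Real.exp b * ((n : ℝ) + 1) ^ k ≤ Real.exp (b * (n + 1)) := by
    calc |K| * Real.exp b * ((n : ℝ) + 1) ^ k ≤ (|K| * Real.exp b + 1) * ((n : ℝ) + 1) ^ k := by
          apply mul_le_mul_of_nonneg_right _ (by positivity)
          linarith
      _ ≤ (|K| * Real.exp b + 1) * (1 / (|K| * Real.exp b + 1) * Real.exp (b * (n + 1))) :=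
          mul_le_mul_of_nonneg_left hn (by positivity)
      _ = Real.exp (b * (n + 1)) := by field_simp
  have h5 : Real.exp (b * (n + 1)) = Real.exp b * Real.exp (b * n) := by
    rw [← Real.exp_add]; ring_nf
  rw [h5] at h4
  have h6 : |K| * ((n : ℝ) + 1) ^ k ≤ Real.exp (b * n) := by
    have h7 : Real.exp b * (|K| * ((n : ℝ) + 1) ^ k) ≤ Real.exp b * Real.exp (b * n) := by
      calc Real.exp b * (|K| * ((n : ℝ) + 1) ^ k) = |K| * Real.exp b * ((n : ℝ) + 1) ^ k := by ring
        _ ≤ _ := h4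
    exact le_of_mul_le_mul_left h7 (Real.exp_pos b)
  refine le_trans ?_ h6
  exact mul_le_mul_of_nonneg_right (le_abs_self K) (by positivity)

/-- `(N - r + 1)^k ≥ N^k / 2`. -/
lemma pow_half {N r k : ℕ} (hk : k ≤ r) (hN : 2 * r ^ 2 ≤ N) (hr : 0 < r) :
    (N : ℝ) ^ k ≤ 2 * ((N - r + 1 : ℕ) : ℝ) ^ k := by
  have hrN : r ≤ N := by nlinarith
  have hNpos : (0 : ℝ) < N := by exact_mod_cast (by nlinarith : 0 < N)
  have h1 : ((N - r + 1 : ℕ) : ℝ) = N * (1 + -((r - 1) / N)) := by
    push_cast [Nat.cast_sub hrN]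
    field_simp
    ring
  have hr1 : (1 : ℝ) ≤ r := by exact_mod_cast hr
  have hN' : 2 * (r : ℝ) ^ 2 ≤ N := by exact_mod_cast hN
  have h2 : ((r : ℝ) - 1) / N ≤ 1 := by
    rw [div_le_one hNpos]; nlinarith
  have h3 := one_add_mul_le_pow (a := -(((r : ℝ) - 1) / N)) (by linarith) k
  have h4 : (k : ℝ) * (((r : ℝ) - 1) / N) ≤ 1 / 2 := by
    have hk' : (k : ℝ) ≤ r := by exact_mod_cast hk
    rw [← mul_div_assoc, div_le_div_iff₀ hNpos (by norm_num)]
    nlinarith [mul_nonneg (sub_nonneg.2 hk') (sub_nonneg.2 hr1)]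
  rw [h1, mul_pow]
  have h5 : (1 : ℝ) / 2 ≤ (1 + -(((r : ℝ) - 1) / N)) ^ k := by
    refine le_trans ?_ h3
    linarith
  nlinarith [pow_pos hNpos k]

lemma term_bound {n r k : ℕ} {N g : ℕ} (hk2 : 2 ≤ k) (hk : k ≤ r) (hN : 2 * r ^ 2 ≤ N) (x : ℝ)
    (hx : 0 ≤ x) :
    x * ((g.choose k * YY N (r - k) : ℕ) : ℝ) ≤
      4 * (x * (r.choose k : ℝ) * ((g : ℝ) / N) ^ k) * (N.choose r : ℝ) := by
  have hr : 0 < r := by omega
  have hrN : r ≤ N := by nlinarith
  have hNpos : (0 : ℝ) < N := by exact_mod_cast (by nlinarith : 0 < N)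
  have h1 := choose_ratio (N := N) (r := r) (k := k) (g := g) hk hrN
  have h2 : YY N (r - k) ≤ 2 * N.choose (r - k) := YY_le_two_choose _ (by
    have : r * 2 ≤ r * r := Nat.mul_le_mul_left r (by omega)
    nlinarith [Nat.sub_le r k])
  have h3 := pow_half hk hN hr
  have h1' : (g.choose k : ℝ) * N.choose (r - k) * ((N - r + 1 : ℕ) : ℝ) ^ k ≤
      r.choose k * (g : ℝ) ^ k * N.choose r := by exact_mod_cast h1
  have h2' : (YY N (r - k) : ℝ) ≤ 2 * N.choose (r - k) := by exact_mod_cast h2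
  have h4 : (g.choose k : ℝ) * N.choose (r - k) * (N : ℝ) ^ k ≤
      2 * (r.choose k * (g : ℝ) ^ k * N.choose r) := by
    calc (g.choose k : ℝ) * N.choose (r - k) * (N : ℝ) ^ k
        ≤ (g.choose k : ℝ) * N.choose (r - k) * (2 * ((N - r + 1 : ℕ) : ℝ) ^ k) :=
          mul_le_mul_of_nonneg_left h3 (by positivity)
      _ = 2 * ((g.choose k : ℝ) * N.choose (r - k) * ((N - r + 1 : ℕ) : ℝ) ^ k) := by ring
      _ ≤ _ := by linarith
  have h5 : (g.choose k : ℝ) * N.choose (r - k) ≤
      2 * (r.choose k * ((g : ℝ) / N) ^ k * N.choose r) := by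
    rw [div_pow]
    have hNk : (0 : ℝ) < (N : ℝ) ^ k := pow_pos hNpos k
    rw [← sub_nonneg]
    have : 0 ≤ (2 * (r.choose k * ((g : ℝ) ^ k / (N : ℝ) ^ k) * N.choose r) -
        (g.choose k : ℝ) * N.choose (r - k)) * (N : ℝ) ^ k := by
      have e : (2 * (r.choose k * ((g : ℝ) ^ k / (N : ℝ) ^ k) * N.choose r) -
        (g.choose k : ℝ) * N.choose (r - k)) * (N : ℝ) ^ k =
        2 * (r.choose k * (g : ℝ) ^ k * N.choose r) -
          (g.choose k : ℝ) * N.choose (r - k) * (N : ℝ) ^ k := by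
        field_simp
      rw [e]; linarith
    exact nonneg_of_mul_nonneg_left this hNk
  push_cast
  calc x * ((g.choose k : ℝ) * (YY N (r - k) : ℝ))
      ≤ x * ((g.choose k : ℝ) * (2 * N.choose (r - k))) := by
        apply mul_le_mul_of_nonneg_left _ hx
        exact mul_le_mul_of_nonneg_left h2' (by positivity)
    _ = 2 * (x * ((g.choose k : ℝ) * N.choose (r - k))) := by ring
    _ ≤ 2 * (x * (2 * (r.choose k * ((g : ℝ) / N) ^ k * N.choose r))) := by
        apply mul_le_mul_of_nonneg_left _ (by norm_num)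
        exact mul_le_mul_of_nonneg_left h5 hx
    _ = _ := by ring

lemma choose_down {n r : ℕ} (hr : r ≤ n) (hn : 0 < n) (j : ℕ) (hj : j ≤ r) :
    n.choose (r - j) ≤ n ^ j * n.choose r := by
  induction j with
  | zero => simp
  | succ j ih =>
    have h1 := ih (by omega)
    obtain ⟨i, hi⟩ : ∃ i, r - j = i + 1 := ⟨r - j - 1, by omega⟩
    have h2 : r - (j + 1) = i := by omega
    rw [h2]
    rw [hi] at h1
    have h3 := Nat.choose_succ_right_eq n i
    -- C(n,i)(n-i) = C(n,i+1)(i+1)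
    have h4 : n.choose i ≤ n * n.choose (i + 1) := by
      have h5 : 1 ≤ n - i := by omega
      calc n.choose i ≤ n.choose i * (n - i) := Nat.le_mul_of_pos_right _ (by omega)
        _ = n.choose (i + 1) * (i + 1) := h3.symm
        _ ≤ n.choose (i + 1) * n := Nat.mul_le_mul_left _ (by omega)
        _ = n * n.choose (i + 1) := by ring
    calc n.choose i ≤ n * n.choose (i + 1) := h4
      _ ≤ n * (n ^ j * n.choose r) := Nat.mul_le_mul_left _ h1
      _ = n ^ (j + 1) * n.choose r := by ring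

lemma choose_le_gg {n r : ℕ} (hr : r ≤ n) : n.choose r ≤ gg n (n - r) := by
  rw [← Nat.choose_symm hr]
  unfold gg
  exact Finset.single_le_sum (f := fun i => n.choose i) (fun _ _ => Nat.zero_le _) (by simp)

/-- The main estimate: bad families are rare. -/
theorem bad_bound : ∀ᶠ n : ℕ in atTop, ∀ r, r ≤ n → n ≤ 20 * (n - r) → 7 * (n - r) ≤ 3 * n →
    ((Bad n r).card : ℝ) ≤
      4 * ((n : ℝ) + 1) ^ 4 * Real.exp (-((n : ℝ) / 21000)) * ((gg n (n - r)).choose r : ℝ) := by
  filter_upwards [ev_exp 3 2 (1 / 100) (by norm_num), ev_exp 2 1 (1 / 21000) (by norm_num),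
    ev_exp 1 1 (1 / 200) (by norm_num), ev_exp 3 1 (1 / 250) (by norm_num),
    eventually_ge_atTop 100] with n hn1 hn2 hn3 hn4 hn100 r hr hW1 hW2
  set d := n - r with hd
  set N := gg n d with hN
  have hd0 : 0 < d := by omega
  have hnr : (0 : ℝ) < n := by exact_mod_cast (by omega : 0 < n)
  have hdr : (n : ℝ) ≤ 20 * d := by exact_mod_cast hW1
  have hrn : (r : ℝ) ≤ n := by exact_mod_cast hr
  have hlow : (4 : ℝ) ^ d * Real.exp (d / 5) ≤ (n + 1) * (N : ℝ) := by
    refine (lower_one hd0 hW2).trans ?_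
    apply mul_le_mul_of_nonneg_left _ (by positivity)
    have := choose_le_gg hr
    rw [Nat.choose_symm_of_eq_add (by omega : n = r + d)] at this
    exact_mod_cast this
  -- `N` is large
  have hNbig : 2 * ((n : ℝ) + 1) ^ 2 ≤ N := by
    have h1 : Real.exp (1 / 100 * n) ≤ (4 : ℝ) ^ d * Real.exp (d / 5) := by
      have h2 : Real.exp (1 / 100 * n) ≤ Real.exp (d / 5) := by
        apply Real.exp_le_exp.2; linarith
      have h3 : (1 : ℝ) ≤ 4 ^ d := one_le_pow₀ (by norm_num)
      nlinarith [Real.exp_pos ((d : ℝ) / 5)]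
    have h4 : ((n : ℝ) + 1) * (2 * ((n : ℝ) + 1) ^ 2) ≤ (n + 1) * (N : ℝ) := by
      calc ((n : ℝ) + 1) * (2 * ((n : ℝ) + 1) ^ 2) = 2 * ((n : ℝ) + 1) ^ 3 := by ring
        _ ≤ _ := hn1.trans (h1.trans hlow)
    exact le_of_mul_le_mul_left h4 (by positivity)
  have hNpos : (0 : ℝ) < N := lt_of_lt_of_le (by positivity) hNbig
  have hN2 : 2 * r ^ 2 ≤ N := by
    have h1 : 2 * (r : ℝ) ^ 2 ≤ N := by
      refine le_trans ?_ hNbig
      have : (r : ℝ) ^ 2 ≤ ((n : ℝ) + 1) ^ 2 := by
        apply pow_le_pow_left₀ (by positivity); linarith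
      linarith
    exact_mod_cast h1
  have hcard := card_Bad_le (n := n) hr
  rw [← hd] at hcard
  have hcard' : ((Bad n r).card : ℝ) ≤ ∑ k ∈ Icc 2 r, (n.choose (r - k + 1) : ℝ) *
      (((gg (n - (r - k + 1)) d).choose k * YY N (r - k) : ℕ) : ℝ) := by
    exact_mod_cast hcard
  refine hcard'.trans ?_
  have hterm : ∀ k ∈ Icc 2 r, (n.choose (r - k + 1) : ℝ) *
      (((gg (n - (r - k + 1)) d).choose k * YY N (r - k) : ℕ) : ℝ) ≤
      4 * ((n : ℝ) + 1) ^ 3 * Real.exp (-((n : ℝ) / 21000)) * (N.choose r : ℝ) := by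
    intro k hk
    rw [mem_Icc] at hk
    obtain ⟨hk2, hkr⟩ := hk
    set s := r - k + 1 with hs
    set g := gg (n - s) d with hg
    refine (term_bound (n := n) (g := g) hk2 hkr hN2 (n.choose s : ℝ) (by positivity)).trans ?_
    apply mul_le_mul_of_nonneg_right _ (by positivity)
    have hgN : (0 : ℝ) ≤ (g : ℝ) / N := by positivity
    rcases Nat.lt_or_ge (1000 * k) n with hsmall | hlarge
    · -- small k
      have h1 : (n.choose s : ℝ) ≤ (n : ℝ) ^ (k - 1) * N := by
        have h2 := choose_down hr (by omega) (k - 1) (by omega)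
        have h3 : r - (k - 1) = s := by omega
        rw [h3] at h2
        have h4 : n.choose s ≤ n ^ (k - 1) * N := h2.trans (Nat.mul_le_mul_left _ (choose_le_gg hr))
        exact_mod_cast h4
      have h2 : (r.choose k : ℝ) ≤ (n : ℝ) ^ k := by
        have : r.choose k ≤ n ^ k := (Nat.choose_le_pow r k).trans (Nat.pow_le_pow_left hr k)
        exact_mod_cast this
      have h3 : (g : ℝ) ≤ 2 ^ (d + k) := by
        have h4 : g ≤ 2 ^ (d + k) := (gg_le_two_pow _ _).trans
          (Nat.pow_le_pow_right (by norm_num) (by omega))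
        exact_mod_cast h4
      -- the base `b`
      set b : ℝ := 2 ^ d * Real.exp (d / 10) / (n + 1) with hb
      have hb2 : b ^ 2 ≤ N := by
        have h4 : b ^ 2 * (n + 1) ≤ (n + 1) * (N : ℝ) / 1 := by
          have h5 : b ^ 2 * (n + 1) = 4 ^ d * Real.exp (d / 5) / (n + 1) := by
            rw [hb, div_pow, mul_pow, ← Real.exp_nat_mul]
            have h6 : ((2 : ℕ) : ℝ) * ((d : ℝ) / 10) = d / 5 := by push_cast; ring
            rw [h6, ← pow_mul, mul_comm d 2, pow_mul]
            norm_num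
            field_simp
          rw [h5, div_one]
          refine le_trans ?_ hlow
          apply div_le_self (by positivity)
          linarith
        rw [div_one, mul_comm] at h4
        exact le_of_mul_le_mul_left h4 (by positivity)
      have hb1 : 1 ≤ b := by
        rw [hb, le_div_iff₀ (by positivity), one_mul]
        have h4 : Real.exp (1 / 200 * n) ≤ Real.exp (d / 10) := by
          apply Real.exp_le_exp.2; linarith
        have h5 : (1 : ℝ) ≤ 2 ^ d := one_le_pow₀ (by norm_num)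
        have h6 : (n : ℝ) + 1 ≤ Real.exp (d / 10) := by
          calc (n : ℝ) + 1 = 1 * ((n : ℝ) + 1) ^ 1 := by ring
            _ ≤ _ := hn3.trans h4
        nlinarith [Real.exp_pos ((d : ℝ) / 10)]
      have hbpos : 0 < b := by linarith
      -- `N * (g/N)^k ≤ (2^(d+k)/b)^k`
      have h4 : (N : ℝ) * ((g : ℝ) / N) ^ k ≤ (2 ^ (d + k) / b) ^ k := by
        have h5 : b ^ k ≤ (N : ℝ) ^ (k - 1) := by
          calc b ^ k ≤ b ^ (2 * (k - 1)) := pow_le_pow_right₀ hb1 (by omega)
            _ = (b ^ 2) ^ (k - 1) := by rw [pow_mul]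
            _ ≤ (N : ℝ) ^ (k - 1) := pow_le_pow_left₀ (by positivity) hb2 _
        have h6 : (N : ℝ) * ((g : ℝ) / N) ^ k = (g : ℝ) ^ k / (N : ℝ) ^ (k - 1) := by
          obtain ⟨j, rfl⟩ : ∃ j, k = j + 1 := ⟨k - 1, by omega⟩
          rw [Nat.add_sub_cancel, div_pow, pow_succ (N : ℝ) j]
          field_simp
        rw [h6, div_pow]
        apply div_le_div₀ (by positivity) (pow_le_pow_left₀ (by positivity) h3 k)
          (by positivity) h5
      have h5 : (n : ℝ) ^ (k - 1) ≤ (n : ℝ) ^ k := by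
        apply pow_le_pow_right₀ _ (by omega)
        exact_mod_cast (by omega : 1 ≤ n)
      have h6 : (n.choose s : ℝ) * (r.choose k : ℝ) * ((g : ℝ) / N) ^ k ≤
          ((n : ℝ) ^ 2 * (2 ^ (d + k) / b)) ^ k := by
        calc (n.choose s : ℝ) * (r.choose k : ℝ) * ((g : ℝ) / N) ^ k
            ≤ ((n : ℝ) ^ (k - 1) * N) * (n : ℝ) ^ k * ((g : ℝ) / N) ^ k := by
              apply mul_le_mul_of_nonneg_right _ (by positivity)
              exact mul_le_mul h1 h2 (by positivity) (by positivity)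
          _ = (n : ℝ) ^ (k - 1) * (n : ℝ) ^ k * (N * ((g : ℝ) / N) ^ k) := by ring
          _ ≤ (n : ℝ) ^ k * (n : ℝ) ^ k * (2 ^ (d + k) / b) ^ k := by
              apply mul_le_mul _ h4 (by positivity) (by positivity)
              exact mul_le_mul_of_nonneg_right h5 (by positivity)
          _ = _ := by rw [← mul_pow, ← mul_pow]; ring
      -- the quantity is small
      have h7 : (n : ℝ) ^ 2 * (2 ^ (d + k) / b) ≤
          ((n : ℝ) + 1) ^ 3 * Real.exp (-((n : ℝ) / 250)) := by
        have h8 : (2 : ℝ) ^ (d + k) / b = 2 ^ k * ((n + 1) * Real.exp (-((d : ℝ) / 10))) := by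
          rw [hb, pow_add, Real.exp_neg]
          field_simp
        have h9 : (2 : ℝ) ^ k ≤ Real.exp ((n : ℝ) / 1000) := by
          have h10 : (2 : ℝ) ≤ Real.exp 1 := by
            have := Real.add_one_le_exp (1 : ℝ); linarith
          calc (2 : ℝ) ^ k ≤ (Real.exp 1) ^ k := pow_le_pow_left₀ (by norm_num) h10 k
            _ = Real.exp k := by rw [← Real.exp_nat_mul, mul_one]
            _ ≤ Real.exp ((n : ℝ) / 1000) := by
                apply Real.exp_le_exp.2
                have : (1000 : ℝ) * k ≤ n := by exact_mod_cast hsmall.le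
                linarith
        rw [h8]
        have h10 : Real.exp (-((d : ℝ) / 10)) ≤ Real.exp (-((n : ℝ) / 200)) := by
          apply Real.exp_le_exp.2; linarith
        calc (n : ℝ) ^ 2 * (2 ^ k * ((n + 1) * Real.exp (-((d : ℝ) / 10))))
            ≤ ((n : ℝ) + 1) ^ 2 * (Real.exp ((n : ℝ) / 1000) *
              ((n + 1) * Real.exp (-((n : ℝ) / 200)))) := by
              apply mul_le_mul
              · apply pow_le_pow_left₀ hnr.le; linarith
              · apply mul_le_mul h9 _ (by positivity) (by positivity)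
                exact mul_le_mul_of_nonneg_left h10 (by positivity)
              · positivity
              · positivity
          _ = ((n : ℝ) + 1) ^ 3 * (Real.exp ((n : ℝ) / 1000) * Real.exp (-((n : ℝ) / 200))) := by
              ring
          _ = ((n : ℝ) + 1) ^ 3 * Real.exp (-((n : ℝ) / 250)) := by
              rw [← Real.exp_add]; ring_nf
      have h8 : ((n : ℝ) + 1) ^ 3 * Real.exp (-((n : ℝ) / 250)) ≤ 1 := by
        rw [Real.exp_neg, ← div_eq_mul_inv, div_le_one (Real.exp_pos _)]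
        calc ((n : ℝ) + 1) ^ 3 = 1 * ((n : ℝ) + 1) ^ 3 := by ring
          _ ≤ Real.exp (1 / 250 * n) := hn4
          _ = Real.exp ((n : ℝ) / 250) := by ring_nf
      have h9 : (0 : ℝ) ≤ (n : ℝ) ^ 2 * (2 ^ (d + k) / b) := by positivity
      have h10 : ((n : ℝ) ^ 2 * (2 ^ (d + k) / b)) ^ k ≤
          ((n : ℝ) + 1) ^ 3 * Real.exp (-((n : ℝ) / 250)) := by
        calc ((n : ℝ) ^ 2 * (2 ^ (d + k) / b)) ^ k ≤ ((n : ℝ) ^ 2 * (2 ^ (d + k) / b)) ^ 1 :=
              pow_le_pow_of_le_one h9 (h7.trans h8) (by omega)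
          _ = _ := pow_one _
          _ ≤ _ := h7
      have h11 : Real.exp (-((n : ℝ) / 250)) ≤ Real.exp (-((n : ℝ) / 21000)) := by
        apply Real.exp_le_exp.2; linarith
      calc 4 * ((n.choose s : ℝ) * (r.choose k : ℝ) * ((g : ℝ) / N) ^ k)
          ≤ 4 * (((n : ℝ) + 1) ^ 3 * Real.exp (-((n : ℝ) / 250))) := by linarith [h6, h10]
        _ ≤ 4 * (((n : ℝ) + 1) ^ 3 * Real.exp (-((n : ℝ) / 21000))) := by
            apply mul_le_mul_of_nonneg_left _ (by norm_num)
            exact mul_le_mul_of_nonneg_left h11 (by positivity)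
        _ = _ := by ring
    · -- large k
      have h1 : (n.choose s : ℝ) ≤ (n : ℝ) ^ s := by exact_mod_cast Nat.choose_le_pow n s
      have h2 : (r.choose k : ℝ) ≤ (n : ℝ) ^ s := by
        have h3 : r.choose k = r.choose (s - 1) := by
          rw [show s - 1 = r - k by omega, Nat.choose_symm hkr]
        have h4 : r.choose k ≤ n ^ s := by
          rw [h3]
          calc r.choose (s - 1) ≤ r ^ (s - 1) := Nat.choose_le_pow _ _
            _ ≤ n ^ (s - 1) := Nat.pow_le_pow_left hr _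
            _ ≤ n ^ s := Nat.pow_le_pow_right (by omega) (by omega)
        exact_mod_cast h4
      have h3 : (g : ℝ) / N ≤ Real.exp (-(1 / 21)) ^ s := by
        have h4 := gg_ratio (d := d) s n (by omega)
        have h4' : (g : ℝ) * ((n : ℝ) + d) ^ s ≤ (n : ℝ) ^ s * N := by exact_mod_cast h4
        have h5 : (g : ℝ) / N ≤ ((n : ℝ) / (n + d)) ^ s := by
          rw [div_pow, div_le_div_iff₀ hNpos (by positivity)]
          exact h4'
        refine h5.trans ?_
        apply pow_le_pow_left₀ (by positivity)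
        have h6 : (n : ℝ) / (n + d) ≤ 20 / 21 := by
          rw [div_le_div_iff₀ (by positivity) (by norm_num)]
          linarith
        have h7 : (20 : ℝ) / 21 ≤ Real.exp (-(1 / 21)) := by
          have := Real.add_one_le_exp (-(1 / 21) : ℝ)
          linarith
        linarith
      have h4 : ((g : ℝ) / N) ^ k ≤ (Real.exp (-((n : ℝ) / 21000))) ^ s := by
        calc ((g : ℝ) / N) ^ k ≤ (Real.exp (-(1 / 21)) ^ s) ^ k :=
              pow_le_pow_left₀ hgN h3 k
          _ = (Real.exp (-(1 / 21)) ^ k) ^ s := by rw [← pow_mul, ← pow_mul, mul_comm]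
          _ ≤ (Real.exp (-((n : ℝ) / 21000))) ^ s := by
              apply pow_le_pow_left₀ (by positivity)
              rw [← Real.exp_nat_mul]
              apply Real.exp_le_exp.2
              have : (n : ℝ) ≤ 1000 * k := by exact_mod_cast hlarge
              linarith
      have h5 : (n.choose s : ℝ) * (r.choose k : ℝ) * ((g : ℝ) / N) ^ k ≤
          ((n : ℝ) ^ 2 * Real.exp (-((n : ℝ) / 21000))) ^ s := by
        calc (n.choose s : ℝ) * (r.choose k : ℝ) * ((g : ℝ) / N) ^ k
            ≤ (n : ℝ) ^ s * (n : ℝ) ^ s * (Real.exp (-((n : ℝ) / 21000))) ^ s := by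
              apply mul_le_mul _ h4 (by positivity) (by positivity)
              exact mul_le_mul h1 h2 (by positivity) (by positivity)
          _ = _ := by rw [← mul_pow, ← mul_pow]; ring
      have h6 : (n : ℝ) ^ 2 * Real.exp (-((n : ℝ) / 21000)) ≤ 1 := by
        rw [Real.exp_neg, ← div_eq_mul_inv, div_le_one (Real.exp_pos _)]
        calc (n : ℝ) ^ 2 ≤ 1 * ((n : ℝ) + 1) ^ 2 := by nlinarith
          _ ≤ Real.exp (1 / 21000 * n) := hn2
          _ = Real.exp ((n : ℝ) / 21000) := by ring_nf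
      have h7 : ((n : ℝ) ^ 2 * Real.exp (-((n : ℝ) / 21000))) ^ s ≤
          (n : ℝ) ^ 2 * Real.exp (-((n : ℝ) / 21000)) := by
        calc _ ≤ ((n : ℝ) ^ 2 * Real.exp (-((n : ℝ) / 21000))) ^ 1 :=
              pow_le_pow_of_le_one (by positivity) h6 (by omega)
          _ = _ := pow_one _
      have h8 : (n : ℝ) ^ 2 ≤ ((n : ℝ) + 1) ^ 3 := by nlinarith [sq_nonneg (n : ℝ)]
      calc 4 * ((n.choose s : ℝ) * (r.choose k : ℝ) * ((g : ℝ) / N) ^ k)
          ≤ 4 * ((n : ℝ) ^ 2 * Real.exp (-((n : ℝ) / 21000))) := by linarith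
        _ ≤ 4 * (((n : ℝ) + 1) ^ 3 * Real.exp (-((n : ℝ) / 21000))) := by
            apply mul_le_mul_of_nonneg_left _ (by norm_num)
            exact mul_le_mul_of_nonneg_right h8 (by positivity)
        _ = _ := by ring
  refine (Finset.sum_le_sum hterm).trans ?_
  rw [Finset.sum_const, nsmul_eq_mul]
  have h1 : ((Icc 2 r).card : ℝ) ≤ (n : ℝ) + 1 := by
    rw [Nat.card_Icc]
    have : r + 1 - 2 ≤ n + 1 := by omega
    exact_mod_cast this
  calc ((Icc 2 r).card : ℝ) *
      (4 * ((n : ℝ) + 1) ^ 3 * Real.exp (-((n : ℝ) / 21000)) * (N.choose r : ℝ))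
      ≤ ((n : ℝ) + 1) *
      (4 * ((n : ℝ) + 1) ^ 3 * Real.exp (-((n : ℝ) / 21000)) * (N.choose r : ℝ)) :=
        mul_le_mul_of_nonneg_right h1 (by positivity)
    _ = _ := by ring

end Pool.Agent.Helper17.Trans
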