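import Mathlib
import Pool.Agent.Helper17.TransCount
import Pool.Agent.Helper17.TransEntropy
import Pool.Agent.Helper17.TransBad

set_option autoImplicit false

/-!
# Families fixed by a permutation with large support
-/

namespace Pool.Agent.Helper17.Trans

open Finset Filter
open scoped Pointwise

variable {n : ℕ}

lemma mem_smul' (π : Equiv.Perm (Fin n)) (H : Finset (Fin n)) (x : Fin n) :
    x ∈ π • H ↔ π⁻¹ x ∈ H := by
  rw [← Finset.inv_smul_mem_iff]; rfl

/-- The sets of size at least `r` fixed by `π`. -/
def fixSets (n r : ℕ) (π : Equiv.Perm (Fin n)) : Finset (Finset (Fin n)) :=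
  (FF n r).filter (fun H => π • H = H)

/-- An arbitrary injective numbering of the subsets. -/
noncomputable def code (H : Finset (Fin n)) : ℕ := (Fintype.equivFin (Finset (Fin n)) H).val

lemma code_injective : Function.Injective (code (n := n)) := by
  intro H H' h
  exact (Fintype.equivFin (Finset (Fin n))).injective (Fin.ext h)

open Classical in
/-- The moved members of `Hs` with minimal code in their orbit. -/
noncomputable def reps (π : Equiv.Perm (Fin n)) (Hs : Finset (Finset (Fin n))) :
    Finset (Finset (Fin n)) :=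
  Hs.filter (fun H => π • H ≠ H ∧ ∀ k : ℕ, code H ≤ code (π ^ k • H))

lemma pow_smul_mem {π : Equiv.Perm (Fin n)} {Hs : Finset (Finset (Fin n))} (h : π • Hs = Hs)
    {H : Finset (Fin n)} (hH : H ∈ Hs) (k : ℕ) : π ^ k • H ∈ Hs := by
  induction k with
  | zero => simpa using hH
  | succ k ih =>
    rw [pow_succ', mul_smul, ← h]
    exact Finset.smul_mem_smul_finset ih

lemma mem_iff_reps {π : Equiv.Perm (Fin n)} {Hs : Finset (Finset (Fin n))} (h : π • Hs = Hs)
    (H : Finset (Fin n)) :
    H ∈ Hs ↔ H ∈ Hs.filter (fun H => π • H = H) ∨ ∃ T ∈ reps π Hs, ∃ k : ℕ, H = π ^ k • T := by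
  classical
  constructor
  · intro hH
    by_cases hfix : π • H = H
    · left; rw [mem_filter]; exact ⟨hH, hfix⟩
    · right
      -- minimal code along the orbit
      have hne : (Set.range (fun k : ℕ => code (π ^ k • H))).Nonempty := ⟨_, 0, rfl⟩
      obtain ⟨j, hj⟩ := Nat.sInf_mem hne
      simp only at hj
      have hmin : ∀ k : ℕ, code (π ^ j • H) ≤ code (π ^ k • H) := by
        intro k
        rw [hj]
        exact Nat.sInf_le ⟨k, rfl⟩
      refine ⟨π ^ j • H, ?_, (orderOf π - 1) * j, ?_⟩
      · unfold reps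
        rw [mem_filter]
        refine ⟨pow_smul_mem h hH j, ?_, ?_⟩
        · intro hc
          apply hfix
          have h1 : π ^ j • (π • H) = π ^ j • H := by
            rw [← mul_smul, ← pow_succ, pow_succ', mul_smul]; exact hc
          exact smul_left_cancel _ h1
        · intro k
          rw [← mul_smul, ← pow_add]
          exact hmin (k + j)
      · rw [← mul_smul, ← pow_add]
        have h1 : (orderOf π - 1) * j + j = orderOf π * j := by
          have h2 : 0 < orderOf π := orderOf_pos π
          obtain ⟨o, ho⟩ : ∃ o, orderOf π = o + 1 := ⟨orderOf π - 1, by omega⟩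
          rw [ho, Nat.add_sub_cancel]; ring
        rw [h1, pow_mul, pow_orderOf_eq_one, one_pow, one_smul]
  · rintro (hH | ⟨T, hT, k, rfl⟩)
    · exact (mem_filter.1 hH).1
    · unfold reps at hT
      exact pow_smul_mem h (mem_filter.1 hT).1 k

lemma reps_card {π : Equiv.Perm (Fin n)} {Hs : Finset (Finset (Fin n))} (h : π • Hs = Hs) :
    (Hs.filter (fun H => π • H = H)).card + 2 * (reps π Hs).card ≤ Hs.card := by
  classical
  set M := Hs.filter (fun H => ¬ π • H = H) with hM
  have h1 : (Hs.filter (fun H => π • H = H)).card + M.card = Hs.card :=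
    Finset.card_filter_add_card_filter_not _
  have h2 : reps π Hs ⊆ M := by
    intro T hT
    unfold reps at hT
    rw [mem_filter] at hT
    rw [hM, mem_filter]
    exact ⟨hT.1, hT.2.1⟩
  have h3 : (reps π Hs).card ≤ (M \ reps π Hs).card := by
    apply Finset.card_le_card_of_injOn (fun T => π • T)
    · intro T hT
      rw [mem_coe] at hT
      unfold reps at hT
      rw [mem_filter] at hT
      obtain ⟨hTH, hTm, hTc⟩ := hT
      have hmem : π • T ∈ Hs := by
        have := pow_smul_mem h hTH 1
        rwa [pow_one] at this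
      refine mem_coe.2 (Finset.mem_sdiff.2 ⟨mem_filter.2 ⟨hmem, fun hc => hTm (smul_left_cancel _ hc)⟩, ?_⟩)
      intro hc
      unfold reps at hc
      rw [mem_filter] at hc
      have h4 := hc.2.2 (orderOf π - 1)
      rw [← mul_smul, ← pow_succ] at h4
      have h5 : orderOf π - 1 + 1 = orderOf π := Nat.succ_pred_eq_of_pos (orderOf_pos π)
      rw [h5, pow_orderOf_eq_one, one_smul] at h4
      have h6 := hTc 1
      rw [pow_one] at h6
      exact hTm (code_injective (le_antisymm h4 h6))
    · intro T _ T' _ hTT
      exact smul_left_cancel _ hTT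
  have h4 := Finset.card_sdiff_add_card_eq_card h2
  omega

/-- Number of families in `XX n r` fixed by `π`. -/
lemma card_fix_le (r : ℕ) (π : Equiv.Perm (Fin n)) :
    ((XX n r).filter (fun Hs => π • Hs = Hs)).card ≤
      ∑ ab ∈ ((range (r + 1)) ×ˢ (range (r + 1))).filter (fun ab => ab.1 + 2 * ab.2 ≤ r),
        (fixSets n r π).card.choose ab.1 * (FF n r).card.choose ab.2 := by
  classical
  set U : Finset (Finset (Finset (Fin n)) × Finset (Finset (Fin n))) :=
    (((range (r + 1)) ×ˢ (range (r + 1))).filter (fun ab => ab.1 + 2 * ab.2 ≤ r)).biUnion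
      (fun ab => powersetCard ab.1 (fixSets n r π) ×ˢ powersetCard ab.2 (FF n r)) with hU
  have h1 : ((XX n r).filter (fun Hs => π • Hs = Hs)).card ≤ U.card := by
    apply Finset.card_le_card_of_injOn
      (fun Hs => (Hs.filter (fun H => π • H = H), reps π Hs))
    · intro Hs hHs
      rw [mem_coe, mem_filter] at hHs
      obtain ⟨hX, hfix⟩ := hHs
      unfold XX at hX
      rw [mem_filter, mem_powerset] at hX
      have hc := reps_card hfix
      rw [mem_coe, hU, mem_biUnion]
      refine ⟨((Hs.filter (fun H => π • H = H)).card, (reps π Hs).card), ?_, ?_⟩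
      · rw [mem_filter, mem_product, mem_range, mem_range]
        simp only
        omega
      · rw [mem_product, mem_powersetCard, mem_powersetCard]
        refine ⟨⟨?_, rfl⟩, ?_, rfl⟩
        · intro H hH
          simp only [mem_filter] at hH
          unfold fixSets
          rw [mem_filter]
          exact ⟨hX.1 hH.1, hH.2⟩
        · intro H hH
          simp only [reps, mem_filter] at hH
          exact hX.1 hH.1
    · intro Hs hHs Hs' hHs' heq
      rw [mem_coe, mem_filter] at hHs hHs'
      simp only [Prod.mk.injEq] at heq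
      ext H
      rw [mem_iff_reps hHs.2, mem_iff_reps hHs'.2, heq.1, heq.2]
  refine h1.trans ?_
  rw [hU]
  refine Finset.card_biUnion_le.trans (Finset.sum_le_sum fun ab _ => ?_)
  rw [Finset.card_product, Finset.card_powersetCard, Finset.card_powersetCard]

/-- A permutation moves a third of its support off itself. -/
lemma exists_indep_part (π : Equiv.Perm (Fin n)) :
    ∃ P : Finset (Fin n), Disjoint P (π • P) ∧ π.support.card ≤ 3 * P.card := by
  classical
  obtain ⟨P, hP, hmax⟩ := Finset.exists_max_image
    ((univ : Finset (Finset (Fin n))).filter (fun P => Disjoint P (π • P))) Finset.card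
    ⟨∅, by simp⟩
  rw [mem_filter] at hP
  refine ⟨P, hP.2, ?_⟩
  have hsub : π.support ⊆ P ∪ (π • P) ∪ (π⁻¹ • P) := by
    intro y hy
    rw [Equiv.Perm.mem_support] at hy
    by_contra hcon
    rw [mem_union, mem_union] at hcon
    push Not at hcon
    obtain ⟨⟨h1, h2⟩, h3⟩ := hcon
    rw [mem_smul'] at h2 h3
    rw [inv_inv] at h3
    have hins : Disjoint (insert y P) (π • (insert y P)) := by
      rw [Finset.disjoint_left]
      intro z hz hz'
      rw [mem_smul', mem_insert] at hz'
      rw [mem_insert] at hz
      rcases hz with rfl | hz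
      · rcases hz' with h4 | h4
        · apply hy
          calc π z = π (π⁻¹ z) := by rw [h4]
            _ = z := by simp
        · exact h2 h4
      · rcases hz' with h4 | h4
        · apply h3
          rw [← h4]; simpa using hz
        · have h5 : z ∈ π • P := by rw [mem_smul']; exact h4
          exact (Finset.disjoint_left.1 hP.2) hz h5
    have h4 := hmax (insert y P) (by rw [mem_filter]; exact ⟨mem_univ _, hins⟩)
    rw [Finset.card_insert_of_notMem h1] at h4
    omega
  have h1 := Finset.card_le_card hsub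
  have h2 := Finset.card_union_le (P ∪ (π • P)) (π⁻¹ • P)
  have h3 := Finset.card_union_le P (π • P)
  rw [Finset.card_smul_finset] at h2 h3
  omega

/-- Weighted count of the sets fixed by `π`. -/
lemma sum_fixed_le (π : Equiv.Perm (Fin n)) (P : Finset (Fin n)) (hP : Disjoint P (π • P))
    (x : ℝ) (hx : 0 ≤ x) :
    ∑ K ∈ (univ : Finset (Finset (Fin n))).filter (fun K => π • K = K), x ^ K.card ≤
      (1 + x ^ 2) ^ P.card * (1 + x) ^ (n - 2 * P.card) := by
  classical
  set R := (P ∪ π • P)ᶜ with hR
  have hRcard : R.card = n - 2 * P.card := by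
    rw [hR, Finset.card_compl, Fintype.card_fin, Finset.card_union_of_disjoint hP,
      Finset.card_smul_finset]
    omega
  -- the intersection with `π • P`
  have hinter : ∀ K : Finset (Fin n), π • K = K → K ∩ (π • P) = π • (K ∩ P) := by
    intro K hK
    rw [Finset.smul_finset_inter, hK]
  have hdecomp : ∀ K : Finset (Fin n), π • K = K →
      K.card = 2 * (K ∩ P).card + (K ∩ R).card := by
    intro K hK
    have h1 : K = (K ∩ P) ∪ (K ∩ (π • P)) ∪ (K ∩ R) := by
      ext z
      simp only [mem_union, mem_inter, hR, mem_compl]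
      tauto
    have h2 : Disjoint (K ∩ P) (K ∩ (π • P)) :=
      hP.mono Finset.inter_subset_right Finset.inter_subset_right
    have h3 : Disjoint ((K ∩ P) ∪ (K ∩ (π • P))) (K ∩ R) := by
      rw [Finset.disjoint_left]
      intro z hz hz'
      simp only [mem_union, mem_inter, hR, mem_compl] at hz hz'
      tauto
    have h4 : (K ∩ (π • P)).card = (K ∩ P).card := by
      rw [hinter K hK, Finset.card_smul_finset]
    calc K.card = ((K ∩ P) ∪ (K ∩ (π • P)) ∪ (K ∩ R)).card := by rw [← h1]
      _ = _ := by
        rw [Finset.card_union_of_disjoint h3, Finset.card_union_of_disjoint h2, h4]; ring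
  have hinj : Set.InjOn (fun K : Finset (Fin n) => (K ∩ P, K ∩ R))
      (((univ : Finset (Finset (Fin n))).filter (fun K => π • K = K) : Finset _) : Set _) := by
    intro K hK K' hK' heq
    rw [mem_coe, mem_filter] at hK hK'
    simp only [Prod.mk.injEq] at heq
    have h1 : ∀ K : Finset (Fin n), π • K = K → K = (K ∩ P) ∪ (π • (K ∩ P)) ∪ (K ∩ R) := by
      intro K hK
      rw [← hinter K hK]
      ext z
      simp only [mem_union, mem_inter, hR, mem_compl]
      tauto
    rw [h1 K hK.2, h1 K' hK'.2, heq.1, heq.2]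
  calc ∑ K ∈ (univ : Finset (Finset (Fin n))).filter (fun K => π • K = K), x ^ K.card
      = ∑ K ∈ (univ : Finset (Finset (Fin n))).filter (fun K => π • K = K),
          (x ^ 2) ^ (K ∩ P).card * x ^ (K ∩ R).card := by
        refine Finset.sum_congr rfl fun K hK => ?_
        rw [mem_filter] at hK
        rw [hdecomp K hK.2, pow_add, pow_mul]
    _ = ∑ p ∈ ((univ : Finset (Finset (Fin n))).filter (fun K => π • K = K)).image
          (fun K : Finset (Fin n) => (K ∩ P, K ∩ R)), (x ^ 2) ^ p.1.card * x ^ p.2.card := by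
        rw [Finset.sum_image hinj]
    _ ≤ ∑ p ∈ P.powerset ×ˢ R.powerset, (x ^ 2) ^ p.1.card * x ^ p.2.card := by
        apply Finset.sum_le_sum_of_subset_of_nonneg
        · intro p hp
          rw [mem_image] at hp
          obtain ⟨K, _, rfl⟩ := hp
          rw [mem_product, mem_powerset, mem_powerset]
          exact ⟨Finset.inter_subset_right, Finset.inter_subset_right⟩
        · intro p _ _
          positivity
    _ = (∑ A ∈ P.powerset, (x ^ 2) ^ A.card) * (∑ B ∈ R.powerset, x ^ B.card) := by
        rw [Finset.sum_mul_sum, Finset.sum_product]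
    _ = (1 + x ^ 2) ^ P.card * (1 + x) ^ (n - 2 * P.card) := by
        have h1 := Finset.sum_pow_mul_eq_add_pow (x ^ 2) 1 P
        have h2 := Finset.sum_pow_mul_eq_add_pow x 1 R
        simp only [one_pow, mul_one] at h1 h2
        rw [h1, h2, hRcard, add_comm (x ^ 2), add_comm x]

/-- The number of large sets fixed by a permutation. -/
lemma card_fixSets_le {r : ℕ} (hr : r ≤ n) (hd0 : 0 < n - r) (hW1 : n ≤ 20 * (n - r))
    (hW2 : 7 * (n - r) ≤ 3 * n) (π : Equiv.Perm (Fin n)) (P : Finset (Fin n))
    (hP : Disjoint P (π • P)) :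
    ((fixSets n r π).card : ℝ) ≤
      ((n : ℝ) + 1) * Real.exp (-((P.card : ℝ) / 20)) * (gg n (n - r) : ℝ) := by
  classical
  set d := n - r with hd
  have hdn : d < n := by omega
  have hnr : (0 : ℝ) < n := by exact_mod_cast (by omega : 0 < n)
  have hdr : (0 : ℝ) < d := by exact_mod_cast hd0
  have hndr : (0 : ℝ) < (n : ℝ) - d := by
    have : (d : ℝ) < n := by exact_mod_cast hdn
    linarith
  set x : ℝ := d / (n - d) with hx
  have hxpos : 0 < x := by positivity
  have hW2' : (7 : ℝ) * d ≤ 3 * n := by exact_mod_cast hW2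
  have hW1' : (n : ℝ) ≤ 20 * d := by exact_mod_cast hW1
  have hx1 : x ≤ 1 := by
    rw [hx, div_le_one hndr]; linarith
  have h2P : 2 * P.card ≤ n := by
    have h1 := Finset.card_le_univ (P ∪ π • P)
    rw [Finset.card_union_of_disjoint hP, Finset.card_smul_finset, Fintype.card_fin] at h1
    omega
  -- step 1: weighting
  have h1 : ((fixSets n r π).card : ℝ) * x ^ d ≤
      ∑ K ∈ (univ : Finset (Finset (Fin n))).filter (fun K => π • K = K), x ^ K.card := by
    have h2 : ((fixSets n r π).card : ℝ) * x ^ d = ∑ _H ∈ fixSets n r π, x ^ d := by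
      rw [Finset.sum_const, nsmul_eq_mul]
    rw [h2]
    calc ∑ _H ∈ fixSets n r π, x ^ d ≤ ∑ H ∈ fixSets n r π, x ^ (Hᶜ).card := by
          refine Finset.sum_le_sum fun H hH => ?_
          unfold fixSets FF at hH
          rw [mem_filter, mem_filter] at hH
          apply pow_le_pow_of_le_one hxpos.le hx1
          rw [Finset.card_compl, Fintype.card_fin]
          omega
      _ = ∑ K ∈ (fixSets n r π).image (fun H => Hᶜ), x ^ K.card := by
          rw [Finset.sum_image]
          intro H _ H' _ h
          exact compl_injective h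
      _ ≤ _ := by
          apply Finset.sum_le_sum_of_subset_of_nonneg
          · intro K hK
            rw [mem_image] at hK
            obtain ⟨H, hH, rfl⟩ := hK
            unfold fixSets at hH
            rw [mem_filter] at hH ⊢
            refine ⟨mem_univ _, ?_⟩
            ext z
            rw [mem_smul', mem_compl, mem_compl, ← mem_smul', hH.2]
          · intro K _ _
            positivity
  have h2 := sum_fixed_le π P hP x hxpos.le
  -- step 2: mode bound
  have h3 : (1 + x) ^ n ≤ ((n : ℝ) + 1) * x ^ d * (n.choose d : ℝ) := by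
    have h4 := mode_bound hdn
    have h5 : (n : ℝ) ^ n ≤ ((n : ℝ) + 1) * ((d : ℝ) ^ d * ((n : ℝ) - d) ^ (n - d) *
        n.choose d) := by
      have h6 : ((n ^ n : ℕ) : ℝ) ≤
          (((n + 1) * (d ^ d * (n - d) ^ (n - d) * n.choose d) : ℕ) : ℝ) := by exact_mod_cast h4
      push_cast [Nat.cast_sub hdn.le] at h6
      exact h6
    have h6 : 1 + x = n / (n - d) := by rw [hx]; field_simp; ring
    rw [h6, div_pow, div_le_iff₀ (by positivity), hx, div_pow]
    have h7 : ((n : ℝ) - d) ^ n = ((n : ℝ) - d) ^ d * ((n : ℝ) - d) ^ (n - d) := by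
      rw [← pow_add]; congr 1; omega
    rw [h7]
    calc (n : ℝ) ^ n ≤ _ := h5
      _ = _ := by field_simp
  have hchoose : (n.choose d : ℝ) ≤ gg n d := by
    have := choose_le_gg hr
    rw [Nat.choose_symm_of_eq_add (by omega : n = r + d)] at this
    exact_mod_cast this
  -- step 3: the ratio
  have h4 : (1 + x ^ 2) ≤ (1 + x) ^ 2 * Real.exp (-(1 / 20)) := by
    have h5 : (1 + x ^ 2) ≤ (1 + x) ^ 2 * (1 - 1 / 20) := by
      have h6 : 1 + x = n / (n - d) := by rw [hx]; field_simp; ring
      have h7 : (1 + x) ^ 2 - (1 + x ^ 2) = 2 * x := by ring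
      have h8 : (1 + x) ^ 2 * (1 / 20) ≤ 2 * x := by
        have e1 : (1 + x) ^ 2 * (1 / 20) = ((n : ℝ) ^ 2 * (1 / 20)) / (n - d) ^ 2 := by
          rw [h6, div_pow, div_mul_eq_mul_div]
        have e2 : 2 * x = (2 * d) / ((n : ℝ) - d) := by rw [hx, mul_div_assoc']
        rw [e1, e2, div_le_div_iff₀ (by positivity) hndr]
        have h9 : (n : ℝ) * 4 ≤ 7 * (n - d) := by linarith
        have h10 : (n : ℝ) ^ 2 * (1 / 20) ≤ 2 * d * (n - d) := by nlinarith
        calc (n : ℝ) ^ 2 * (1 / 20) * (n - d) ≤ (2 * d * (n - d)) * (n - d) :=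
              mul_le_mul_of_nonneg_right h10 hndr.le
          _ = 2 * d * (n - d) ^ 2 := by ring
      linarith
    refine h5.trans ?_
    apply mul_le_mul_of_nonneg_left _ (by positivity)
    have := Real.add_one_le_exp (-(1 / 20) : ℝ)
    linarith
  have h5 : (1 + x ^ 2) ^ P.card * (1 + x) ^ (n - 2 * P.card) ≤
      (1 + x) ^ n * Real.exp (-((P.card : ℝ) / 20)) := by
    calc (1 + x ^ 2) ^ P.card * (1 + x) ^ (n - 2 * P.card)
        ≤ ((1 + x) ^ 2 * Real.exp (-(1 / 20))) ^ P.card * (1 + x) ^ (n - 2 * P.card) := by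
          apply mul_le_mul_of_nonneg_right _ (by positivity)
          exact pow_le_pow_left₀ (by positivity) h4 _
      _ = ((1 + x) ^ (2 * P.card) * (1 + x) ^ (n - 2 * P.card)) *
            Real.exp (-(1 / 20)) ^ P.card := by
          rw [mul_pow, ← pow_mul]; ring
      _ = _ := by
          rw [← pow_add, ← Real.exp_nat_mul]
          congr 2
          · omega
          · ring
  have h6 : ((fixSets n r π).card : ℝ) * x ^ d ≤
      (((n : ℝ) + 1) * Real.exp (-((P.card : ℝ) / 20)) * (gg n d : ℝ)) * x ^ d := by
    calc ((fixSets n r π).card : ℝ) * x ^ d ≤ _ := h1.trans (h2.trans h5)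
      _ ≤ (((n : ℝ) + 1) * x ^ d * (n.choose d : ℝ)) * Real.exp (-((P.card : ℝ) / 20)) :=
          mul_le_mul_of_nonneg_right h3 (by positivity)
      _ ≤ (((n : ℝ) + 1) * x ^ d * (gg n d : ℝ)) * Real.exp (-((P.card : ℝ) / 20)) := by
          apply mul_le_mul_of_nonneg_right _ (by positivity)
          exact mul_le_mul_of_nonneg_left hchoose (by positivity)
      _ = _ := by ring
  exact le_of_mul_le_mul_right h6 (by positivity)

end Pool.Agent.Helper17.Trans
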