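import Mathlib
import Pool.Agent.Helper17.TransBad
import Pool.Agent.Helper17.TransFix

set_option autoImplicit false

/-!
# Asymptotics for families fixed by a permutation
-/

namespace Pool.Agent.Helper17.Trans

open Finset Filter
open scoped Pointwise

variable {n : ℕ}

/-- Permutations with small support. -/
lemma card_small_support (n m : ℕ) :
    ((univ : Finset (Equiv.Perm (Fin n))).filter (fun π => π.support.card ≤ m)).card ≤
      (n ^ 2 + 1) ^ m := by
  classical
  have h1 : ((univ : Finset (Equiv.Perm (Fin n))).filter (fun π => π.support.card ≤ m)).card ≤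
      ((univ : Finset (Fin n × Fin n)).powerset.filter (fun t => t.card ≤ m)).card := by
    apply Finset.card_le_card_of_injOn
      (fun π => (univ : Finset (Fin n × Fin n)).filter (fun p => π p.1 = p.2 ∧ p.1 ≠ p.2))
    · intro π hπ
      have hπ' := (mem_filter.1 (mem_coe.1 hπ)).2
      refine mem_coe.2 (mem_filter.2 ⟨mem_powerset.2 (subset_univ _), ?_⟩)
      refine le_trans ?_ hπ'
      apply Finset.card_le_card_of_injOn Prod.fst
      · intro p hp
        have hp' := (mem_filter.1 (mem_coe.1 hp)).2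
        refine mem_coe.2 ?_
        rw [Equiv.Perm.mem_support, hp'.1]
        exact hp'.2.symm
      · intro p hp q hq hpq
        have hp' := (mem_filter.1 (mem_coe.1 hp)).2
        have hq' := (mem_filter.1 (mem_coe.1 hq)).2
        ext
        · exact congrArg Fin.val hpq
        · have : p.2 = q.2 := by rw [← hp'.1, ← hq'.1]; exact congrArg π hpq
          exact congrArg Fin.val this
    · intro π _ σ _ h
      ext x
      by_cases hx : π x = x
      · by_cases hy : σ x = x
        · rw [hx, hy]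
        · exfalso
          have : (x, σ x) ∈ (univ : Finset (Fin n × Fin n)).filter
              (fun p => σ p.1 = p.2 ∧ p.1 ≠ p.2) :=
            mem_filter.2 ⟨mem_univ _, rfl, fun h => hy h.symm⟩
          have h2 : (x, σ x) ∈ (univ : Finset (Fin n × Fin n)).filter
              (fun p => π p.1 = p.2 ∧ p.1 ≠ p.2) := by
            have h3 := h
            simp only at h3
            rw [h3]; exact this
          have h4 := (mem_filter.1 h2).2.1
          simp only at h4
          exact hy (by rw [← h4, hx])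
      · have : (x, π x) ∈ (univ : Finset (Fin n × Fin n)).filter
              (fun p => π p.1 = p.2 ∧ p.1 ≠ p.2) :=
            mem_filter.2 ⟨mem_univ _, rfl, fun h => hx h.symm⟩
        have h2 : (x, π x) ∈ (univ : Finset (Fin n × Fin n)).filter
              (fun p => σ p.1 = p.2 ∧ p.1 ≠ p.2) := by
          have h3 := h
          simp only at h3
          rw [← h3]; exact this
        have h4 := (mem_filter.1 h2).2.1
        simp only at h4
        rw [h4]
  refine h1.trans ?_
  rw [card_subfamilies]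
  have h2 : (univ : Finset (Fin n × Fin n)).card = n ^ 2 := by
    rw [Finset.card_univ, Fintype.card_prod, Fintype.card_fin, sq]
  rw [h2]
  exact YY_le_pow _ _

/-- Families fixed by a permutation with large support are rare. -/
theorem fix_bound : ∀ᶠ n : ℕ in atTop, ∀ r, r ≤ n → n ≤ 20 * (n - r) → 7 * (n - r) ≤ 3 * n →
    ∀ π : Equiv.Perm (Fin n), Nat.sqrt n < π.support.card →
    (((XX n r).filter (fun Hs => π • Hs = Hs)).card : ℝ) ≤
      2 * ((n : ℝ) + 1) ^ 2 * (((n : ℝ) + 1) ^ 2 * Real.exp (-(((Nat.sqrt n : ℝ) + 1) / 60))) ^ r *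
        ((gg n (n - r)).choose r : ℝ) := by
  filter_upwards [ev_exp 3 2 (1 / 100) (by norm_num), eventually_ge_atTop 100]
    with n hn1 hn100 r hr hW1 hW2 π hπ
  set s := Nat.sqrt n with hs
  set d := n - r with hd
  set N := gg n d with hN
  have hd0 : 0 < d := by omega
  have hnr : (0 : ℝ) < n := by exact_mod_cast (by omega : 0 < n)
  have hdr : (n : ℝ) ≤ 20 * d := by exact_mod_cast hW1
  have hrn : (r : ℝ) ≤ n := by exact_mod_cast hr
  have hs10 : 10 ≤ s := by
    rw [hs]; exact Nat.le_sqrt.2 (by omega)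
  have hsn : s * s ≤ n := Nat.sqrt_le n
  have hlow : (4 : ℝ) ^ d * Real.exp (d / 5) ≤ (n + 1) * (N : ℝ) := by
    refine (lower_one hd0 hW2).trans ?_
    apply mul_le_mul_of_nonneg_left _ (by positivity)
    have := choose_le_gg hr
    rw [Nat.choose_symm_of_eq_add (by omega : n = r + d)] at this
    exact_mod_cast this
  have hlow1 : Real.exp (1 / 100 * n) ≤ (n + 1) * (N : ℝ) := by
    refine le_trans ?_ hlow
    have h2 : Real.exp (1 / 100 * n) ≤ Real.exp (d / 5) := by
      apply Real.exp_le_exp.2; linarith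
    have h3 : (1 : ℝ) ≤ 4 ^ d := one_le_pow₀ (by norm_num)
    nlinarith [Real.exp_pos ((d : ℝ) / 5)]
  -- `N` is large
  have hNbig : 2 * ((n : ℝ) + 1) ^ 2 ≤ N := by
    have h4 : ((n : ℝ) + 1) * (2 * ((n : ℝ) + 1) ^ 2) ≤ (n + 1) * (N : ℝ) := by
      calc ((n : ℝ) + 1) * (2 * ((n : ℝ) + 1) ^ 2) = 2 * ((n : ℝ) + 1) ^ 3 := by ring
        _ ≤ _ := hn1.trans hlow1
    exact le_of_mul_le_mul_left h4 (by positivity)
  have hNpos : (0 : ℝ) < N := lt_of_lt_of_le (by positivity) hNbig
  have hN1 : (1 : ℝ) ≤ N := by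
    have : (1 : ℝ) ≤ 2 * ((n : ℝ) + 1) ^ 2 := by nlinarith
    linarith
  have hN2 : 2 * r ^ 2 ≤ N := by
    have h1 : 2 * (r : ℝ) ^ 2 ≤ N := by
      refine le_trans ?_ hNbig
      have : (r : ℝ) ^ 2 ≤ ((n : ℝ) + 1) ^ 2 := by
        apply pow_le_pow_left₀ (by positivity); linarith
      linarith
    exact_mod_cast h1
  have hr0 : 0 < r := by omega
  have hrN : r ≤ N := by nlinarith
  -- the constant `β`
  set β : ℝ := ((n : ℝ) + 1) * Real.exp (-(((s : ℝ) + 1) / 60)) with hβ
  have hβpos : 0 < β := by positivity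
  have hβN : (N : ℝ) ≤ (β * N) ^ 2 := by
    have h1 : (1 : ℝ) ≤ β ^ 2 * N := by
      have h2 : β ^ 2 * N = (n + 1) * (((n : ℝ) + 1) * N) * Real.exp (-(((s : ℝ) + 1) / 30)) := by
        rw [hβ, mul_pow, ← Real.exp_nat_mul]
        have : ((2 : ℕ) : ℝ) * -(((s : ℝ) + 1) / 60) = -(((s : ℝ) + 1) / 30) := by
          push_cast; ring
        rw [this]; ring
      rw [h2]
      have h3 : ((s : ℝ) + 1) / 30 ≤ 1 / 100 * n := by
        have h4 : (s : ℝ) * s ≤ n := by exact_mod_cast hsn
        have h5 : (10 : ℝ) ≤ s := by exact_mod_cast hs10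
        nlinarith
      have h4 : Real.exp (((s : ℝ) + 1) / 30) ≤ ((n : ℝ) + 1) * N :=
        (Real.exp_le_exp.2 h3).trans hlow1
      have h5 : Real.exp (((s : ℝ) + 1) / 30) * Real.exp (-(((s : ℝ) + 1) / 30)) = 1 := by
        rw [← Real.exp_add, add_neg_cancel, Real.exp_zero]
      calc (1 : ℝ) ≤ (n + 1) * 1 := by linarith
        _ = (n + 1) * (Real.exp (((s : ℝ) + 1) / 30) * Real.exp (-(((s : ℝ) + 1) / 30))) := by
            rw [h5]
        _ ≤ (n + 1) * ((((n : ℝ) + 1) * N) * Real.exp (-(((s : ℝ) + 1) / 30))) := by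
            apply mul_le_mul_of_nonneg_left _ (by positivity)
            exact mul_le_mul_of_nonneg_right h4 (Real.exp_pos _).le
        _ = _ := by ring
    calc (N : ℝ) = 1 * N := by ring
      _ ≤ (β ^ 2 * N) * N := mul_le_mul_of_nonneg_right h1 hNpos.le
      _ = _ := by ring
  set c : ℝ := β * N with hc
  have hcpos : 0 < c := by positivity
  have hc1 : 1 ≤ c := by
    by_contra hcon
    push Not at hcon
    nlinarith
  -- fixed sets
  obtain ⟨P, hP, hPs⟩ := exists_indep_part π
  have hφ : ((fixSets n r π).card : ℝ) ≤ c := by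
    refine (card_fixSets_le hr hd0 hW1 hW2 π P hP).trans ?_
    rw [hc, hβ]
    apply mul_le_mul_of_nonneg_right _ (by positivity)
    apply mul_le_mul_of_nonneg_left _ (by positivity)
    apply Real.exp_le_exp.2
    have h1 : s + 1 ≤ 3 * P.card := by omega
    have h2 : (s : ℝ) + 1 ≤ 3 * P.card := by exact_mod_cast h1
    linarith
  have hterm : ∀ ab ∈ ((range (r + 1)) ×ˢ (range (r + 1))).filter (fun ab => ab.1 + 2 * ab.2 ≤ r),
      (((fixSets n r π).card.choose ab.1 * (FF n r).card.choose ab.2 : ℕ) : ℝ) ≤ c ^ r := by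
    intro ab hab
    rw [mem_filter] at hab
    rw [card_FF hr, ← hd, ← hN]
    push_cast
    have h1 : ((fixSets n r π).card.choose ab.1 : ℝ) ≤ c ^ ab.1 := by
      calc ((fixSets n r π).card.choose ab.1 : ℝ) ≤ ((fixSets n r π).card : ℝ) ^ ab.1 := by
            exact_mod_cast Nat.choose_le_pow _ _
        _ ≤ c ^ ab.1 := pow_le_pow_left₀ (by positivity) hφ _
    have h2 : (N.choose ab.2 : ℝ) ≤ c ^ (2 * ab.2) := by
      calc (N.choose ab.2 : ℝ) ≤ (N : ℝ) ^ ab.2 := by exact_mod_cast Nat.choose_le_pow _ _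
        _ ≤ (c ^ 2) ^ ab.2 := pow_le_pow_left₀ hNpos.le hβN _
        _ = c ^ (2 * ab.2) := by rw [pow_mul]
    calc ((fixSets n r π).card.choose ab.1 : ℝ) * (N.choose ab.2 : ℝ)
        ≤ c ^ ab.1 * c ^ (2 * ab.2) := mul_le_mul h1 h2 (by positivity) (by positivity)
      _ = c ^ (ab.1 + 2 * ab.2) := by rw [pow_add]
      _ ≤ c ^ r := pow_le_pow_right₀ hc1 hab.2
  have hcard := card_fix_le r π
  have hcard' : (((XX n r).filter (fun Hs => π • Hs = Hs)).card : ℝ) ≤
      ∑ ab ∈ ((range (r + 1)) ×ˢ (range (r + 1))).filter (fun ab => ab.1 + 2 * ab.2 ≤ r),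
        (((fixSets n r π).card.choose ab.1 * (FF n r).card.choose ab.2 : ℕ) : ℝ) := by
    exact_mod_cast hcard
  refine hcard'.trans ((Finset.sum_le_sum hterm).trans ?_)
  rw [Finset.sum_const, nsmul_eq_mul]
  have h1 : (((((range (r + 1)) ×ˢ (range (r + 1))).filter
      (fun ab => ab.1 + 2 * ab.2 ≤ r)).card : ℕ) : ℝ) ≤ ((n : ℝ) + 1) ^ 2 := by
    have h2 : (((range (r + 1)) ×ˢ (range (r + 1))).filter
      (fun ab => ab.1 + 2 * ab.2 ≤ r)).card ≤ (r + 1) * (r + 1) := by
      refine (Finset.card_filter_le _ _).trans ?_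
      rw [Finset.card_product, card_range]
    have h3 : (((((range (r + 1)) ×ˢ (range (r + 1))).filter
      (fun ab => ab.1 + 2 * ab.2 ≤ r)).card : ℕ) : ℝ) ≤ ((r : ℝ) + 1) * (r + 1) := by
      exact_mod_cast h2
    refine h3.trans ?_
    nlinarith [(Nat.cast_nonneg r : (0 : ℝ) ≤ r)]
  have h2 : (N : ℝ) ^ r ≤ 2 * (((n : ℝ) + 1) ^ r * (N.choose r : ℝ)) := by
    refine (pow_half (le_refl r) hN2 hr0).trans ?_
    apply mul_le_mul_of_nonneg_left _ (by norm_num)
    have h3 : (N - r + 1) ^ r ≤ r.factorial * N.choose r := by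
      rw [← Nat.descFactorial_eq_factorial_mul_choose]
      have := Nat.pow_sub_le_descFactorial N r
      rwa [show N + 1 - r = N - r + 1 by omega] at this
    have h4 : (((N - r + 1 : ℕ) : ℝ)) ^ r ≤ (r.factorial : ℝ) * N.choose r := by
      exact_mod_cast h3
    refine h4.trans ?_
    apply mul_le_mul_of_nonneg_right _ (by positivity)
    have h5 : r.factorial ≤ (n + 1) ^ r :=
      (Nat.factorial_le_pow r).trans (Nat.pow_le_pow_left (by omega) r)
    exact_mod_cast h5
  calc _ ≤ ((n : ℝ) + 1) ^ 2 * c ^ r := mul_le_mul_of_nonneg_right h1 (by positivity)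
    _ = ((n : ℝ) + 1) ^ 2 * (β ^ r * (N : ℝ) ^ r) := by rw [hc, mul_pow]
    _ ≤ ((n : ℝ) + 1) ^ 2 * (β ^ r * (2 * (((n : ℝ) + 1) ^ r * (N.choose r : ℝ)))) := by
        apply mul_le_mul_of_nonneg_left _ (by positivity)
        exact mul_le_mul_of_nonneg_left h2 (by positivity)
    _ = 2 * ((n : ℝ) + 1) ^ 2 * ((β * ((n : ℝ) + 1)) ^ r) * (N.choose r : ℝ) := by
        rw [mul_pow β ((n : ℝ) + 1) r]; ring
    _ = _ := by
        have e : ((n : ℝ) + 1) ^ 2 * Real.exp (-(((s : ℝ) + 1) / 60)) = β * ((n : ℝ) + 1) := by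
          rw [hβ]; ring
        rw [e]

end Pool.Agent.Helper17.Trans
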