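import Mathlib
import Pool.Agent.Helper17.TransFixBound

set_option autoImplicit false

/-!
# The Burnside sum over the bad families
-/

namespace Pool.Agent.Helper17.Trans

open Finset Filter
open scoped Pointwise

variable {n : ℕ}

lemma tendsto_natSqrt : Tendsto Nat.sqrt atTop atTop := by
  rw [tendsto_atTop_atTop]
  intro b
  exact ⟨b * b, fun a ha => Nat.le_sqrt.2 ha⟩

open Classical in
theorem sum_fix_bound (ε : ℝ) (hε : 0 < ε) : ∀ᶠ n : ℕ in atTop, ∀ r, r ≤ n →
    n ≤ 20 * (n - r) → 7 * (n - r) ≤ 3 * n →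
    ((∑ π : Equiv.Perm (Fin n), ((Bad n r).filter (fun Hs => π • Hs = Hs)).card : ℕ) : ℝ) *
      ((n : ℝ) + 1) ≤ ε * ((gg n (n - r)).choose r : ℝ) := by
  filter_upwards [bad_bound, fix_bound,
    tendsto_natSqrt.eventually (ev_exp 4 1 (1 / 42000) (by norm_num)),
    tendsto_natSqrt.eventually (ev_exp 8 1 (1 / 120) (by norm_num)),
    ev_exp 5 (8 / ε) (1 / 42000) (by norm_num),
    ev_exp 3 (4 / ε) (1 / 240) (by norm_num),
    eventually_ge_atTop 100] with n hbad hfix hs4 hs8 hn5 hn3 hn100 r hr hW1 hW2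
  have hbad' := hbad r hr hW1 hW2
  have hfix' := hfix r hr hW1 hW2
  set s := Nat.sqrt n with hs
  set d := n - r with hd
  set N := gg n d with hN
  set C : ℝ := (N.choose r : ℝ) with hC
  have hC0 : 0 ≤ C := by positivity
  have hs10 : 10 ≤ s := by
    rw [hs]; exact Nat.le_sqrt.2 (by omega)
  have hsn : s * s ≤ n := Nat.sqrt_le n
  have hsn' : n < (s + 1) * (s + 1) := Nat.lt_succ_sqrt n
  have hnr : (0 : ℝ) < n := by exact_mod_cast (by omega : 0 < n)
  have hs1 : (n : ℝ) + 1 ≤ ((s : ℝ) + 1) ^ 2 := by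
    have : n + 1 ≤ (s + 1) ^ 2 := by nlinarith
    exact_mod_cast this
  rw [one_mul] at hs4 hs8
  -- split of the sum
  set A := (univ : Finset (Equiv.Perm (Fin n))).filter (fun π => π.support.card ≤ s) with hA
  set B := (univ : Finset (Equiv.Perm (Fin n))).filter (fun π => ¬ π.support.card ≤ s) with hB
  have hsplit : ∑ π : Equiv.Perm (Fin n), ((Bad n r).filter (fun Hs => π • Hs = Hs)).card =
      ∑ π ∈ A, ((Bad n r).filter (fun Hs => π • Hs = Hs)).card +
      ∑ π ∈ B, ((Bad n r).filter (fun Hs => π • Hs = Hs)).card :=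
    (Finset.sum_filter_add_sum_filter_not _ _ _).symm
  rw [hsplit]
  push_cast
  -- small supports
  have hAcard : (A.card : ℝ) ≤ Real.exp ((n : ℝ) / 42000) := by
    have h1 := card_small_support n s
    have h2 : (A.card : ℝ) ≤ (((n : ℝ) ^ 2 + 1)) ^ s := by exact_mod_cast h1
    calc (A.card : ℝ) ≤ (((n : ℝ) ^ 2 + 1)) ^ s := h2
      _ ≤ ((((s : ℝ) + 1) ^ 2) ^ 2) ^ s := by
          apply pow_le_pow_left₀ (by positivity)
          have : ((n : ℝ) + 1) ^ 2 ≤ (((s : ℝ) + 1) ^ 2) ^ 2 :=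
            pow_le_pow_left₀ (by positivity) hs1 2
          nlinarith
      _ = (((s : ℝ) + 1) ^ 4) ^ s := by rw [← pow_mul ((s : ℝ) + 1) 2 2]
      _ ≤ (Real.exp (1 / 42000 * s)) ^ s := pow_le_pow_left₀ (by positivity) hs4 s
      _ = Real.exp ((s : ℝ) * s / 42000) := by rw [← Real.exp_nat_mul]; ring_nf
      _ ≤ Real.exp ((n : ℝ) / 42000) := by
          apply Real.exp_le_exp.2
          have : (s : ℝ) * s ≤ n := by exact_mod_cast hsn
          linarith
  have hAsum : (∑ π ∈ A, (((Bad n r).filter (fun Hs => π • Hs = Hs)).card : ℝ)) ≤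
      Real.exp ((n : ℝ) / 42000) * (4 * ((n : ℝ) + 1) ^ 4 * Real.exp (-((n : ℝ) / 21000)) * C) := by
    calc (∑ π ∈ A, (((Bad n r).filter (fun Hs => π • Hs = Hs)).card : ℝ))
        ≤ ∑ π ∈ A, ((Bad n r).card : ℝ) := by
          refine Finset.sum_le_sum fun π _ => ?_
          exact_mod_cast Finset.card_filter_le _ _
      _ = A.card * ((Bad n r).card : ℝ) := by rw [Finset.sum_const, nsmul_eq_mul]
      _ ≤ _ := mul_le_mul hAcard hbad' (by positivity) (by positivity)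
  have hApart : (∑ π ∈ A, (((Bad n r).filter (fun Hs => π • Hs = Hs)).card : ℝ)) *
      ((n : ℝ) + 1) ≤ ε / 2 * C := by
    have h1 : Real.exp ((n : ℝ) / 42000) * Real.exp (-((n : ℝ) / 21000)) =
        Real.exp (-((n : ℝ) / 42000)) := by
      rw [← Real.exp_add]; ring_nf
    have h2 : 4 * ((n : ℝ) + 1) ^ 5 * Real.exp (-((n : ℝ) / 42000)) ≤ ε / 2 := by
      rw [Real.exp_neg, ← div_eq_mul_inv, div_le_iff₀ (Real.exp_pos _)]
      have h3 : (8 / ε) * ((n : ℝ) + 1) ^ 5 ≤ Real.exp ((n : ℝ) / 42000) := by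
        refine hn5.trans (le_of_eq ?_); ring_nf
      calc 4 * ((n : ℝ) + 1) ^ 5 = ε / 2 * ((8 / ε) * ((n : ℝ) + 1) ^ 5) := by
            field_simp; ring
        _ ≤ _ := mul_le_mul_of_nonneg_left h3 (by positivity)
    calc _ ≤ (Real.exp ((n : ℝ) / 42000) *
          (4 * ((n : ℝ) + 1) ^ 4 * Real.exp (-((n : ℝ) / 21000)) * C)) * ((n : ℝ) + 1) :=
          mul_le_mul_of_nonneg_right hAsum (by positivity)
      _ = (4 * ((n : ℝ) + 1) ^ 5 * (Real.exp ((n : ℝ) / 42000) *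
          Real.exp (-((n : ℝ) / 21000)))) * C := by ring
      _ = (4 * ((n : ℝ) + 1) ^ 5 * Real.exp (-((n : ℝ) / 42000))) * C := by rw [h1]
      _ ≤ ε / 2 * C := mul_le_mul_of_nonneg_right h2 hC0
  -- large supports
  have hBcard : (B.card : ℝ) ≤ ((n : ℝ) + 1) ^ (2 * r) := by
    have h1 : B.card ≤ n.factorial := by
      refine (Finset.card_le_univ _).trans ?_
      rw [Fintype.card_perm, Fintype.card_fin]
    have h2 : n.factorial ≤ (n + 1) ^ (2 * r) :=
      (Nat.factorial_le_pow n).trans ((Nat.pow_le_pow_left (by omega) n).trans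
        (Nat.pow_le_pow_right (by omega) (by omega)))
    exact_mod_cast h1.trans h2
  have hBsum : (∑ π ∈ B, (((Bad n r).filter (fun Hs => π • Hs = Hs)).card : ℝ)) ≤
      ((n : ℝ) + 1) ^ (2 * r) * (2 * ((n : ℝ) + 1) ^ 2 *
        (((n : ℝ) + 1) ^ 2 * Real.exp (-(((s : ℝ) + 1) / 60))) ^ r * C) := by
    calc (∑ π ∈ B, (((Bad n r).filter (fun Hs => π • Hs = Hs)).card : ℝ))
        ≤ ∑ π ∈ B, (2 * ((n : ℝ) + 1) ^ 2 *
        (((n : ℝ) + 1) ^ 2 * Real.exp (-(((s : ℝ) + 1) / 60))) ^ r * C) := by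
          refine Finset.sum_le_sum fun π hπ => ?_
          have hπ' : s < π.support.card := by
            rw [hB, mem_filter] at hπ
            omega
          refine le_trans ?_ (hfix' π hπ')
          have : ((Bad n r).filter (fun Hs => π • Hs = Hs)).card ≤
              ((XX n r).filter (fun Hs => π • Hs = Hs)).card := by
            apply Finset.card_le_card
            intro Hs hHs
            rw [mem_filter] at hHs ⊢
            unfold Bad at hHs
            rw [mem_filter] at hHs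
            exact ⟨hHs.1.1, hHs.2⟩
          exact_mod_cast this
      _ = B.card * (2 * ((n : ℝ) + 1) ^ 2 *
        (((n : ℝ) + 1) ^ 2 * Real.exp (-(((s : ℝ) + 1) / 60))) ^ r * C) := by
          rw [Finset.sum_const, nsmul_eq_mul]
      _ ≤ _ := mul_le_mul_of_nonneg_right hBcard (by positivity)
  have hBpart : (∑ π ∈ B, (((Bad n r).filter (fun Hs => π • Hs = Hs)).card : ℝ)) *
      ((n : ℝ) + 1) ≤ ε / 2 * C := by
    have h1 : ((n : ℝ) + 1) ^ 4 * Real.exp (-(((s : ℝ) + 1) / 60)) ≤ Real.exp (-(1 / 120)) := by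
      have h2 : ((n : ℝ) + 1) ^ 4 ≤ Real.exp (1 / 120 * s) := by
        refine le_trans ?_ hs8
        calc ((n : ℝ) + 1) ^ 4 ≤ (((s : ℝ) + 1) ^ 2) ^ 4 :=
              pow_le_pow_left₀ (by positivity) hs1 4
          _ = ((s : ℝ) + 1) ^ 8 := by rw [← pow_mul]
      calc ((n : ℝ) + 1) ^ 4 * Real.exp (-(((s : ℝ) + 1) / 60))
          ≤ Real.exp (1 / 120 * s) * Real.exp (-(((s : ℝ) + 1) / 60)) :=
            mul_le_mul_of_nonneg_right h2 (Real.exp_pos _).le
        _ = Real.exp (1 / 120 * s + -(((s : ℝ) + 1) / 60)) := by rw [← Real.exp_add]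
        _ ≤ Real.exp (-(1 / 120)) := by
            apply Real.exp_le_exp.2
            have : (10 : ℝ) ≤ s := by exact_mod_cast hs10
            linarith
    have h2 : ((n : ℝ) + 1) ^ (2 * r) *
        (((n : ℝ) + 1) ^ 2 * Real.exp (-(((s : ℝ) + 1) / 60))) ^ r ≤
        Real.exp (-((n : ℝ) / 240)) := by
      calc ((n : ℝ) + 1) ^ (2 * r) *
          (((n : ℝ) + 1) ^ 2 * Real.exp (-(((s : ℝ) + 1) / 60))) ^ r
          = (((n : ℝ) + 1) ^ 4 * Real.exp (-(((s : ℝ) + 1) / 60))) ^ r := by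
            rw [pow_mul, ← mul_pow]; congr 1; ring
        _ ≤ (Real.exp (-(1 / 120))) ^ r := pow_le_pow_left₀ (by positivity) h1 r
        _ = Real.exp (-((r : ℝ) / 120)) := by rw [← Real.exp_nat_mul]; ring_nf
        _ ≤ Real.exp (-((n : ℝ) / 240)) := by
            apply Real.exp_le_exp.2
            have h3 : n ≤ 2 * r := by omega
            have h4 : (n : ℝ) ≤ 2 * r := by exact_mod_cast h3
            linarith
    have h3 : 2 * ((n : ℝ) + 1) ^ 3 * Real.exp (-((n : ℝ) / 240)) ≤ ε / 2 := by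
      rw [Real.exp_neg, ← div_eq_mul_inv, div_le_iff₀ (Real.exp_pos _)]
      have h4 : (4 / ε) * ((n : ℝ) + 1) ^ 3 ≤ Real.exp ((n : ℝ) / 240) := by
        refine hn3.trans (le_of_eq ?_); ring_nf
      calc 2 * ((n : ℝ) + 1) ^ 3 = ε / 2 * ((4 / ε) * ((n : ℝ) + 1) ^ 3) := by
            field_simp; ring
        _ ≤ _ := mul_le_mul_of_nonneg_left h4 (by positivity)
    calc _ ≤ (((n : ℝ) + 1) ^ (2 * r) * (2 * ((n : ℝ) + 1) ^ 2 *
        (((n : ℝ) + 1) ^ 2 * Real.exp (-(((s : ℝ) + 1) / 60))) ^ r * C)) * ((n : ℝ) + 1) :=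
          mul_le_mul_of_nonneg_right hBsum (by positivity)
      _ = (2 * ((n : ℝ) + 1) ^ 3 * (((n : ℝ) + 1) ^ (2 * r) *
        (((n : ℝ) + 1) ^ 2 * Real.exp (-(((s : ℝ) + 1) / 60))) ^ r)) * C := by ring
      _ ≤ (2 * ((n : ℝ) + 1) ^ 3 * Real.exp (-((n : ℝ) / 240))) * C := by
          apply mul_le_mul_of_nonneg_right _ hC0
          exact mul_le_mul_of_nonneg_left h2 (by positivity)
      _ ≤ ε / 2 * C := mul_le_mul_of_nonneg_right h3 hC0
  rw [add_mul]
  linarith

end Pool.Agent.Helper17.Trans
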