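import Mathlib
import Pool.Agent.Helper17.TransDefs
import Pool.Agent.Helper17.TransStruct
import Pool.Agent.Helper17.TransBase
import Pool.Agent.Helper17.TransExist

set_option autoImplicit false

/-!
# The Tutte polynomial of a matroid described by a good family
-/

namespace Pool.Agent.Helper17.Trans

open Finset

variable {n : ℕ}

open Classical in
/-- The rank function of a matroid described by a good family. -/
noncomputable def rho (r : ℕ) (Hs : Finset (Finset (Fin n))) (A : Finset (Fin n)) : ℕ :=
  if A.card < r then A.card else if ∃ H ∈ Hs, A ⊆ H then r - 1 else r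

section

variable {r : ℕ} {Hs : Finset (Finset (Fin n))} {M : Matroid (Fin n)}

lemma encard_coe' (A : Finset (Fin n)) : (A : Set (Fin n)).encard = (A.card : ℕ∞) :=
  Set.encard_coe_eq_coe_finsetCard A

lemma card_le_of_indep (hM : ∀ B : Finset (Fin n), M.IsBase B ↔ IsB r Hs B)
    (I : Finset (Fin n)) (hI : M.Indep I) :
    I.card ≤ r ∧ (I.card = r → IsB r Hs I) := by
  classical
  obtain ⟨B', hB', hsub⟩ := hI.exists_isBase_superset
  have h1 : IsB r Hs B'.toFinset := (hM _).1 (by simpa using hB')
  have h2 : I ⊆ B'.toFinset := by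
    intro x hx; simpa using hsub hx
  have h3 := Finset.card_le_card h2
  rw [h1.1] at h3
  refine ⟨h3, fun h4 => ?_⟩
  have h5 : I = B'.toFinset := Finset.eq_of_subset_of_card_le h2 (by rw [h1.1, h4])
  rw [h5]; exact h1

lemma eRk_eq_rho (h : Good r Hs) (hr : r ≤ n) (huniv : univ ∉ Hs) (hcard : Hs.card ≤ r)
    (hM : ∀ B : Finset (Fin n), M.IsBase B ↔ IsB r Hs B) (A : Finset (Fin n)) :
    M.eRk (A : Set (Fin n)) = (rho r Hs A : ℕ) := by
  classical
  -- small sets are independent
  have hsmall : ∀ A : Finset (Fin n), A.card < r → M.Indep A := by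
    intro A hA
    obtain ⟨B, hAB, hB, hBH⟩ := h.exists_base hr huniv hcard A (Or.inl hA)
    have : M.IsBase B := (hM B).2 ((h.isB_iff B).2 ⟨hB, hBH⟩)
    exact this.indep.subset (by simpa using hAB)
  have hfin : ∀ I : Set (Fin n), (I.toFinset : Set (Fin n)) = I := fun I => by simp
  unfold rho
  by_cases h1 : A.card < r
  · rw [if_pos h1, (hsmall A h1).eRk_eq_encard, encard_coe']
  · rw [if_neg h1]
    by_cases h2 : ∃ H ∈ Hs, A ⊆ H
    · rw [if_pos h2]
      obtain ⟨H, hH, hAH⟩ := h2
      have hr0 : 0 < r := lt_of_lt_of_le (Finset.card_pos.2 ⟨H, hH⟩) hcard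
      apply le_antisymm
      · rw [Matroid.eRk_le_iff]
        intro I hIA hI
        rw [← hfin I, encard_coe']
        have hI' : M.Indep (I.toFinset : Set (Fin n)) := by rw [hfin]; exact hI
        obtain ⟨h3, h4⟩ := card_le_of_indep hM _ hI'
        have h5 : I.toFinset.card ≠ r := by
          intro h6
          have h7 := (h.isB_iff _).1 (h4 h6)
          apply h7.2 H hH
          refine Finset.Subset.trans ?_ hAH
          intro x hx
          rw [Set.mem_toFinset] at hx
          exact hIA hx
        exact_mod_cast (by omega : I.toFinset.card ≤ r - 1)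
      · rw [Matroid.le_eRk_iff]
        obtain ⟨A', hA'A, hA'⟩ := Finset.exists_subset_card_eq (s := A) (n := r - 1) (by omega)
        refine ⟨A', by simpa using hA'A, hsmall A' (by omega), ?_⟩
        rw [encard_coe', hA']
    · rw [if_neg h2]
      push Not at h2
      apply le_antisymm
      · rw [Matroid.eRk_le_iff]
        intro I hIA hI
        rw [← hfin I, encard_coe']
        have hI' : M.Indep (I.toFinset : Set (Fin n)) := by rw [hfin]; exact hI
        exact_mod_cast (card_le_of_indep hM _ hI').1
      · rw [Matroid.le_eRk_iff]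
        -- find a base inside `A`
        have hbase : ∃ B ⊆ A, IsB r Hs B := by
          obtain ⟨B, hBA, hB⟩ := Finset.exists_subset_card_eq (s := A) (n := r) (by omega)
          by_cases h3 : ∃ H ∈ Hs, B ⊆ H
          · obtain ⟨H, hH, hBH⟩ := h3
            have hr0 : 0 < r := lt_of_lt_of_le (Finset.card_pos.2 ⟨H, hH⟩) hcard
            obtain ⟨x, hxA, hxH⟩ := Finset.not_subset.1 (h2 H hH)
            obtain ⟨b, hb⟩ : B.Nonempty := Finset.card_pos.1 (by omega)
            have hxB : x ∉ B := fun h => hxH (hBH h)
            refine ⟨insert x (B.erase b), ?_, ?_⟩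
            · intro y hy
              rw [mem_insert, mem_erase] at hy
              rcases hy with rfl | ⟨-, hy⟩
              · exact hxA
              · exact hBA hy
            · rw [h.isB_iff]
              refine ⟨?_, fun H' hH' hsub => ?_⟩
              · rw [Finset.card_insert_of_notMem (fun h => hxB (Finset.mem_of_mem_erase h)),
                  Finset.card_erase_of_mem hb]
                omega
              · have hne : H ≠ H' := by
                  rintro rfl
                  exact hxH (hsub (mem_insert_self _ _))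
                have h3 := h.inter hH hH' hne
                have h4 : B.erase b ⊆ H ∩ H' :=
                  Finset.subset_inter ((Finset.erase_subset _ _).trans hBH)
                    ((Finset.subset_insert _ _).trans hsub)
                have h5 := Finset.card_le_card h4
                rw [Finset.card_erase_of_mem hb] at h5
                omega
          · push Not at h3
            exact ⟨B, hBA, (h.isB_iff B).2 ⟨hB, h3⟩⟩
        obtain ⟨B, hBA, hB⟩ := hbase
        refine ⟨B, by simpa using hBA, ((hM B).2 hB).indep, ?_⟩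
        rw [encard_coe', hB.1]

/-- The summand of the Tutte polynomial for a set of size `a` and rank `ρ`. -/
noncomputable def tt (r a ρ : ℕ) : MvPolynomial (Fin 2) ℤ :=
  (MvPolynomial.X 0 - 1) ^ (r - ρ) * (MvPolynomial.X 1 - 1) ^ (a - ρ)

lemma tutte_eq_sum (h : Good r Hs) (hr : r ≤ n) (huniv : univ ∉ Hs) (hcard : Hs.card ≤ r)
    (hE : M.E = Set.univ) (hM : ∀ B : Finset (Fin n), M.IsBase B ↔ IsB r Hs B) :
    tutte M = ∑ A : Finset (Fin n), tt r A.card (rho r Hs A) := by
  classical
  unfold tutte tt
  have h1 : M.ground_finite.toFinset = univ := by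
    ext x; simp [hE]
  rw [h1, Finset.powerset_univ]
  have h2 : (M.eRk M.E).toNat = r := by
    have h3 := eRk_eq_rho h hr huniv hcard hM univ
    rw [Finset.coe_univ, ← hE] at h3
    rw [h3]
    unfold rho
    rw [if_neg, if_neg]
    · rfl
    · rintro ⟨H, hH, hsub⟩
      rw [Finset.univ_subset_iff] at hsub
      exact huniv (hsub ▸ hH)
    · simp; exact hr
  refine Finset.sum_congr rfl fun A _ => ?_
  rw [h2, eRk_eq_rho h hr huniv hcard hM A]
  rfl

/-- Number of members of each size. -/
def stat (Hs : Finset (Finset (Fin n))) (k : ℕ) : ℕ := (Hs.filter (fun H => H.card = k)).card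

lemma sum_rho (h : Good r Hs) :
    ∑ A : Finset (Fin n), tt r A.card (rho r Hs A) =
      ∑ A : Finset (Fin n), tt r A.card (min A.card r) +
      ∑ k ∈ range (n + 1), stat Hs k •
        (∑ m ∈ range (k + 1), k.choose m •
          (if r ≤ m then tt r m (r - 1) - tt r m r else 0)) := by
  classical
  set D : ℕ → MvPolynomial (Fin 2) ℤ := fun k => ∑ m ∈ range (k + 1), k.choose m •
          (if r ≤ m then tt r m (r - 1) - tt r m r else 0) with hD
  have h1 : ∀ A : Finset (Fin n), tt r A.card (rho r Hs A) = tt r A.card (min A.card r) +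
      ∑ H ∈ Hs, if A ⊆ H then (if r ≤ A.card then tt r A.card (r - 1) - tt r A.card r else 0)
        else 0 := by
    intro A
    unfold rho
    by_cases h2 : A.card < r
    · rw [if_pos h2, min_eq_left h2.le]
      rw [Finset.sum_eq_zero, add_zero]
      intro H _
      rw [if_neg (by omega : ¬ r ≤ A.card)]
      simp
    · rw [if_neg h2, min_eq_right (by omega)]
      by_cases h3 : ∃ H ∈ Hs, A ⊆ H
      · rw [if_pos h3]
        obtain ⟨H, hH, hAH⟩ := h3
        rw [Finset.sum_eq_single H]
        · rw [if_pos hAH, if_pos (by omega : r ≤ A.card)]; ring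
        · intro H' hH' hne
          rw [if_neg]
          intro hAH'
          have h4 := h.inter hH hH' hne.symm
          have h5 := Finset.card_le_card (Finset.subset_inter hAH hAH')
          omega
        · intro h4; exact absurd hH h4
      · rw [if_neg h3]
        push Not at h3
        rw [Finset.sum_eq_zero, add_zero]
        intro H hH
        rw [if_neg (h3 H hH)]
  simp_rw [h1]
  rw [Finset.sum_add_distrib]
  congr 1
  rw [Finset.sum_comm]
  have h2 : ∀ H ∈ Hs, (∑ A : Finset (Fin n), if A ⊆ H then
      (if r ≤ A.card then tt r A.card (r - 1) - tt r A.card r else 0) else 0) = D H.card := by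
    intro H _
    rw [← Finset.sum_filter]
    have h3 : (univ : Finset (Finset (Fin n))).filter (fun A => A ⊆ H) = H.powerset := by
      ext A; simp
    rw [h3, hD]
    exact Finset.sum_powerset_apply_card
      (fun m => if r ≤ m then tt r m (r - 1) - tt r m r else 0)
  rw [Finset.sum_congr rfl h2]
  have h4 : ∀ H ∈ Hs, H.card ∈ range (n + 1) := by
    intro H _
    rw [mem_range]
    have := Finset.card_le_univ H
    rw [Fintype.card_fin] at this
    omega
  rw [← Finset.sum_fiberwise_of_maps_to h4]
  refine Finset.sum_congr rfl fun k _ => ?_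
  unfold stat
  rw [Finset.sum_congr rfl (g := fun _ => D k)]
  · rw [Finset.sum_const]
  · intro H hH
    rw [(mem_filter.1 hH).2]

end

/-- Two good families of the same rank and size statistic give the same Tutte polynomial. -/
theorem tutte_eq_of_stat {r : ℕ} {Hs Hs' : Finset (Finset (Fin n))} {M M' : Matroid (Fin n)}
    (h : Good r Hs) (h' : Good r Hs') (hr : r ≤ n) (huniv : univ ∉ Hs) (huniv' : univ ∉ Hs')
    (hcard : Hs.card ≤ r) (hcard' : Hs'.card ≤ r)
    (hbig : ∀ H ∈ Hs, r ≤ H.card) (hbig' : ∀ H ∈ Hs', r ≤ H.card)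
    (hE : M.E = Set.univ) (hE' : M'.E = Set.univ)
    (hM : ∀ B : Finset (Fin n), M.IsBase B ↔ IsB r Hs B)
    (hM' : ∀ B : Finset (Fin n), M'.IsBase B ↔ IsB r Hs' B)
    (hstat : ∀ k, k ≤ n → stat Hs k = stat Hs' k) : tutte M = tutte M' := by
  rw [tutte_eq_sum h hr huniv hcard hE hM, tutte_eq_sum h' hr huniv' hcard' hE' hM',
    sum_rho h, sum_rho h']
  congr 1
  refine Finset.sum_congr rfl fun k hk => ?_
  rw [mem_range] at hk
  rw [hstat k (by omega)]

end Pool.Agent.Helper17.Trans
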