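import Mathlib
import Pool.Agent.Helper17.TransFixSum
import Pool.Agent.Helper17.TransTutte

set_option autoImplicit false

/-!
# A lower bound for the number of labelled transversal matroids
-/

namespace Pool.Agent.Helper17.Trans

open Finset Filter

variable {n : ℕ}

instance (n : ℕ) : Finite (LabTrans n) := by
  have : Function.Injective
      (fun M : LabTrans n => ({B | M.1.IsBase B} : Set (Set (Fin n)))) := by
    intro M M' h
    apply Subtype.ext
    apply Matroid.ext_isBase (M.2.1.trans M'.2.1.symm)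
    intro B _
    exact Set.ext_iff.1 h B
  exact Finite.of_injective _ this

/-- Uniqueness of the matroid attached to a family. -/
lemma matroid_ext {r : ℕ} {Hs : Finset (Finset (Fin n))} {M M' : Matroid (Fin n)}
    (hE : M.E = Set.univ) (hE' : M'.E = Set.univ)
    (hM : ∀ B : Finset (Fin n), M.IsBase B ↔ IsB r Hs B)
    (hM' : ∀ B : Finset (Fin n), M'.IsBase B ↔ IsB r Hs B) : M = M' := by
  classical
  apply Matroid.ext_isBase (hE.trans hE'.symm)
  intro B _
  have h1 := hM B.toFinset
  have h2 := hM' B.toFinset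
  simp only [Set.coe_toFinset] at h1 h2
  rw [h1, h2]

/-- The good families with exactly `r` members inject into the labelled transversal matroids. -/
lemma card_good_le {r : ℕ} (hr2 : 2 ≤ r) (hr : r ≤ n) :
    (FF n r).card.choose r ≤ (Bad n r).card + Nat.card (LabTrans n) := by
  classical
  have hfin : Fintype (LabTrans n) := Fintype.ofFinite _
  set G : Finset (Finset (Finset (Fin n))) :=
    (powersetCard r (FF n r)).filter (fun Hs => Good r Hs) with hG
  have h1 : (FF n r).card.choose r ≤ (Bad n r).card + G.card := by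
    rw [← Finset.card_powersetCard]
    have h2 : powersetCard r (FF n r) ⊆ Bad n r ∪ G := by
      intro Hs hHs
      rw [mem_union]
      by_cases hg : Good r Hs
      · right; rw [hG, mem_filter]; exact ⟨hHs, hg⟩
      · left
        unfold Bad XX
        rw [mem_filter, mem_filter, mem_powerset]
        rw [mem_powersetCard] at hHs
        exact ⟨⟨hHs.1, hHs.2.le⟩, hg⟩
    exact (Finset.card_le_card h2).trans (Finset.card_union_le _ _)
  refine h1.trans (Nat.add_le_add_left ?_ _)
  have hprop : ∀ Hs : G, ∃ M : Matroid (Fin n), M.E = Set.univ ∧ IsTransversal M ∧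
      ∀ B : Finset (Fin n), M.IsBase B ↔ IsB r Hs.1 B := by
    intro Hs
    obtain ⟨h2, hgood⟩ := mem_filter.1 Hs.2
    obtain ⟨hsub, hcard⟩ := mem_powersetCard.1 h2
    have huniv : univ ∉ Hs.1 := by
      intro hu
      obtain ⟨H', hH', hne⟩ : ∃ H' ∈ Hs.1, H' ≠ univ := by
        by_contra hcon
        push Not at hcon
        have h3 : Hs.1 ⊆ {univ} := by
          intro H hH
          rw [mem_singleton]; exact hcon H hH
        have := Finset.card_le_card h3
        rw [Finset.card_singleton] at this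
        omega
      have h3 := hgood.inter hu hH' hne.symm
      rw [Finset.univ_inter] at h3
      have h4 := hsub hH'
      unfold FF at h4
      rw [mem_filter] at h4
      omega
    exact hgood.exists_matroid hr huniv hcard.le
  choose F hFE hFT hFB using hprop
  rw [Nat.card_eq_fintype_card]
  have hinj : Function.Injective (fun Hs : G => (⟨F Hs, hFE Hs, hFT Hs⟩ : LabTrans n)) := by
    intro Hs Hs' h
    have h3 : F Hs = F Hs' := congrArg Subtype.val h
    obtain ⟨h4, h4g⟩ := mem_filter.1 Hs.2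
    obtain ⟨h5, h5g⟩ := mem_filter.1 Hs'.2
    rw [mem_powersetCard] at h4 h5
    apply Subtype.ext
    apply Good.unique h4g h5g (by omega)
    · intro H hH
      have := h4.1 hH
      unfold FF at this
      exact (mem_filter.1 this).2
    · intro H hH
      have := h5.1 hH
      unfold FF at this
      exact (mem_filter.1 this).2
    · intro B
      rw [← hFB Hs, ← hFB Hs', h3]
  have := @Fintype.card_le_of_injective _ _ _ hfin _ hinj
  rwa [Fintype.card_coe] at this

/-- `C(N, r) ≤ 2 t(n)` in the window. -/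
theorem choose_le_lab : ∀ᶠ n : ℕ in atTop, ∀ r, r ≤ n → n ≤ 20 * (n - r) →
    7 * (n - r) ≤ 3 * n → ((gg n (n - r)).choose r : ℝ) ≤ 2 * (Nat.card (LabTrans n) : ℝ) := by
  filter_upwards [bad_bound, ev_exp 4 8 (1 / 21000) (by norm_num), eventually_ge_atTop 100]
    with n hbad hn hn100 r hr hW1 hW2
  have h1 := card_good_le (n := n) (r := r) (by omega) hr
  rw [card_FF hr] at h1
  have h2 : ((gg n (n - r)).choose r : ℝ) ≤ (Bad n r).card + Nat.card (LabTrans n) := by
    exact_mod_cast h1
  have h3 := hbad r hr hW1 hW2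
  have h4 : 4 * ((n : ℝ) + 1) ^ 4 * Real.exp (-((n : ℝ) / 21000)) ≤ 1 / 2 := by
    rw [Real.exp_neg, ← div_eq_mul_inv, div_le_iff₀ (Real.exp_pos _)]
    have h5 : Real.exp (1 / 21000 * n) = Real.exp ((n : ℝ) / 21000) := by ring_nf
    rw [← h5]
    linarith
  have h5 : ((Bad n r).card : ℝ) ≤ 1 / 2 * ((gg n (n - r)).choose r : ℝ) :=
    h3.trans (mul_le_mul_of_nonneg_right h4 (by positivity))
  linarith

/-- There are at least `exp(0.42 n²)/4` labelled transversal matroids. -/
theorem lab_lower : ∀ᶠ n : ℕ in atTop,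
    Real.exp (21 / 50 * (n : ℝ) ^ 2) ≤ 4 * (Nat.card (LabTrans n) : ℝ) := by
  filter_upwards [choose_le_lab, ev_exp 2 1 (1 / 1000) (by norm_num), eventually_ge_atTop 10000,
    ev_exp 3 2 (1 / 100) (by norm_num)]
    with n hch hn hn100 hn3
  set d := n / 3 with hd
  set r := n - d with hr
  have hnd : n - r = d := by omega
  have hd1 : 3 * d ≤ n := by omega
  have hd2 : n ≤ 3 * d + 2 := by omega
  have h1 := hch r (by omega) (by omega) (by omega)
  rw [hnd] at h1
  set N := gg n d with hN
  have hlow : (27 / 4 : ℝ) ^ d ≤ (n + 1) * (N : ℝ) := by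
    refine (lower_two (by omega) hd1).trans ?_
    apply mul_le_mul_of_nonneg_left _ (by positivity)
    have := choose_le_gg (n := n) (r := r) (by omega)
    rw [hnd, Nat.choose_symm_of_eq_add (by omega : n = r + d)] at this
    exact_mod_cast this
  have hdr : (n : ℝ) ≤ 3 * d + 2 := by exact_mod_cast hd2
  have hnr : (10000 : ℝ) ≤ n := by exact_mod_cast hn100
  have hlog : Real.exp (19 / 10 * d) ≤ (27 / 4 : ℝ) ^ d := by
    have h2 : Real.exp (19 / 10) ≤ 27 / 4 := by
      have e7 : Real.exp (19 / 10) ^ 10 ≤ (27 / 4 : ℝ) ^ 10 := by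
        rw [← Real.exp_nat_mul]
        have e8 : ((10 : ℕ) : ℝ) * (19 / 10) = ((19 : ℕ) : ℝ) * 1 := by norm_num
        rw [e8, Real.exp_nat_mul]
        have e9 := Real.exp_one_lt_d9
        calc Real.exp 1 ^ 19 ≤ (2.7182818286 : ℝ) ^ 19 :=
              pow_le_pow_left₀ (Real.exp_pos 1).le e9.le 19
          _ ≤ (27 / 4 : ℝ) ^ 10 := by norm_num
      exact le_of_pow_le_pow_left₀ (by norm_num) (by norm_num) e7
    calc Real.exp (19 / 10 * d) = (Real.exp (19 / 10)) ^ d := by
          rw [← Real.exp_nat_mul]; ring_nf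
      _ ≤ _ := pow_le_pow_left₀ (Real.exp_pos _).le h2 d
  have hNlow : Real.exp (63 / 100 * n) * (n + 1) ≤ (N : ℝ) := by
    have h2 : ((n : ℝ) + 1) ^ 2 * Real.exp (63 / 100 * n) ≤ (n + 1) * (N : ℝ) := by
      refine le_trans ?_ (hlog.trans hlow)
      calc ((n : ℝ) + 1) ^ 2 * Real.exp (63 / 100 * n)
          ≤ Real.exp (1 / 1000 * n) * Real.exp (63 / 100 * n) := by
            apply mul_le_mul_of_nonneg_right _ (Real.exp_pos _).le
            linarith
        _ = Real.exp (1 / 1000 * n + 63 / 100 * n) := by rw [← Real.exp_add]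
        _ ≤ Real.exp (19 / 10 * d) := by
            apply Real.exp_le_exp.2
            linarith
    have h3 : ((n : ℝ) + 1) * (Real.exp (63 / 100 * n) * (n + 1)) ≤ (n + 1) * (N : ℝ) := by
      linarith
    exact le_of_mul_le_mul_left h3 (by positivity)
  have hrn : r ≤ n := by omega
  have hNbig : 2 * (n : ℝ) ^ 2 ≤ N := by
    refine le_trans ?_ hNlow
    have h2 : 2 * ((n : ℝ) + 1) ^ 3 ≤ Real.exp (63 / 100 * n) := by
      refine hn3.trans ?_
      apply Real.exp_le_exp.2
      linarith
    have h3 : 2 * (n : ℝ) ^ 2 ≤ 2 * ((n : ℝ) + 1) ^ 3 := by nlinarith [sq_nonneg (n : ℝ)]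
    nlinarith [Real.exp_pos (63 / 100 * (n : ℝ))]
  have hN2 : 2 * r ^ 2 ≤ N := by
    have h2 : 2 * (r : ℝ) ^ 2 ≤ N := by
      refine le_trans ?_ hNbig
      have h3 : (r : ℝ) ≤ n := by exact_mod_cast hrn
      have h4 : (0 : ℝ) ≤ r := by positivity
      nlinarith
    exact_mod_cast h2
  have hr0 : 0 < r := by omega
  have hNr : (N : ℝ) ^ r ≤ 2 * (((n : ℝ) + 1) ^ r * (N.choose r : ℝ)) := by
    refine (pow_half (le_refl r) hN2 hr0).trans ?_
    apply mul_le_mul_of_nonneg_left _ (by norm_num)
    have h3 : (N - r + 1) ^ r ≤ r.factorial * N.choose r := by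
      rw [← Nat.descFactorial_eq_factorial_mul_choose]
      have := Nat.pow_sub_le_descFactorial N r
      have hrN : r ≤ N := by nlinarith
      rwa [show N + 1 - r = N - r + 1 by omega] at this
    have h4 : (((N - r + 1 : ℕ) : ℝ)) ^ r ≤ (r.factorial : ℝ) * N.choose r := by
      exact_mod_cast h3
    refine h4.trans ?_
    apply mul_le_mul_of_nonneg_right _ (by positivity)
    have h5 : r.factorial ≤ (n + 1) ^ r :=
      (Nat.factorial_le_pow r).trans (Nat.pow_le_pow_left (by omega) r)
    exact_mod_cast h5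
  have hmain : Real.exp (63 / 100 * n) ^ r ≤ 2 * (N.choose r : ℝ) := by
    have h2 : ((n : ℝ) + 1) ^ r * Real.exp (63 / 100 * n) ^ r ≤
        ((n : ℝ) + 1) ^ r * (2 * (N.choose r : ℝ)) := by
      calc ((n : ℝ) + 1) ^ r * Real.exp (63 / 100 * n) ^ r
          = (Real.exp (63 / 100 * n) * (n + 1)) ^ r := by rw [mul_pow]; ring
        _ ≤ (N : ℝ) ^ r := pow_le_pow_left₀ (by positivity) hNlow r
        _ ≤ _ := hNr
        _ = _ := by ring
    exact le_of_mul_le_mul_left h2 (by positivity)
  have hexp : Real.exp (21 / 50 * (n : ℝ) ^ 2) ≤ Real.exp (63 / 100 * n) ^ r := by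
    rw [← Real.exp_nat_mul]
    apply Real.exp_le_exp.2
    have h2 : 2 * n ≤ 3 * r := by omega
    have h3 : 2 * (n : ℝ) ≤ 3 * r := by exact_mod_cast h2
    nlinarith
  linarith

end Pool.Agent.Helper17.Trans
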