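import Mathlib
import Pool.Agent.Helper17.TransLab

set_option autoImplicit false

/-!
# The asymptotic comparison
-/

namespace Pool.Agent.Helper17.Trans

open Finset Filter
open scoped Pointwise

variable {n : ℕ}

/-- The window of ranks. -/
def Win (n r : ℕ) : Prop := n ≤ 20 * (n - r) ∧ 7 * (n - r) ≤ 3 * n

instance (n r : ℕ) : Decidable (Win n r) := by unfold Win; infer_instance

lemma gg_le_sixteen (n d : ℕ) : (gg n d : ℝ) ≤ 16 ^ d * (17 / 16) ^ n := by
  have h1 : (gg n d : ℝ) * (1 / 16) ^ d ≤ (17 / 16) ^ n := by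
    have h2 : ((17 : ℝ) / 16) ^ n = ∑ i ∈ range (n + 1), (1 / 16 : ℝ) ^ i * (n.choose i : ℝ) := by
      have := add_pow (1 / 16 : ℝ) 1 n
      simp only [one_pow, mul_one] at this
      rw [← this]; norm_num
    rw [h2]
    unfold gg
    push_cast
    rw [Finset.sum_mul]
    calc ∑ i ∈ range (d + 1), (n.choose i : ℝ) * (1 / 16) ^ d
        ≤ ∑ i ∈ range (d + 1), (1 / 16 : ℝ) ^ i * (n.choose i : ℝ) := by
          refine Finset.sum_le_sum fun i hi => ?_
          rw [mem_range] at hi
          rw [mul_comm]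
          apply mul_le_mul_of_nonneg_right _ (by positivity)
          exact pow_le_pow_of_le_one (by norm_num) (by norm_num) (by omega)
      _ ≤ ∑ i ∈ range (max (d + 1) (n + 1)), (1 / 16 : ℝ) ^ i * (n.choose i : ℝ) := by
          apply Finset.sum_le_sum_of_subset_of_nonneg
          · intro i; simp only [mem_range]; omega
          · intro i _ _; positivity
      _ = ∑ i ∈ range (n + 1), (1 / 16 : ℝ) ^ i * (n.choose i : ℝ) := by
          symm
          apply Finset.sum_subset
          · intro i; simp only [mem_range]; omega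
          · intro i _ hi
            rw [mem_range] at hi
            rw [Nat.choose_eq_zero_of_lt (by omega)]
            simp
  have h3 : (gg n d : ℝ) = 16 ^ d * ((gg n d : ℝ) * (1 / 16) ^ d) := by
    rw [mul_comm (gg n d : ℝ), ← mul_assoc, ← mul_pow]; norm_num
  rw [h3]
  exact mul_le_mul_of_nonneg_left h1 (by positivity)

lemma card_XX (n : ℕ) {r : ℕ} (hr : r ≤ n) : (XX n r).card ≤ (gg n (n - r) + 1) ^ r := by
  unfold XX
  rw [card_subfamilies, card_FF hr]
  exact YY_le_pow _ _

/-- Outside the window there are few families. -/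
lemma out_of_window : ∀ᶠ n : ℕ in atTop, ∀ r, r ≤ n → ¬ Win n r →
    ((XX n r).card : ℝ) ≤ Real.exp (2 / 5 * (n : ℝ) ^ 2) := by
  filter_upwards [eventually_ge_atTop 1000] with n hn r hr hW
  have hnr : (1000 : ℝ) ≤ n := by exact_mod_cast hn
  have hr0 : (0 : ℝ) ≤ r := by positivity
  have hrn : (r : ℝ) ≤ n := by exact_mod_cast hr
  have h1 : ((XX n r).card : ℝ) ≤ ((gg n (n - r) : ℝ) + 1) ^ r := by
    exact_mod_cast card_XX n hr
  refine h1.trans ?_
  unfold Win at hW
  rw [not_and_or] at hW
  rcases hW with hW | hW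
  · -- small corank
    set d := n - r with hd
    have h2 : (gg n d : ℝ) ≤ Real.exp (n / 4) := by
      refine (gg_le_sixteen n d).trans ?_
      have h3 : (16 : ℝ) ^ d * (17 / 16) ^ n = Real.exp (d * Real.log 16 + n * Real.log (17 / 16)) := by
        rw [Real.exp_add, mul_comm (d : ℝ), mul_comm (n : ℝ), Real.exp_mul, Real.exp_mul,
          Real.exp_log (by norm_num), Real.exp_log (by norm_num), Real.rpow_natCast,
          Real.rpow_natCast]
      rw [h3]
      apply Real.exp_le_exp.2
      have h4 : Real.log 16 ≤ 3 := by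
        rw [Real.log_le_iff_le_exp (by norm_num)]
        have e9 := Real.exp_one_gt_d9
        have : Real.exp 3 = Real.exp 1 ^ 3 := by rw [← Real.exp_nat_mul]; norm_num
        rw [this]
        calc (16 : ℝ) ≤ (2.7182818283 : ℝ) ^ 3 := by norm_num
          _ ≤ _ := pow_le_pow_left₀ (by norm_num) e9.le 3
      have h5 : Real.log (17 / 16) ≤ 1 / 16 := by
        have := Real.log_le_sub_one_of_pos (x := 17 / 16) (by norm_num)
        linarith
      have h6 : 20 * (d : ℝ) ≤ n := by exact_mod_cast (by omega : 20 * d ≤ n)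
      have h7 : (0 : ℝ) ≤ d := by positivity
      calc (d : ℝ) * Real.log 16 + n * Real.log (17 / 16) ≤ d * 3 + n * (1 / 16) := by
            apply add_le_add
            · exact mul_le_mul_of_nonneg_left h4 h7
            · exact mul_le_mul_of_nonneg_left h5 (by positivity)
        _ ≤ n / 4 := by linarith
    have h3 : (gg n d : ℝ) + 1 ≤ Real.exp (3 / 10 * n) := by
      have h4 : Real.exp (3 / 10 * n) = Real.exp (n / 4) * Real.exp (n / 20) := by
        rw [← Real.exp_add]; ring_nf
      have h5 : (2 : ℝ) ≤ Real.exp (n / 20) := by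
        have := Real.add_one_le_exp ((n : ℝ) / 20)
        linarith
      have h6 : (1 : ℝ) ≤ Real.exp (n / 4) := Real.one_le_exp (by positivity)
      rw [h4]
      nlinarith [Real.exp_pos ((n : ℝ) / 4)]
    calc ((gg n d : ℝ) + 1) ^ r ≤ (Real.exp (3 / 10 * n)) ^ r :=
          pow_le_pow_left₀ (by positivity) h3 r
      _ = Real.exp (r * (3 / 10 * n)) := by rw [← Real.exp_nat_mul]
      _ ≤ _ := by
          apply Real.exp_le_exp.2
          nlinarith
  · -- large corank
    have h7r : 7 * r ≤ 4 * n := by omega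
    have h7r' : 7 * (r : ℝ) ≤ 4 * n := by exact_mod_cast h7r
    have h3 : (gg n (n - r) : ℝ) + 1 ≤ Real.exp (7 / 10 * n) := by
      have h4 : (gg n (n - r) : ℝ) ≤ 2 ^ n := by exact_mod_cast gg_le_two_pow n (n - r)
      have h5 : (2 : ℝ) ^ n + 1 ≤ 2 ^ (n + 1) := by
        have : (1 : ℝ) ≤ 2 ^ n := one_le_pow₀ (by norm_num)
        rw [pow_succ]; linarith
      have h6 : (2 : ℝ) ^ (n + 1) = Real.exp (((n : ℝ) + 1) * Real.log 2) := by
        rw [mul_comm, Real.exp_mul, Real.exp_log (by norm_num)]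
        rw [← Nat.cast_succ, Real.rpow_natCast]
      have h8 : Real.log 2 ≤ 0.6931471808 := Real.log_two_lt_d9.le
      calc (gg n (n - r) : ℝ) + 1 ≤ 2 ^ (n + 1) := by linarith
        _ = Real.exp (((n : ℝ) + 1) * Real.log 2) := h6
        _ ≤ Real.exp (7 / 10 * n) := by
            apply Real.exp_le_exp.2
            calc ((n : ℝ) + 1) * Real.log 2 ≤ ((n : ℝ) + 1) * 0.6931471808 :=
                  mul_le_mul_of_nonneg_left h8 (by positivity)
              _ ≤ 7 / 10 * n := by linarith
    calc ((gg n (n - r) : ℝ) + 1) ^ r ≤ (Real.exp (7 / 10 * n)) ^ r :=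
          pow_le_pow_left₀ (by positivity) h3 r
      _ = Real.exp (r * (7 / 10 * n)) := by rw [← Real.exp_nat_mul]
      _ ≤ _ := by
          apply Real.exp_le_exp.2
          nlinarith

/-- The combined count of everything which is not good in the window, plus the number of possible
statistics, weighted by `n!`. -/
noncomputable def rest (n : ℕ) : ℕ :=
  n.factorial * ((n + 1) ^ (n + 2) +
    ∑ r ∈ (range (n + 1)).filter (fun r => ¬ Win n r), (XX n r).card) +
  ∑ r ∈ (range (n + 1)).filter (fun r => Win n r),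
    ∑ π : Equiv.Perm (Fin n), ((Bad n r).filter (fun Hs => π • Hs = Hs)).card

set_option maxHeartbeats 1000000 in
theorem rest_small (ε : ℝ) (hε : 0 < ε) : ∀ᶠ n : ℕ in atTop,
    (rest n : ℝ) ≤ ε * (Nat.card (LabTrans n) : ℝ) := by
  filter_upwards [sum_fix_bound (ε / 4) (by positivity), choose_le_lab, lab_lower, out_of_window,
    ev_exp 1 1 (1 / 1000) (by norm_num), ev_exp 1 (16 / ε) (1 / 1000) (by norm_num),
    eventually_ge_atTop 1000]
    with n hfix hch hlow hout hn1 hnε hn1000
  set t : ℝ := (Nat.card (LabTrans n) : ℝ) with ht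
  have ht0 : 0 ≤ t := by positivity
  have hnr : (1000 : ℝ) ≤ n := by exact_mod_cast hn1000
  rw [one_mul, pow_one] at hn1
  rw [pow_one] at hnε
  unfold rest
  push_cast
  -- first part
  have hfact : (n.factorial : ℝ) ≤ ((n : ℝ) + 1) ^ n := by
    have h5 : n.factorial ≤ (n + 1) ^ n :=
      (Nat.factorial_le_pow n).trans (Nat.pow_le_pow_left (by omega) n)
    exact_mod_cast h5
  have hpow : ∀ k : ℕ, ((n : ℝ) + 1) ^ k ≤ Real.exp (k * (1 / 1000 * n)) := by
    intro k
    calc ((n : ℝ) + 1) ^ k ≤ (Real.exp (1 / 1000 * n)) ^ k :=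
          pow_le_pow_left₀ (by positivity) hn1 k
      _ = _ := by rw [← Real.exp_nat_mul]
  have hsum : ∑ r ∈ (range (n + 1)).filter (fun r => ¬ Win n r), ((XX n r).card : ℝ) ≤
      ((n : ℝ) + 1) * Real.exp (2 / 5 * (n : ℝ) ^ 2) := by
    calc ∑ r ∈ (range (n + 1)).filter (fun r => ¬ Win n r), ((XX n r).card : ℝ)
        ≤ ∑ r ∈ (range (n + 1)).filter (fun r => ¬ Win n r), Real.exp (2 / 5 * (n : ℝ) ^ 2) := by
          refine Finset.sum_le_sum fun r hr => ?_
          rw [mem_filter, mem_range] at hr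
          exact hout r (by omega) hr.2
      _ = (((range (n + 1)).filter (fun r => ¬ Win n r)).card : ℝ) *
            Real.exp (2 / 5 * (n : ℝ) ^ 2) := by rw [Finset.sum_const, nsmul_eq_mul]
      _ ≤ _ := by
          apply mul_le_mul_of_nonneg_right _ (Real.exp_pos _).le
          have : ((range (n + 1)).filter (fun r => ¬ Win n r)).card ≤ n + 1 := by
            refine (Finset.card_filter_le _ _).trans ?_
            rw [card_range]
          exact_mod_cast this
  have hone : ((n : ℝ) + 1) ^ (n + 2) ≤ ((n : ℝ) + 1) * Real.exp (2 / 5 * (n : ℝ) ^ 2) := by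
    rw [pow_succ, mul_comm]
    apply mul_le_mul_of_nonneg_left _ (by positivity)
    refine (hpow (n + 1)).trans ?_
    apply Real.exp_le_exp.2
    push_cast
    nlinarith
  have hfirst : (n.factorial : ℝ) * (((n : ℝ) + 1) ^ (n + 2) +
      ∑ r ∈ (range (n + 1)).filter (fun r => ¬ Win n r), ((XX n r).card : ℝ)) ≤ ε / 2 * t := by
    have h1 : (n.factorial : ℝ) * (((n : ℝ) + 1) ^ (n + 2) +
      ∑ r ∈ (range (n + 1)).filter (fun r => ¬ Win n r), ((XX n r).card : ℝ)) ≤
        ((n : ℝ) + 1) ^ n * (2 * (((n : ℝ) + 1) * Real.exp (2 / 5 * (n : ℝ) ^ 2))) := by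
      have hS0 : 0 ≤ ∑ r ∈ (range (n + 1)).filter (fun r => ¬ Win n r), ((XX n r).card : ℝ) :=
        Finset.sum_nonneg fun _ _ => Nat.cast_nonneg _
      generalize ∑ r ∈ (range (n + 1)).filter (fun r => ¬ Win n r), ((XX n r).card : ℝ) = S
        at hsum hS0 ⊢
      have h0 : (0 : ℝ) ≤ ((n : ℝ) + 1) ^ (n + 2) + S := add_nonneg (by positivity) hS0
      have h00 : (0 : ℝ) ≤ ((n : ℝ) + 1) ^ n := by positivity
      refine mul_le_mul hfact ?_ h0 h00
      linarith
    refine h1.trans ?_
    have h2 : (8 / ε) * (((n : ℝ) + 1) ^ n * (2 * (((n : ℝ) + 1) *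
        Real.exp (2 / 5 * (n : ℝ) ^ 2)))) ≤ 4 * t := by
      refine le_trans ?_ hlow
      calc (8 / ε) * (((n : ℝ) + 1) ^ n * (2 * (((n : ℝ) + 1) *
          Real.exp (2 / 5 * (n : ℝ) ^ 2))))
          = ((16 / ε) * ((n : ℝ) + 1)) * (((n : ℝ) + 1) ^ n *
            Real.exp (2 / 5 * (n : ℝ) ^ 2)) := by ring
        _ ≤ Real.exp (1 / 1000 * n) * (Real.exp (n * (1 / 1000 * n)) *
            Real.exp (2 / 5 * (n : ℝ) ^ 2)) := by
            apply mul_le_mul hnε _ (by positivity) (by positivity)
            exact mul_le_mul_of_nonneg_right (hpow n) (by positivity)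
        _ = Real.exp (1 / 1000 * n + (n * (1 / 1000 * n) + 2 / 5 * (n : ℝ) ^ 2)) := by
            rw [← Real.exp_add, ← Real.exp_add]
        _ ≤ _ := by
            apply Real.exp_le_exp.2
            nlinarith
    generalize (((n : ℝ) + 1) ^ n * (2 * (((n : ℝ) + 1) * Real.exp (2 / 5 * (n : ℝ) ^ 2)))) = K
      at h2 ⊢
    rw [div_mul_eq_mul_div, div_le_iff₀ hε] at h2
    linarith
  -- second part
  have hsecond : ∑ r ∈ (range (n + 1)).filter (fun r => Win n r),
      ∑ π : Equiv.Perm (Fin n), (((Bad n r).filter (fun Hs => π • Hs = Hs)).card : ℝ) ≤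
      ε / 2 * t := by
    have h1 : ∀ r ∈ (range (n + 1)).filter (fun r => Win n r),
        ∑ π : Equiv.Perm (Fin n), (((Bad n r).filter (fun Hs => π • Hs = Hs)).card : ℝ) ≤
        ε / 2 * t / (n + 1) := by
      intro r hr
      rw [mem_filter, mem_range] at hr
      obtain ⟨hr, hW⟩ := hr
      have h2 := hfix r (by omega) hW.1 hW.2
      have h3 := hch r (by omega) hW.1 hW.2
      push_cast at h2
      rw [le_div_iff₀ (by positivity)]
      refine h2.trans ?_
      calc ε / 4 * ((gg n (n - r)).choose r : ℝ) ≤ ε / 4 * (2 * t) :=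
            mul_le_mul_of_nonneg_left h3 (by positivity)
        _ = ε / 2 * t := by ring
    refine (Finset.sum_le_sum h1).trans ?_
    rw [Finset.sum_const, nsmul_eq_mul]
    have h2 : (((range (n + 1)).filter (fun r => Win n r)).card : ℝ) ≤ (n : ℝ) + 1 := by
      have : ((range (n + 1)).filter (fun r => Win n r)).card ≤ n + 1 := by
        refine (Finset.card_filter_le _ _).trans ?_
        rw [card_range]
      exact_mod_cast this
    calc _ ≤ ((n : ℝ) + 1) * (ε / 2 * t / (n + 1)) :=
          mul_le_mul_of_nonneg_right h2 (by positivity)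
      _ = ε / 2 * t := by field_simp
  linarith

end Pool.Agent.Helper17.Trans
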