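import Mathlib
import Pool.Agent.Helper17.TransAsym

set_option autoImplicit false

/-!
# Isomorphism classes and Burnside's lemma
-/

namespace Pool.Agent.Helper17.Trans

open Finset Filter
open scoped Pointwise

variable {n : ℕ}

/-- The ground set `univ` as a subtype. -/
def kE {M : Matroid (Fin n)} (hE : M.E = Set.univ) : Fin n ≃ M.E where
  toFun := fun x => ⟨x, by rw [hE]; trivial⟩
  invFun := Subtype.val
  left_inv := fun _ => rfl
  right_inv := fun _ => rfl

lemma iso_iff {M M' : Matroid (Fin n)} (hE : M.E = Set.univ) (hE' : M'.E = Set.univ) :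
    Iso M M' ↔ ∃ π : Equiv.Perm (Fin n), ∀ I : Set (Fin n), M.Indep I ↔ M'.Indep (π '' I) := by
  constructor
  · rintro ⟨e, he⟩
    refine ⟨(kE hE).trans (e.trans (kE hE').symm), fun I => ?_⟩
    have h1 := he ((kE hE) '' I)
    have h2 : Subtype.val '' ((kE hE) '' I) = I := by
      rw [← Set.image_comp]
      exact Set.image_id I
    have h3 : Subtype.val '' (e '' ((kE hE) '' I)) =
        ((kE hE).trans (e.trans (kE hE').symm)) '' I := by
      rw [← Set.image_comp, ← Set.image_comp]
      rfl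
    rw [h2, h3] at h1
    exact h1
  · rintro ⟨π, hπ⟩
    refine ⟨(kE hE).symm.trans (π.trans (kE hE')), fun I => ?_⟩
    rw [hπ]
    have h3 : Subtype.val '' (((kE hE).symm.trans (π.trans (kE hE'))) '' I) =
        π '' (Subtype.val '' I) := by
      rw [← Set.image_comp, ← Set.image_comp]
      rfl
    rw [h3]

/-- A permutation carrying bases to bases is an isomorphism. -/
lemma iso_of_bases {M M' : Matroid (Fin n)} (hE : M.E = Set.univ) (hE' : M'.E = Set.univ)
    (π : Equiv.Perm (Fin n)) (h : ∀ B : Finset (Fin n), M.IsBase B ↔ M'.IsBase (π • B : Finset _)) :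
    Iso M M' := by
  classical
  rw [iso_iff hE hE']
  refine ⟨π, fun I => ?_⟩
  have hcoe : ∀ B : Finset (Fin n), ((π • B : Finset (Fin n)) : Set (Fin n)) = π '' B := by
    intro B
    ext x
    simp only [mem_coe, mem_smul', Set.mem_image]
    constructor
    · intro hx; exact ⟨π⁻¹ x, hx, by simp⟩
    · rintro ⟨y, hy, rfl⟩; simpa using hy
  constructor
  · intro hI
    obtain ⟨B, hB, hIB⟩ := hI.exists_isBase_superset
    have h1 := (h B.toFinset).1 (by simpa using hB)
    rw [hcoe, Set.coe_toFinset] at h1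
    exact h1.indep.subset (Set.image_mono hIB)
  · intro hI
    obtain ⟨B, hB, hIB⟩ := hI.exists_isBase_superset
    have h1 : M'.IsBase ((π • (π⁻¹ • B.toFinset) : Finset (Fin n)) : Set (Fin n)) := by
      rw [smul_inv_smul]; simpa using hB
    have h2 := (h _).2 h1
    refine h2.indep.subset ?_
    intro x hx
    rw [mem_coe, mem_smul', inv_inv, Set.mem_toFinset]
    exact hIB ⟨x, hx, rfl⟩

/-! ### Equivariance -/

lemma cap_smul (π : Equiv.Perm (Fin n)) (T : Finset (Finset (Fin n))) :
    cap (π • T) = π • cap T := by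
  classical
  ext x
  rw [mem_cap, mem_smul', mem_cap]
  constructor
  · intro h H hH
    have := h (π • H) (Finset.smul_mem_smul_finset hH)
    rwa [mem_smul'] at this
  · intro h H hH
    have h1 : π⁻¹ • H ∈ T := by
      rwa [Finset.inv_smul_mem_iff]
    have h2 := h _ h1
    rw [mem_smul', inv_inv] at h2
    simpa using h2

lemma isB_smul {r : ℕ} {Hs : Finset (Finset (Fin n))} (π : Equiv.Perm (Fin n))
    {B : Finset (Fin n)} (h : IsB r Hs B) : IsB r (π • Hs) (π • B) := by
  classical
  refine ⟨by rw [Finset.card_smul_finset]; exact h.1, fun T hT hne => ?_⟩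
  have h1 : π⁻¹ • T ⊆ Hs := by
    rw [← Finset.subset_smul_finset_iff]; exact hT
  have h2 := h.2 _ h1 (by
    rw [Finset.smul_finset_nonempty]; exact hne)
  rw [cap_smul, Finset.card_smul_finset] at h2
  have h3 : π • B ∩ cap T = π • (B ∩ π⁻¹ • cap T) := by
    rw [Finset.smul_finset_inter, smul_inv_smul]
  rw [h3, Finset.card_smul_finset]
  exact h2

lemma isB_smul_iff {r : ℕ} {Hs : Finset (Finset (Fin n))} (π : Equiv.Perm (Fin n))
    {B : Finset (Fin n)} : IsB r (π • Hs) (π • B) ↔ IsB r Hs B := by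
  constructor
  · intro h
    have := isB_smul π⁻¹ h
    rwa [inv_smul_smul, inv_smul_smul] at this
  · exact isB_smul π

lemma good_smul {r : ℕ} {Hs : Finset (Finset (Fin n))} (π : Equiv.Perm (Fin n))
    (h : Good r Hs) : Good r (π • Hs) := by
  classical
  intro T hT hne
  have h1 : π⁻¹ • T ⊆ Hs := by
    rw [← Finset.subset_smul_finset_iff]; exact hT
  have h2 := h _ h1 (by rw [Finset.card_smul_finset]; exact hne)
  rw [cap_smul, Finset.card_smul_finset, Finset.card_smul_finset] at h2
  exact h2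

lemma bad_smul {r : ℕ} {Hs : Finset (Finset (Fin n))} (π : Equiv.Perm (Fin n))
    (h : Hs ∈ Bad n r) : π • Hs ∈ Bad n r := by
  classical
  unfold Bad XX at h ⊢
  rw [mem_filter, mem_filter, mem_powerset] at h ⊢
  obtain ⟨⟨h1, h2⟩, h3⟩ := h
  refine ⟨⟨fun H hH => ?_, by rw [Finset.card_smul_finset]; exact h2⟩, fun hg => h3 ?_⟩
  · have h4 : π⁻¹ • H ∈ Hs := by rwa [Finset.inv_smul_mem_iff]
    have h5 := h1 h4
    unfold FF at h5 ⊢
    rw [mem_filter] at h5 ⊢
    rw [Finset.card_smul_finset] at h5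
    exact ⟨mem_univ _, h5.2⟩
  · have := good_smul π⁻¹ hg
    rwa [inv_smul_smul] at this

/-- The action of the symmetric group on the bad families. -/
noncomputable def BadAct (n r : ℕ) :
    SubMulAction (Equiv.Perm (Fin n)) (Finset (Finset (Fin n))) where
  carrier := (Bad n r : Set (Finset (Finset (Fin n))))
  smul_mem' := fun π _ h => Finset.mem_coe.2 (bad_smul π (Finset.mem_coe.1 h))

lemma mem_BadAct {r : ℕ} {Hs : Finset (Finset (Fin n))} : Hs ∈ BadAct n r ↔ Hs ∈ Bad n r := by
  show Hs ∈ (Bad n r : Set (Finset (Finset (Fin n)))) ↔ _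
  exact Finset.mem_coe

open Classical in
/-- Burnside's lemma for the bad families. -/
lemma burnside (n r : ℕ) :
    Nat.card (MulAction.orbitRel.Quotient (Equiv.Perm (Fin n)) (BadAct n r)) * n.factorial =
      ∑ π : Equiv.Perm (Fin n), ((Bad n r).filter (fun Hs => π • Hs = Hs)).card := by
  have hfin : Fintype (BadAct n r) := Fintype.ofFinite _
  have h := MulAction.sum_card_fixedBy_eq_card_orbits_mul_card_group (Equiv.Perm (Fin n))
    (BadAct n r)
  rw [Fintype.card_perm, Fintype.card_fin] at h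
  rw [Nat.card_eq_fintype_card]
  refine Eq.trans h.symm (Finset.sum_congr rfl fun π _ => ?_)
  rw [← Fintype.card_coe]
  refine Fintype.card_congr ⟨fun x => ⟨x.1.1, ?_⟩, fun x => ⟨⟨x.1, ?_⟩, ?_⟩, ?_, ?_⟩
  · rw [mem_filter]
    exact ⟨mem_BadAct.1 x.1.2, congrArg Subtype.val x.2⟩
  · exact mem_BadAct.2 (mem_filter.1 x.2).1
  · exact Subtype.ext (mem_filter.1 x.2).2
  · intro x; rfl
  · intro x; rfl

end Pool.Agent.Helper17.Trans
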