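import Mathlib
import Pool.Agent.Helper17.TransIso

set_option autoImplicit false

/-!
# Almost no transversal matroid is Tutte unique
-/

namespace Pool.Agent.Helper17.Trans

open Finset Filter
open scoped Pointwise

variable {n : ℕ}

instance (n : ℕ) : Finite (Quotient (isoSetoid n)) := Quotient.finite _

lemma univ_notMem {r : ℕ} {Hs : Finset (Finset (Fin n))} {M : Matroid (Fin n)}
    (hM : ∀ B : Finset (Fin n), M.IsBase B ↔ IsB r Hs B) : univ ∉ Hs := by
  classical
  intro hu
  obtain ⟨B, hB⟩ := M.exists_isBase
  have h1 : IsB r Hs B.toFinset := (hM _).1 (by simpa using hB)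
  have h2 := h1.2 {univ} (by simpa using hu) (Finset.singleton_nonempty _)
  have h3 : cap {(univ : Finset (Fin n))} = univ := by
    ext x; rw [mem_cap]; simp
  rw [h3, Finset.inter_univ, h1.1, Finset.card_singleton] at h2
  omega

/-- The isomorphism classes of Tutte unique transversal matroids. -/
abbrev TUClass (n : ℕ) : Type :=
  {c : Quotient (isoSetoid n) // ∃ M : LabTrans n, Quotient.mk _ M = c ∧ TutteUnique M.1}

theorem card_TUClass_le (n : ℕ) : n.factorial * Nat.card (TUClass n) ≤ rest n := by
  classical
  have hfin : Fintype (TUClass n) := Fintype.ofFinite _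
  rw [Nat.card_eq_fintype_card]
  have hrep : ∀ c : TUClass n, ∃ (M : LabTrans n) (r : ℕ) (Hs : Finset (Finset (Fin n))),
      Quotient.mk _ M = c.1 ∧ TutteUnique M.1 ∧ r ≤ n ∧ (∀ H ∈ Hs, r ≤ H.card) ∧ Hs.card ≤ r ∧
      ∀ B : Finset (Fin n), M.1.IsBase B ↔ IsB r Hs B := by
    intro c
    obtain ⟨M, hM, hTU⟩ := c.2
    obtain ⟨r, Hs, h1, h2, h3, h4⟩ := transversal_structure M.1 M.2.1 M.2.2
    exact ⟨M, r, Hs, hM, hTU, h1, h2, h3, h4⟩
  choose M r Hs hMc hTU hrn hbig hcard hB using hrep
  have hmk : ∀ c c' : TUClass n, Iso (M c).1 (M c').1 → c = c' := by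
    intro c c' h
    apply Subtype.ext
    rw [← hMc c, ← hMc c']
    exact Quotient.sound h
  have hXX : ∀ c : TUClass n, Hs c ∈ XX n (r c) := by
    intro c
    unfold XX
    rw [mem_filter, mem_powerset]
    refine ⟨fun H hH => ?_, hcard c⟩
    unfold FF
    rw [mem_filter]
    exact ⟨mem_univ _, hbig c H hH⟩
  set C1 := (univ : Finset (TUClass n)).filter (fun c => Good (r c) (Hs c)) with hC1
  set C2 := (univ : Finset (TUClass n)).filter (fun c => ¬ Win n (r c)) with hC2
  set C3 := fun k : ℕ => (univ : Finset (TUClass n)).filter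
    (fun c => r c = k ∧ ¬ Good (r c) (Hs c)) with hC3
  have hcover : (univ : Finset (TUClass n)) ⊆
      C1 ∪ C2 ∪ ((range (n + 1)).filter (fun k => Win n k)).biUnion C3 := by
    intro c _
    rw [mem_union, mem_union]
    by_cases hg : Good (r c) (Hs c)
    · left; left; rw [hC1, mem_filter]; exact ⟨mem_univ _, hg⟩
    · by_cases hW : Win n (r c)
      · right
        rw [mem_biUnion]
        refine ⟨r c, ?_, ?_⟩
        · rw [mem_filter, mem_range]
          have := hrn c
          exact ⟨by omega, hW⟩
        · rw [hC3, mem_filter]; exact ⟨mem_univ _, rfl, hg⟩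
      · left; right; rw [hC2, mem_filter]; exact ⟨mem_univ _, hW⟩
  -- good families
  have h1 : C1.card ≤ (n + 1) ^ (n + 2) := by
    have hst : ∀ c : TUClass n, ∀ k, stat (Hs c) k < n + 1 := by
      intro c k
      have h2 : stat (Hs c) k ≤ (Hs c).card := by
        unfold stat; exact Finset.card_filter_le _ _
      have := hcard c
      have := hrn c
      omega
    have h2 : C1.card ≤ (univ : Finset (Fin (n + 1) × (Fin (n + 1) → Fin (n + 1)))).card := by
      apply Finset.card_le_card_of_injOn
        (fun c => ((⟨r c, by have := hrn c; omega⟩ : Fin (n + 1)),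
          fun k : Fin (n + 1) => (⟨stat (Hs c) k, hst c k⟩ : Fin (n + 1))))
      · intro c _; exact mem_coe.2 (mem_univ _)
      · intro c hc c' hc' heq
        have hg := (mem_filter.1 (mem_coe.1 hc)).2
        have hg' := (mem_filter.1 (mem_coe.1 hc')).2
        have e1 : r c = r c' := congrArg (fun p => (p.1 : Fin (n + 1)).val) heq
        have e2 : ∀ k, k ≤ n → stat (Hs c) k = stat (Hs c') k := by
          intro k hk
          exact congrArg (fun p => (p.2 ⟨k, by omega⟩ : Fin (n + 1)).val) heq
        apply hmk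
        apply hTU c'
        apply tutte_eq_of_stat (r := r c) hg (by rw [e1]; exact hg') (hrn c)
          (univ_notMem (hB c)) (univ_notMem (hB c')) (hcard c) (by rw [e1]; exact hcard c')
          (hbig c) (by rw [e1]; exact hbig c') (M c).2.1 (M c').2.1 (hB c)
          (by rw [e1]; exact hB c') e2
    refine h2.trans (le_of_eq ?_)
    rw [Finset.card_univ, Fintype.card_prod, Fintype.card_fun, Fintype.card_fin]
    ring
  -- outside the window
  have h2 : C2.card ≤ ∑ k ∈ (range (n + 1)).filter (fun k => ¬ Win n k), (XX n k).card := by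
    rw [← Finset.card_sigma]
    apply Finset.card_le_card_of_injOn
      (fun c => (⟨r c, Hs c⟩ : (_ : ℕ) × Finset (Finset (Fin n))))
    · intro c hc
      have hc' := (mem_filter.1 (mem_coe.1 hc)).2
      refine mem_coe.2 (mem_sigma.2 ⟨mem_filter.2 ⟨mem_range.2 ?_, hc'⟩, hXX c⟩)
      have := hrn c
      show r c < n + 1
      omega
    · intro c _ c' _ heq
      have e1 : r c = r c' := congrArg Sigma.fst heq
      have e2 : Hs c = Hs c' := congrArg Sigma.snd heq
      apply hmk
      have : (M c).1 = (M c').1 := matroid_ext (M c).2.1 (M c').2.1 (hB c)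
        (by rw [e1, e2]; exact hB c')
      rw [this]
      exact Iso.refl _
  -- bad families in the window
  have h3 : ∀ k, (C3 k).card * n.factorial ≤
      ∑ π : Equiv.Perm (Fin n), ((Bad n k).filter (fun Hs => π • Hs = Hs)).card := by
    intro k
    rw [← burnside]
    apply Nat.mul_le_mul_right
    have hfin2 : Fintype (MulAction.orbitRel.Quotient (Equiv.Perm (Fin n)) (BadAct n k)) :=
      Fintype.ofFinite _
    rw [Nat.card_eq_fintype_card, ← Fintype.card_coe]
    have hmem : ∀ c : C3 k, Hs c.1 ∈ BadAct n k := by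
      intro c
      obtain ⟨hr, hg⟩ := (mem_filter.1 c.2).2
      rw [mem_BadAct]
      unfold Bad
      have hx := hXX c.1
      rw [hr] at hx hg
      exact mem_filter.2 ⟨hx, hg⟩
    have hinj : Function.Injective (fun c : C3 k =>
        (Quotient.mk (MulAction.orbitRel (Equiv.Perm (Fin n)) (BadAct n k)) ⟨Hs c.1, hmem c⟩ :
          MulAction.orbitRel.Quotient (Equiv.Perm (Fin n)) (BadAct n k))) := by
      intro c c' heq
      have h4 := Quotient.exact heq
      obtain ⟨π, hπ⟩ := MulAction.orbitRel_apply.1 h4
      have h5 : π • Hs c'.1 = Hs c.1 := congrArg Subtype.val hπ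
      obtain ⟨hr, -⟩ := (mem_filter.1 c.2).2
      obtain ⟨hr', -⟩ := (mem_filter.1 c'.2).2
      apply Subtype.ext
      symm
      apply hmk
      apply iso_of_bases (M c'.1).2.1 (M c.1).2.1 π
      intro B
      rw [hB, hB, ← h5, hr, hr']
      exact isB_smul_iff π |>.symm
    exact Fintype.card_le_of_injective _ hinj
  have hcardle : Fintype.card (TUClass n) ≤ C1.card + C2.card +
      ∑ k ∈ (range (n + 1)).filter (fun k => Win n k), (C3 k).card := by
    rw [← Finset.card_univ]
    refine (Finset.card_le_card hcover).trans ((Finset.card_union_le _ _).trans ?_)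
    exact Nat.add_le_add (Finset.card_union_le _ _) Finset.card_biUnion_le
  unfold rest
  calc n.factorial * Fintype.card (TUClass n)
      ≤ n.factorial * (C1.card + C2.card +
        ∑ k ∈ (range (n + 1)).filter (fun k => Win n k), (C3 k).card) :=
        Nat.mul_le_mul_left _ hcardle
    _ = n.factorial * (C1.card + C2.card) +
        ∑ k ∈ (range (n + 1)).filter (fun k => Win n k), (C3 k).card * n.factorial := by
        rw [mul_add, Finset.mul_sum]
        congr 1
        exact Finset.sum_congr rfl fun k _ => mul_comm _ _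
    _ ≤ _ := by
        apply Nat.add_le_add
        · exact Nat.mul_le_mul_left _ (Nat.add_le_add h1 h2)
        · exact Finset.sum_le_sum fun k _ => h3 k

/-- Each isomorphism class contains at most `n!` labelled matroids. -/
lemma card_le_factorial_mul {P : LabTrans n → Prop} {Q : Quotient (isoSetoid n) → Prop}
    (h : ∀ M, P M → Q (Quotient.mk _ M)) :
    Nat.card {M : LabTrans n // P M} ≤
      n.factorial * Nat.card {c : Quotient (isoSetoid n) // Q c} := by
  classical
  have hrep : ∀ c : Quotient (isoSetoid n), ∃ M : LabTrans n, Quotient.mk _ M = c :=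
    fun c => Quotient.exists_rep c
  choose R hR using hrep
  have hiso : ∀ M : LabTrans n, ∃ π : Equiv.Perm (Fin n), ∀ I : Set (Fin n),
      M.1.Indep I ↔ (R (Quotient.mk _ M)).1.Indep (π '' I) := by
    intro M
    rw [← iso_iff M.2.1 (R _).2.1]
    exact Quotient.exact (hR (Quotient.mk _ M)).symm
  choose π hπ using hiso
  have hinj : Function.Injective (fun M : {M : LabTrans n // P M} =>
      ((π M.1, ⟨Quotient.mk _ M.1, h _ M.2⟩) :
        Equiv.Perm (Fin n) × {c : Quotient (isoSetoid n) // Q c})) := by
    intro M M' heq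
    have e1 : π M.1 = π M'.1 := congrArg Prod.fst heq
    have e2 : (Quotient.mk (isoSetoid n) M.1) = Quotient.mk _ M'.1 :=
      congrArg (fun p => p.2.1) heq
    apply Subtype.ext
    apply Subtype.ext
    apply Matroid.ext_indep (M.1.2.1.trans M'.1.2.1.symm)
    intro I _
    rw [hπ M.1 I, hπ M'.1 I, e1, e2]
  have h1 := Nat.card_le_card_of_injective _ hinj
  rwa [Nat.card_prod, Nat.card_perm, Nat.card_eq_fintype_card (α := Fin n), Fintype.card_fin] at h1

theorem labelled_and_classes : ∀ ε : ℝ, 0 < ε → ∀ᶠ n : ℕ in atTop,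
    (Nat.card {M : LabTrans n // TutteUnique M.1} : ℝ) ≤ ε * Nat.card (LabTrans n) ∧
    (Nat.card (TUClass n) : ℝ) ≤ ε * Nat.card (Quotient (isoSetoid n)) := by
  intro ε hε
  filter_upwards [rest_small ε hε] with n hn
  have h1 := card_TUClass_le n
  have h1' : (n.factorial : ℝ) * Nat.card (TUClass n) ≤ rest n := by exact_mod_cast h1
  constructor
  · have h2 := card_le_factorial_mul (n := n) (P := fun M => TutteUnique M.1)
      (Q := fun c => ∃ M : LabTrans n, Quotient.mk _ M = c ∧ TutteUnique M.1)
      (fun M hM => ⟨M, rfl, hM⟩)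
    have h2' : (Nat.card {M : LabTrans n // TutteUnique M.1} : ℝ) ≤
        (n.factorial : ℝ) * Nat.card (TUClass n) := by exact_mod_cast h2
    linarith
  · have h3 := card_le_factorial_mul (n := n) (P := fun _ => True) (Q := fun _ => True)
      (fun _ _ => trivial)
    have e1 : Nat.card {M : LabTrans n // True} = Nat.card (LabTrans n) :=
      Nat.card_congr (Equiv.subtypeUnivEquiv (fun _ => trivial))
    have e2 : Nat.card {c : Quotient (isoSetoid n) // True} = Nat.card (Quotient (isoSetoid n)) :=
      Nat.card_congr (Equiv.subtypeUnivEquiv (fun _ => trivial))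
    rw [e1, e2] at h3
    have h3' : (Nat.card (LabTrans n) : ℝ) ≤
        (n.factorial : ℝ) * Nat.card (Quotient (isoSetoid n)) := by exact_mod_cast h3
    have hf : (0 : ℝ) < n.factorial := by exact_mod_cast Nat.factorial_pos n
    have h4 : (n.factorial : ℝ) * Nat.card (TUClass n) ≤
        (n.factorial : ℝ) * (ε * Nat.card (Quotient (isoSetoid n))) := by
      calc _ ≤ (rest n : ℝ) := h1'
        _ ≤ ε * Nat.card (LabTrans n) := hn
        _ ≤ ε * ((n.factorial : ℝ) * Nat.card (Quotient (isoSetoid n))) :=
            mul_le_mul_of_nonneg_left h3' hε.le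
        _ = _ := by ring
    exact le_of_mul_le_mul_left h4 hf

end Pool.Agent.Helper17.Trans
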